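import Pool.Agent.HB.Curve
import Pool.Agent.HB.A.Dv

/-!
# Project HB, part F (Chern computation): definitions and the facts of part A which are used

* `Van R f`: the element `f` of `L` belongs to the maximal ideal of the local subring `R`.
* `gam p q`: the divisor with coefficients `C.dv.iB p q` (`p ≠ q` points of `B` with values in
  `L`); `fib p b = gam p (b.map L)` for a constant point `b`.
* `Val P p b`: the value of the point `p` of `B` at the closed point `P` is `b`.
* `LE P p q f`: `f` is the standard local equation of `gam p q` at `P`.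
* `AFacts S`: what part A proves for smooth `S` (over an algebraically closed field of
  characteristic zero).
-/

set_option autoImplicit false

open IsLocalRing

namespace HB

variable {k L : Type} [Field k] [Field L] [Algebra k L]

/-- `f` is an element of the maximal ideal of `R`. -/
def Van (R : LocalSubring L) (f : L) : Prop :=
  ∃ h : f ∈ R.toSubring, (⟨f, h⟩ : R.toSubring) ∈ maximalIdeal R.toSubring

namespace Surf

variable (S : Surf k L)

/-- `p` is a morphism from the surface to the curve `B`. -/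
def Mor (p : BPt L) : Prop :=
  ∀ P : S.Pt, p.x ∈ P.1.toSubring ∨ (p.x)⁻¹ ∈ P.1.toSubring

open Classical in
/-- The divisor with coefficients `f` (`0` if the support of `f` is infinite). -/
noncomputable def mkDiv (f : S.PD → ℤ) : S.Div :=
  if h : (Function.support f).Finite then Finsupp.ofSupportFinite f h else 0

/-- The divisor of the coincidences of two different points of `B`. -/
noncomputable def gam [CharZero k] [IsAlgClosed k] (p q : BPt L) : S.Div :=
  S.mkDiv fun C => C.dv.iB p q

/-- The fibre `{p = b}`. -/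
noncomputable def fib [CharZero k] [IsAlgClosed k] (p : BPt L) (b : BPt k) : S.Div :=
  S.gam p (b.map L)

/-- The value of `p` at the closed point `P` is `b`. -/
def Val {S : Surf k L} (P : S.Pt) (p : BPt L) : BPt k → Prop
  | .aff c d _ => Van P.1 (p.x - algebraMap k L c) ∧ Van P.1 (p.y - algebraMap k L d)
  | .inf e _ => Van P.1 p.xh ∧ Van P.1 (p.yh - algebraMap k L e)

/-- `f` is the standard local equation at `P` of the divisor `gam p q`. -/
inductive LE {S : Surf k L} (P : S.Pt) (p q : BPt L) : L → Prop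
  | x (c d : k) (h : d ^ 2 = c ^ 6 + 1) (hd : d ≠ 0) (hp : Val P p (.aff c d h))
      (hq : Val P q (.aff c d h)) : LE P p q (p.x - q.x)
  | y (c d : k) (h : d ^ 2 = c ^ 6 + 1) (hd : d = 0) (hp : Val P p (.aff c d h))
      (hq : Val P q (.aff c d h)) : LE P p q (p.y - q.y)
  | i (e : k) (h : e ^ 2 = 1) (hp : Val P p (.inf e h)) (hq : Val P q (.inf e h)) :
      LE P p q (p.xh - q.xh)
  | one (h : ∀ b, ¬ (Val P p b ∧ Val P q b)) : LE P p q 1

/-- What part F uses from part A. -/
structure AFacts (S : Surf k L) : Prop where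
  algMem : ∀ (C : S.PD) (c : k), algebraMap k L c ∈ C.1.toSubring
  algMemP : ∀ (P : S.Pt) (c : k), algebraMap k L c ∈ P.1.toSubring
  /-- the residue field of a closed point is `k` -/
  value : ∀ (P : S.Pt) (f : L), f ∈ P.1.toSubring → ∃ c : k, Van P.1 (f - algebraMap k L c)
  exPt : ∀ C : S.PD, ∃ P : S.Pt, On P C
  ord_mul : ∀ (C : S.PD) (f g : L), f ≠ 0 → g ≠ 0 → C.ord (f * g) = C.ord f + C.ord g
  ord_add : ∀ (C : S.PD) (f g : L), f ≠ 0 → g ≠ 0 → f + g ≠ 0 →
    min (C.ord f) (C.ord g) ≤ C.ord (f + g)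
  mem_iff : ∀ (C : S.PD) (f : L), f ≠ 0 → (f ∈ C.1.toSubring ↔ 0 ≤ C.ord f)
  finite : ∀ f : L, f ≠ 0 → {C : S.PD | C.ord f ≠ 0}.Finite
  regular : ∀ (P : S.Pt) (f : L), f ≠ 0 → (∀ C : S.PD, On P C → 0 ≤ C.ord f) →
    f ∈ P.1.toSubring
  exEq : ∀ (D : S.Div) (P : S.Pt), ∃ f, S.IsEq D P f
  /-- orders in the local rings of the curves -/
  loc_mul : ∀ (C : S.PD) (P : S.Pt), On P C → ∀ f g : C.kap, f ≠ 0 → g ≠ 0 →
    ordS (C.loc P) (f * g) = ordS (C.loc P) f + ordS (C.loc P) g
  loc_nonneg : ∀ (C : S.PD) (P : S.Pt), On P C → ∀ f : C.kap, f ≠ 0 → f ∈ C.loc P →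
    0 ≤ ordS (C.loc P) f
  loc_pos : ∀ (C : S.PD) (P : S.Pt), On P C → ∀ f : C.kap, f ≠ 0 → f ∈ C.loc P →
    f⁻¹ ∉ C.loc P → 0 < ordS (C.loc P) f
  /-- a curve is not contracted by the finite map to the plane -/
  nonconst : ∀ (C : S.PD) (w : L) (a b c : k), Van C.1 (w - algebraMap k L a) →
    Van C.1 (w * S.s - algebraMap k L b) → Van C.1 (w * S.t - algebraMap k L c) →
    a = 0 ∧ b = 0 ∧ c = 0
  /-- regular functions are constant -/
  proper : ∀ f : L, (∀ C : S.PD, f ∈ C.1.toSubring) → ∃ c : k, f = algebraMap k L c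
  exInt : ∀ (D : S.Div) (C : S.PD), ∃ z, S.IsInt D C z
  /-- if `C` is not a component of `D`, the local equations of `D` can be restricted to `C` -/
  exInt0 : ∀ (D : S.Div) (C : S.PD), D C = 0 → ∃ z : S.Z0,
    (∀ P : S.Pt, On P C → ∃ f : L, S.IsEq D P f ∧ z P = ordS (C.loc P) (C.res f)) ∧
    ∀ P : S.Pt, ¬ On P C → z P = 0
  inter_eq : ∀ (D : S.Div) (C : S.PD) (z : S.Z0), S.IsInt D C z →
    S.inter D C = Submodule.Quotient.mk z
  inter_add : ∀ (D D' : S.Div) (C : S.PD), S.inter (D + D') C = S.inter D C + S.inter D' C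
  inter_princ : ∀ (f : L) (D : S.Div) (C : S.PD), S.IsDiv f D → S.inter D C = 0
  inter_symm : ∀ C C' : S.PD, S.inter (Finsupp.single C 1) C' = S.inter (Finsupp.single C' 1) C
  deg_mk : ∀ z : S.Z0, S.deg (Submodule.Quotient.mk z) = S.deg0 z

end Surf

end HB
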