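import Pool.Agent.HB.F.LE

/-!
# HB-F-Gam: the divisor `gam p q` and its standard local equations

PLAN.
* `gam_apply`: `mkDiv` with finite support: if `iB ≠ 0` at `C` then one of `p.x - q.x`, `p.x`, `q.x`,
  `p.y` is nonzero with nonzero order at `C`: both `IsFin`: `p = aff x y`, `q = aff x' y'`:
  `iB = dmin (x - x') (y - y')`; if `x ≠ x'` and `C.ord (x - x') = 0` then, as `y - y' ∈ O_C`
  (`y² = x⁶ + 1`), `iB = 0`; so `C.ord (x - x') ≠ 0`; if `x = x'` then `y' = -y ≠ y` and
  `iB = C.ord (2 y) = C.ord y`; both not `IsFin`: if both are `inf` then `iB = dmin 0 (e - e') = 0`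
  (`e - e' = ±2`); otherwise the affine one has `C.ord x < 0`, `x ≠ 0`.  The finite sets are given
  by `hA.finite` (for the nonzero functions among the four).
* `isEq_gam`: combine `gam_apply`, `iB_eq_of_LE`, `LE.ne_zero`.
* `gam_nonneg`: from `iB_eq_of_LE` at a point `P` of `C` (`hA.exPt`): the standard local equation is in
  `O_P ⊆ O_C` (`LE.mem`) and nonzero.
-/

set_option autoImplicit false

open IsLocalRing

namespace HB

variable {k L : Type} [Field k] [Field L] [Algebra k L]

namespace Surf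

variable {S : Surf k L}

private theorem fin_aux (hA : AFacts S) (f : L) :
    {C : S.PD | f ≠ 0 ∧ C.ord f ≠ 0}.Finite := by
  by_cases hf : f = 0
  · subst hf; simp
  · exact (hA.finite f hf).subset fun C hC => hC.2

private theorem not_ge_aux (D : DV k L) {f : L} (h : ¬ D.ge 0 f) : f ≠ 0 ∧ D.v f ≠ 0 := by
  unfold DV.ge at h
  push Not at h
  exact ⟨h.1, by have := h.2; omega⟩

private theorem ge_y_aux (D : DV k L) {x y : L} (h : y ^ 2 = x ^ 6 + 1) (hx : D.ge 0 x) :
    D.ge 0 y := by
  by_cases hy : y = 0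
  · exact Or.inl hy
  have h1 : D.ge 0 (y ^ 2) := by
    rw [h]
    exact D.ge_add (D.ge_pow hx 6) D.ge_one
  have h2 := D.le_of_ge (pow_ne_zero 2 hy) h1
  rw [D.pow hy 2] at h2
  push_cast at h2
  exact Or.inr (by omega)

private theorem iB_supp (D : DV k L) [CharZero k] {p q : BPt L} (hpq : p ≠ q)
    (h : D.iB p q ≠ 0) :
    (p.x - q.x ≠ 0 ∧ D.v (p.x - q.x) ≠ 0) ∨ (p.x ≠ 0 ∧ D.v p.x ≠ 0) ∨ (q.x ≠ 0 ∧ D.v q.x ≠ 0) ∨
      (p.y ≠ 0 ∧ D.v p.y ≠ 0) := by
  have h2L : (2 : L) ≠ 0 := by
    have h0 : algebraMap k L 2 ≠ 0 := (map_ne_zero _).2 two_ne_zero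
    rwa [map_ofNat] at h0
  by_cases hp : p.IsFin D
  · by_cases hq : q.IsFin D
    · -- both finite
      cases p with
      | inf e he => exact absurd hp (by simp [BPt.IsFin])
      | aff x y hxy =>
      cases q with
      | inf e he => exact absurd hq (by simp [BPt.IsFin])
      | aff x' y' hxy' =>
      have hgx : D.ge 0 x := hp
      have hgx' : D.ge 0 x' := hq
      have hgy := ge_y_aux D hxy hgx
      have hgy' := ge_y_aux D hxy' hgx'
      unfold DV.iB at h
      rw [if_pos ⟨hp, hq⟩] at h
      simp only [BPt.x, BPt.y] at h ⊢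
      by_cases hx : x - x' = 0
      · have hxx : x = x' := sub_eq_zero.1 hx
        subst hxx
        have hyy : y ^ 2 = y' ^ 2 := by rw [hxy, hxy']
        rcases sq_eq_sq_iff_eq_or_eq_neg.1 hyy with h1 | h1
        · exact absurd (by subst h1; rfl) hpq
        · have hy0 : y ≠ 0 := by
            intro h0
            apply hpq
            have : y' = 0 := by rw [h0] at h1; simpa using h1.symm
            subst h0; subst this; rfl
          rw [hx, DV.dmin_zero_left] at h
          have h3 : y - y' = 2 * y := by rw [h1]; ring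
          rw [h3, D.mul h2L hy0, D.ofNat, zero_add] at h
          exact Or.inr (Or.inr (Or.inr ⟨hy0, h⟩))
      · by_cases hv : D.v (x - x') = 0
        · exfalso
          apply h
          have h4 : D.ge 0 (y - y') := D.ge_sub hgy hgy'
          rw [D.dmin_eq_left hx (by rw [hv]; exact h4), hv]
        · exact Or.inl ⟨hx, hv⟩
    · exfalso
      apply h
      unfold DV.iB
      rw [if_neg (fun hh => hq hh.2), if_neg (fun hh => hh.1 hp)]
  · by_cases hq : q.IsFin D
    · exfalso
      apply h
      unfold DV.iB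
      rw [if_neg (fun hh => hp hh.1), if_neg (fun hh => hh.2 hq)]
    · cases p with
      | aff x y hxy => exact Or.inr (Or.inl (not_ge_aux D hp))
      | inf e he =>
      cases q with
      | aff x' y' hxy' => exact Or.inr (Or.inr (Or.inl (not_ge_aux D hq)))
      | inf e' he' =>
      exfalso
      unfold DV.iB at h
      rw [if_neg (fun hh => hp hh.1), if_pos ⟨hp, hq⟩] at h
      simp only [BPt.xh, BPt.yh, sub_zero, DV.dmin_zero_left] at h
      apply h
      have hee : e ^ 2 = e' ^ 2 := by rw [he, he']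
      rcases sq_eq_sq_iff_eq_or_eq_neg.1 hee with h1 | h1
      · exact absurd (by subst h1; rfl) hpq
      · have h3 : e - e' = 2 * e := by rw [h1]; ring
        have he0 : e ≠ 0 := by intro h0; rw [h0] at he; simp at he
        have hve : D.v e = 0 := by
          have := D.pow he0 2
          rw [he, D.one] at this
          push_cast at this
          omega
        rw [h3, D.mul h2L he0, D.ofNat, hve, zero_add]

theorem gam_apply (hA : AFacts S) [CharZero k] [IsAlgClosed k] {p q : BPt L} (hp : S.Mor p)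
    (hq : S.Mor q) (hpq : p ≠ q) (C : S.PD) : S.gam p q C = C.dv.iB p q := by
  have hfin : (Function.support fun C : S.PD => C.dv.iB p q).Finite := by
    refine ((fin_aux hA (p.x - q.x)).union ((fin_aux hA p.x).union ((fin_aux hA q.x).union
      (fin_aux hA p.y)))).subset ?_
    intro C hC
    exact iB_supp C.dv hpq hC
  unfold gam mkDiv
  rw [dif_pos hfin]
  rfl

theorem isEq_gam (hA : AFacts S) [CharZero k] [IsAlgClosed k] {P : S.Pt} {p q : BPt L}
    (hp : S.Mor p) (hq : S.Mor q) (hpq : p ≠ q) {f : L} (h : LE P p q f) :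
    S.IsEq (S.gam p q) P f :=
  ⟨h.ne_zero hA hpq, fun C hC => by
    rw [gam_apply hA hp hq hpq, iB_eq_of_LE hA hC hp hq hpq h]⟩

theorem gam_nonneg (hA : AFacts S) [CharZero k] [IsAlgClosed k] {p q : BPt L} (hp : S.Mor p)
    (hq : S.Mor q) (hpq : p ≠ q) (C : S.PD) : 0 ≤ S.gam p q C := by
  obtain ⟨P, hP⟩ := hA.exPt C
  obtain ⟨f, hf⟩ := exists_LE P p q
  rw [gam_apply hA hp hq hpq, iB_eq_of_LE hA hP hp hq hpq hf]
  exact (hA.mem_iff C f (hf.ne_zero hA hpq)).1 (hP (hf.mem hA))

end Surf

end HB
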