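import Pool.Agent.HB.F.Defs
import Pool.Agent.HB.A.DegB
import Pool.Agent.HB.A.FacB
import Pool.Agent.HB.A.Places
import Pool.Agent.HB.A.CurveC
import Pool.Agent.HB.Pl.KapB

/-!
# HB-F-AF: part A gives `AFacts`

PLAN: fields of `AFacts` (`HB/F/Defs.lean`) from part A (`HB/A/*.lean`, all proved; grep there):
`algMem`, `algMemP`: `PD.const_mem`/`PD.algebraMap_mem`, `Pt.algebraMap_mem`; `value`: `Pt.res`
(or the like; residue field of a closed point is `k`); `exPt`: `PD.exists_point`; `ord_mul`: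
`PD.ord_mul`; `ord_add`: `PD.ord_add`; `mem_iff`: `PD.mem_iff`; `finite`: `finite_ord_ne_zero`;
`regular`: `Pt.mem_iff`; `exEq`: `exists_isEq`; `loc_mul`: `ordS_loc_mul`; `loc_nonneg`, `loc_pos`:
`ordS_nonneg`, `ordS_pos_iff` for the one-dimensional noetherian local ring `C.loc P`
(`PD.loc_local`, `loc_noeth`, `loc_dim`, `loc_frac`, `loc_not_field`); `exInt`: `exists_isInt`;
`exInt0`: `exists_isInt_of_coeff` and `exists_isEq`; `inter_eq`, `inter_add`, `inter_princ` =
`inter_isDiv`, `inter_symm` = `inter_comm`, `deg_mk`.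
* `nonconst`: `w`, `w s`, `w t` have the constants `a, b, c` as values on `C`.  Let
  `l ∈ {1, s, t}` with `S.chart l ≤ C.1` (`PD.exists_chart`).  If `(a, b, c) ≠ 0` then, for `m` the
  corresponding element of `{1, s, t}`, `w m` is a unit of `O_C`, so `1/m = w/(w m)`, `s/m`, `t/m` are
  in `O_C` with constant values.  The chart of `m` is contained in `O_C` (integral closure of
  `k[V/m]` and `O_C` is integrally closed; there is a lemma `chart_le` or the like), and by
  `PD.transcendental` (`HB/A`, used in `Pl/KapB.lean`: a curve is not contracted by the finite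
  map to the plane) one of the coordinates `n / m` is transcendental over `k` in `C.kap`:
  contradiction.
* `proper`: `f ∈ O_C` for all `C` implies `f ∈ O_P` for all closed points `P` (`Pt.mem_iff`).
  If `f` is transcendental over `k`: for all constants `c` the function `f - c` is nonzero; choose
  a curve `C` (any) and `P` on `C` (`exists_point`) ... simplest: `f` is in every chart ring
  `S.chart 1`, `S.chart s`, `S.chart t`; the value `c` of `f` at a point `P` of a curve `C`; if
  `f ≠ c` then `f - c` vanishes at `P`, so `ord_{C'} (f - c) > 0` for some `C'` through `P`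
  (otherwise `(f - c)⁻¹ ∈ O_P`); the effective divisor `div (f - c)` is then nonzero and principal:
  contradiction to `degH_isDiv` and `degH_pos`.
-/

set_option autoImplicit false

open IsLocalRing

namespace HB

variable {k L : Type} [Field k] [Field L] [Algebra k L]

namespace Surf

variable {S : Surf k L}

private theorem van_res (C : S.PD) {x : L} {c : k} (h : Van C.1 (x - algebraMap k L c)) :
    x ∈ C.1.toSubring ∧ C.res x = algebraMap k C.kap c := by
  obtain ⟨h1, h2⟩ := h
  have hx : x ∈ C.1.toSubring := by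
    have h3 := C.1.toSubring.add_mem h1 (C.algebraMap_mem c)
    rwa [sub_add_cancel] at h3
  refine ⟨hx, ?_⟩
  have h3 : C.res (x - algebraMap k L c) = 0 := by
    rw [C.res_of_mem h1, residue_eq_zero_iff]
    exact h2
  rw [C.res_sub hx (C.algebraMap_mem c), C.res_algebraMap, sub_eq_zero] at h3
  exact h3

/-- The functions with a constant value on `C`. -/
private noncomputable def cst (C : S.PD) : Subring L where
  carrier := {x | x ∈ C.1.toSubring ∧ ∃ c : k, C.res x = algebraMap k C.kap c}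
  mul_mem' := by
    rintro x y ⟨hx, a, ha⟩ ⟨hy, b, hb⟩
    exact ⟨C.1.toSubring.mul_mem hx hy, a * b, by rw [C.res_mul hx hy, ha, hb, map_mul]⟩
  one_mem' := ⟨C.1.toSubring.one_mem, 1, by rw [C.res_one, map_one]⟩
  add_mem' := by
    rintro x y ⟨hx, a, ha⟩ ⟨hy, b, hb⟩
    exact ⟨C.1.toSubring.add_mem hx hy, a + b, by rw [C.res_add hx hy, ha, hb, map_add]⟩
  zero_mem' := ⟨C.1.toSubring.zero_mem, 0, by
    rw [C.res_of_mem C.1.toSubring.zero_mem, map_zero]
    exact map_zero (residue C.1.toSubring)⟩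
  neg_mem' := by
    rintro x ⟨hx, a, ha⟩
    refine ⟨C.1.toSubring.neg_mem hx, -a, ?_⟩
    have h1 : -x = 0 - x := by ring
    rw [h1, C.res_sub C.1.toSubring.zero_mem hx, ha, C.res_of_mem C.1.toSubring.zero_mem, map_neg]
    have h2 : residue C.1.toSubring ⟨0, C.1.toSubring.zero_mem⟩ = 0 :=
      map_zero (residue C.1.toSubring)
    rw [h2, zero_sub]

private theorem const_mem_cst (C : S.PD) (c : k) : algebraMap k L c ∈ cst C :=
  ⟨C.algebraMap_mem c, c, C.res_algebraMap c⟩

private theorem isIntegral_res (C : S.PD) {m : L} (hchart : S.chart m ≤ C.1.toSubring)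
    (hbase : S.base m ≤ cst C) {a : L} (ha : a ∈ S.chart m) : IsIntegral k (C.res a) := by
  obtain ⟨p, hp, hpa⟩ := S.mem_chart.1 ha
  have hB : S.base m ≤ C.1.toSubring := (S.base_le_chart m).trans hchart
  let ι : S.base m →+* C.1.toSubring := Subring.inclusion hB
  let φ : C.1.toSubring →+* C.kap := residue C.1.toSubring
  have h1 : Polynomial.eval₂ ι ⟨a, hchart ha⟩ p = 0 := by
    apply Subtype.val_injective
    have h2 := Polynomial.hom_eval₂ p ι C.1.toSubring.subtype ⟨a, hchart ha⟩
    exact h2.trans hpa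
  have h3 : Polynomial.eval₂ (φ.comp ι) (φ ⟨a, hchart ha⟩) p = 0 := by
    rw [← Polynomial.hom_eval₂, h1, map_zero]
  have h4 : p.map (φ.comp ι) ∈ Polynomial.lifts (algebraMap k C.kap) := by
    rw [Polynomial.lifts_iff_coeff_lifts]
    intro n
    rw [Polynomial.coeff_map]
    obtain ⟨hx, c, hc⟩ := hbase (p.coeff n).2
    refine ⟨c, ?_⟩
    rw [← hc, C.res_of_mem hx]
    rfl
  obtain ⟨q, hq, -, hqm⟩ := Polynomial.lifts_and_natDegree_eq_and_monic h4 (hp.map _)
  rw [C.res_of_mem (hchart ha)]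
  refine ⟨q, hqm, ?_⟩
  rw [Polynomial.eval₂_eq_eval_map, hq, ← Polynomial.eval₂_eq_eval_map]
  exact h3

private theorem false_of_const [CharZero k] [IsAlgClosed k] (C : S.PD) {m : L} (hm : m ∈ S.V)
    (h0 : m ≠ 0) (h : ∀ n ∈ S.V, n / m ∈ cst C) : False := by
  have hbase : S.base m ≤ cst C := S.base_le _ (const_mem_cst C) h
  have hchart : S.chart m ≤ C.1.toSubring :=
    S.chart_le C.1.toSubring C.algebraMap_mem (fun x hx => C.int hx) (fun n hn => (h n hn).1)
  obtain ⟨x, hx⟩ := C.transcendental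
  apply hx
  obtain ⟨p, hp, -, e⟩ := C.ofPrime_of_chart hm h0 hchart
  obtain ⟨y, rfl⟩ := residue_surjective x
  have hy : (y : L) ∈ (LocalSubring.ofPrime (S.chart m) p).toSubring := by
    rw [← e]
    exact y.2
  rw [mem_ofPrime] at hy
  obtain ⟨a, b, hb, hab⟩ := hy
  have hb' : (b : L)⁻¹ ∈ C.1.toSubring := by
    rw [e]
    exact inv_mem_ofPrime_of_notMem _ _ hb
  have h1 : C.res (y : L) = C.res (a : L) * (C.res (b : L))⁻¹ := by
    rw [hab, div_eq_mul_inv, C.res_mul (hchart a.2) hb', C.res_inv (hchart b.2) hb']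
  have h2 : residue C.1.toSubring y = C.res (y : L) := (C.res_of_mem y.2).symm
  rw [h2, h1]
  exact (isIntegral_res C hchart hbase a.2).isAlgebraic.mul
    (isIntegral_res C hchart hbase b.2).isAlgebraic.inv

private theorem nonconst_gen [CharZero k] [IsAlgClosed k] (C : S.PD) (w m : L) (hm : m ∈ S.V)
    (h : ∀ n ∈ S.V, w * n ∈ cst C) (u : k) (hu : C.res (w * m) = algebraMap k C.kap u) :
    u = 0 := by
  by_contra hu0
  have h1 : C.res (w * m) ≠ 0 := by
    rw [hu]
    exact (map_ne_zero _).2 hu0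
  have hwm := (h m hm).1
  have h2 : w * m ≠ 0 := by
    intro h3
    apply h1
    rw [h3, C.res_of_mem C.1.toSubring.zero_mem]
    exact map_zero (residue C.1.toSubring)
  have hm0 : m ≠ 0 := (mul_ne_zero_iff.1 h2).2
  have hw0 : w ≠ 0 := (mul_ne_zero_iff.1 h2).1
  have hinv : (w * m)⁻¹ ∈ C.1.toSubring := by
    have h3 : residue C.1.toSubring ⟨w * m, hwm⟩ ≠ 0 := by
      rw [← C.res_of_mem hwm]
      exact h1
    have h4 : IsUnit (⟨w * m, hwm⟩ : C.1.toSubring) := by
      by_contra h5
      exact h3 ((residue_eq_zero_iff _).2 ((mem_maximalIdeal _).2 h5))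
    obtain ⟨z, hz⟩ := h4.exists_right_inv
    have h5 : (w * m) * (z : L) = 1 := congrArg Subtype.val hz
    rw [inv_eq_of_mul_eq_one_right h5]
    exact z.2
  have hinv' : (w * m)⁻¹ ∈ cst C :=
    ⟨hinv, u⁻¹, by rw [C.res_inv hwm hinv, hu, map_inv₀]⟩
  refine false_of_const C hm hm0 fun n hn => ?_
  have h6 : n / m = (w * n) * (w * m)⁻¹ := by
    field_simp
  rw [h6]
  exact (cst C).mul_mem (h n hn) hinv'

theorem nonconst_aux [CharZero k] [IsAlgClosed k] (C : S.PD) (w : L) (a b c : k)
    (h1 : Van C.1 (w - algebraMap k L a)) (h2 : Van C.1 (w * S.s - algebraMap k L b))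
    (h3 : Van C.1 (w * S.t - algebraMap k L c)) : a = 0 ∧ b = 0 ∧ c = 0 := by
  obtain ⟨m1, r1⟩ := van_res C h1
  obtain ⟨m2, r2⟩ := van_res C h2
  obtain ⟨m3, r3⟩ := van_res C h3
  have key : ∀ n ∈ S.V, w * n ∈ cst C := by
    intro n hn
    obtain ⟨α, β, γ, rfl⟩ := S.mem_V.1 hn
    have e1 : w * (α • (1 : L) + β • S.s + γ • S.t) =
        algebraMap k L α * w + algebraMap k L β * (w * S.s) + algebraMap k L γ * (w * S.t) := by
      simp only [Algebra.smul_def]
      ring
    rw [e1]
    exact (cst C).add_mem ((cst C).add_mem ((cst C).mul_mem (const_mem_cst C α) ⟨m1, a, r1⟩)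
      ((cst C).mul_mem (const_mem_cst C β) ⟨m2, b, r2⟩))
      ((cst C).mul_mem (const_mem_cst C γ) ⟨m3, c, r3⟩)
  refine ⟨nonconst_gen C w 1 S.one_mem_V key a ?_, nonconst_gen C w S.s S.s_mem_V key b r2,
    nonconst_gen C w S.t S.t_mem_V key c r3⟩
  rw [mul_one]
  exact r1

theorem proper_aux (hS : S.Smooth) [CharZero k] [IsAlgClosed k] (f : L)
    (h : ∀ C : S.PD, f ∈ C.1.toSubring) : ∃ c : k, f = algebraMap k L c := by
  obtain ⟨M, hM⟩ := Ideal.exists_maximal (S.chart (1 : L))
  have hMp : M.IsPrime := hM.isPrime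
  obtain ⟨P⟩ : Nonempty S.Pt :=
    ⟨⟨LocalSubring.ofPrime (S.chart 1) M, 1, S.one_mem_V, one_ne_zero, M, hMp, hM, rfl⟩⟩
  have hfP : f ∈ P.1.toSubring := by
    by_cases hf : f = 0
    · rw [hf]
      exact P.1.toSubring.zero_mem
    · rw [Pt.mem_iff hS P hf]
      intro C _
      exact (mem_iff_ordS C.1.toSubring hf).1 (h C)
  obtain ⟨c, hc⟩ := P.res ⟨f, hfP⟩
  refine ⟨c, ?_⟩
  by_contra hne
  have hg0 : f - algebraMap k L c ≠ 0 := sub_ne_zero.2 hne
  have hgC : ∀ C : S.PD, f - algebraMap k L c ∈ C.1.toSubring := fun C =>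
    C.1.toSubring.sub_mem (h C) (C.algebraMap_mem c)
  obtain ⟨D, hD⟩ := exists_isDiv (S := S) hg0
  have hD0 : 0 ≤ D := by
    intro C
    rw [hD.2 C]
    exact (mem_iff_ordS C.1.toSubring hg0).1 (hgC C)
  have hDne : D ≠ 0 := by
    intro hD1
    have h1 := (Pt.unit_iff hS P hg0).2 fun C _ => by
      rw [← hD.2 C, hD1]
      rfl
    have h2 : IsUnit (⟨f, hfP⟩ - algebraMap k P.1.toSubring c) :=
      IsUnit.of_mul_eq_one (⟨(f - algebraMap k L c)⁻¹, h1.2⟩ : P.1.toSubring)
        (Subtype.ext (mul_inv_cancel₀ hg0))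
    exact ((mem_maximalIdeal _).1 hc) h2
  have h1 := degH_pos hS hD0 hDne
  rw [degH_isDiv hS hD] at h1
  exact lt_irrefl _ h1

theorem afacts (hS : S.Smooth) [CharZero k] [IsAlgClosed k] : AFacts S where
  algMem := fun C c => C.algebraMap_mem c
  algMemP := fun P c => P.algebraMap_mem c
  value := fun P f hf => by
    obtain ⟨c, hc⟩ := P.res ⟨f, hf⟩
    exact ⟨c, P.1.toSubring.sub_mem hf (P.algebraMap_mem c), hc⟩
  exPt := fun C => C.exists_point
  ord_mul := fun C f g hf hg => ordS_mul C.1.toSubring hf hg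
  ord_add := fun C f g hf hg hfg => ordS_add C.1.toSubring hf hg hfg
  mem_iff := fun C f hf => mem_iff_ordS C.1.toSubring hf
  finite := fun f hf => finite_ord_ne_zero hf
  regular := fun P f hf h => (Pt.mem_iff hS P hf).2 h
  exEq := fun D P => exists_isEq hS D P
  loc_mul := fun C P h f g hf hg => C.ordS_loc_mul P h hf hg
  loc_nonneg := fun C P h f _ hf => by
    have := C.loc_noeth P h
    have := C.loc_dim P h
    exact ordS_nonneg (C.loc P) hf
  loc_pos := fun C P h f hf0 hf hfi => by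
    have h1 := C.loc_noeth P h
    have h2 := C.loc_dim P h
    have h3 := C.loc_frac P h
    have h4 := C.loc_local P h
    rw [ordS_pos_iff (C.loc P) hf hf0, mem_maximalIdeal, mem_nonunits_iff]
    intro hu
    obtain ⟨z, hz⟩ := hu.exists_right_inv
    have h5 : f * (z : C.kap) = 1 := congrArg Subtype.val hz
    apply hfi
    rw [inv_eq_of_mul_eq_one_right h5]
    exact z.2
  nonconst := fun C w a b c h1 h2 h3 => nonconst_aux C w a b c h1 h2 h3
  proper := fun f h => proper_aux hS f h
  exInt := fun D C => exists_isInt hS D C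
  exInt0 := fun D C h => by
    obtain ⟨z, -, h1, h2⟩ := exists_isInt_of_coeff hS D C h
    refine ⟨z, fun P hP => ?_, h1⟩
    obtain ⟨f, hf⟩ := exists_isEq hS D P
    exact ⟨f, hf, h2 P hP f hf⟩
  inter_eq := fun D C z h => inter_eq hS h
  inter_add := fun D D' C => inter_add hS D D' C
  inter_princ := fun f D C h => inter_isDiv hS h C
  inter_symm := fun C C' => inter_comm hS C C'
  deg_mk := fun z => deg_mk hS z

end Surf

end HB
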