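import Pool.Agent.HB.F.Defs

/-!
# Project HB, part F: API for `Van` (maximal ideals of local subrings) and for orders
-/

set_option autoImplicit false

open IsLocalRing

namespace HB

variable {k L : Type} [Field k] [Field L] [Algebra k L]

section van

variable {R : LocalSubring L} {f g a b : L}

theorem Van.mem (h : Van R f) : f ∈ R.toSubring := h.choose

theorem van_zero (R : LocalSubring L) : Van R (0 : L) :=
  ⟨R.toSubring.zero_mem, by
    have : (⟨(0 : L), R.toSubring.zero_mem⟩ : R.toSubring) = 0 := rfl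
    rw [this]; exact Ideal.zero_mem _⟩

theorem Van.add (hf : Van R f) (hg : Van R g) : Van R (f + g) := by
  obtain ⟨h1, h2⟩ := hf
  obtain ⟨h3, h4⟩ := hg
  exact ⟨R.toSubring.add_mem h1 h3, by simpa using Ideal.add_mem _ h2 h4⟩

theorem Van.mul_left (ha : a ∈ R.toSubring) (hf : Van R f) : Van R (a * f) := by
  obtain ⟨h1, h2⟩ := hf
  exact ⟨R.toSubring.mul_mem ha h1, by simpa using Ideal.mul_mem_left _ ⟨a, ha⟩ h2⟩

theorem Van.mul_right (ha : a ∈ R.toSubring) (hf : Van R f) : Van R (f * a) := by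
  rw [mul_comm]; exact hf.mul_left ha

theorem Van.neg (hf : Van R f) : Van R (-f) := by
  have := hf.mul_left (R.toSubring.neg_mem R.toSubring.one_mem)
  simpa using this

theorem Van.sub (hf : Van R f) (hg : Van R g) : Van R (f - g) := by
  rw [sub_eq_add_neg]; exact hf.add hg.neg

theorem not_van_one (R : LocalSubring L) : ¬ Van R (1 : L) := by
  rintro ⟨h1, h2⟩
  have : (⟨(1 : L), h1⟩ : R.toSubring) = 1 := rfl
  rw [this] at h2
  exact (Ideal.ne_top_iff_one _).1 (maximalIdeal.isMaximal R.toSubring).ne_top h2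

theorem van_or_inv_mem (hf : f ∈ R.toSubring) : Van R f ∨ f⁻¹ ∈ R.toSubring := by
  by_cases h : (⟨f, hf⟩ : R.toSubring) ∈ maximalIdeal R.toSubring
  · exact Or.inl ⟨hf, h⟩
  · right
    rw [mem_maximalIdeal, mem_nonunits_iff, not_not] at h
    obtain ⟨u, hu⟩ := h
    have h1 : (f : L) * ((↑(u⁻¹) : R.toSubring) : L) = 1 := by
      have h2 : (u : R.toSubring) * (↑(u⁻¹) : R.toSubring) = 1 := u.mul_inv
      have h3 := congrArg (Subtype.val) h2
      rw [hu] at h3
      simpa using h3
    rw [show f⁻¹ = ((↑(u⁻¹) : R.toSubring) : L) from inv_eq_of_mul_eq_one_right h1]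
    exact (↑(u⁻¹) : R.toSubring).2

theorem Van.inv_not_mem (hf : Van R f) (h0 : f ≠ 0) : f⁻¹ ∉ R.toSubring := by
  intro h
  have := hf.mul_left h
  rw [inv_mul_cancel₀ h0] at this
  exact not_van_one R this

theorem inv_mem_iff (hf : f ∈ R.toSubring) (h0 : f ≠ 0) : f⁻¹ ∈ R.toSubring ↔ ¬ Van R f :=
  ⟨fun h h' => h'.inv_not_mem h0 h, fun h => (van_or_inv_mem hf).resolve_left h⟩

theorem van_of_mul (ha : a ∈ R.toSubring) (hb : b ∈ R.toSubring) (h : Van R (a * b)) :
    Van R a ∨ Van R b := by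
  by_contra hh
  push Not at hh
  by_cases h0 : a * b = 0
  · rcases mul_eq_zero.1 h0 with h1 | h1
    · exact hh.1 (h1 ▸ van_zero R)
    · exact hh.2 (h1 ▸ van_zero R)
  have h1 := (van_or_inv_mem ha).resolve_left hh.1
  have h2 := (van_or_inv_mem hb).resolve_left hh.2
  apply h.inv_not_mem h0
  rw [mul_inv]
  exact R.toSubring.mul_mem h1 h2

theorem van_of_pow {n : ℕ} (ha : a ∈ R.toSubring) (h : Van R (a ^ n)) : Van R a := by
  induction n with
  | zero => rw [pow_zero] at h; exact absurd h (not_van_one R)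
  | succ n ih =>
    rw [pow_succ] at h
    rcases van_of_mul (R.toSubring.pow_mem ha n) ha h with h1 | h1
    · exact ih h1
    · exact h1

theorem Van.pow {n : ℕ} (hn : n ≠ 0) (h : Van R a) : Van R (a ^ n) := by
  obtain ⟨m, rfl⟩ := Nat.exists_eq_succ_of_ne_zero hn
  rw [pow_succ]
  exact h.mul_left (R.toSubring.pow_mem h.mem m)

/-- a sum of a unit and a non-unit is not in the maximal ideal -/
theorem not_van_of_sub (h : Van R (f - g)) (hf : ¬ Van R f) : ¬ Van R g := fun hg => hf (by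
  have := h.add hg
  simpa using this)

theorem van_iff_of_sub (h : Van R (f - g)) : Van R f ↔ Van R g :=
  ⟨fun hf => by have := hf.sub h; simpa using this, fun hg => by have := h.add hg; simpa using this⟩

end van

namespace Surf

variable {S : Surf k L}

theorem Van.ofOn {P : S.Pt} {C : S.PD} (hPC : On P C) {f : L} (h : Van C.1 f)
    (hf : f ∈ P.1.toSubring) : Van P.1 f := by
  by_cases h0 : f = 0
  · rw [h0]; exact van_zero _
  rcases van_or_inv_mem hf with h1 | h1
  · exact h1
  · exact absurd (hPC h1) (h.inv_not_mem h0)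

namespace AFacts

variable (hA : AFacts S) (C : S.PD) {f g : L}

include hA

theorem ord_one : C.ord 1 = 0 := by
  have := hA.ord_mul C 1 1 one_ne_zero one_ne_zero
  rw [mul_one] at this
  linarith

theorem ord_inv (hf : f ≠ 0) : C.ord f⁻¹ = - C.ord f := by
  have := hA.ord_mul C f f⁻¹ hf (inv_ne_zero hf)
  rw [mul_inv_cancel₀ hf, hA.ord_one C] at this
  linarith

theorem ord_div (hf : f ≠ 0) (hg : g ≠ 0) : C.ord (f / g) = C.ord f - C.ord g := by
  rw [div_eq_mul_inv, hA.ord_mul C _ _ hf (inv_ne_zero hg), hA.ord_inv C hg]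
  ring

theorem ord_neg_one : C.ord (-1 : L) = 0 := by
  have := hA.ord_mul C (-1) (-1) (by simp) (by simp)
  rw [neg_mul_neg, mul_one, hA.ord_one C] at this
  linarith

theorem ord_neg (f : L) : C.ord (-f) = C.ord f := by
  by_cases hf : f = 0
  · rw [hf, neg_zero]
  · rw [← neg_one_mul, hA.ord_mul C _ _ (by simp) hf, hA.ord_neg_one C, zero_add]

theorem ord_pow (hf : f ≠ 0) (n : ℕ) : C.ord (f ^ n) = n * C.ord f := by
  induction n with
  | zero => simp [hA.ord_one C]
  | succ n ih =>
    rw [pow_succ, hA.ord_mul C _ _ (pow_ne_zero _ hf) hf, ih]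
    push_cast; ring

theorem ord_algebraMap {c : k} (hc : c ≠ 0) : C.ord (algebraMap k L c) = 0 := by
  have h1 : algebraMap k L c ≠ 0 := by simpa using hc
  have h2 := (hA.mem_iff C _ h1).1 (hA.algMem C c)
  have h3 : algebraMap k L c⁻¹ ≠ 0 := by simpa using hc
  have h4 := (hA.mem_iff C _ h3).1 (hA.algMem C c⁻¹)
  rw [map_inv₀, hA.ord_inv C h1] at h4
  omega

theorem van_iff (hf : f ≠ 0) : Van C.1 f ↔ 0 < C.ord f := by
  constructor
  · intro h
    have h1 := (hA.mem_iff C f hf).1 h.mem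
    have h2 := h.inv_not_mem hf
    rw [hA.mem_iff C _ (inv_ne_zero hf), hA.ord_inv C hf] at h2
    omega
  · intro h
    have h1 : f ∈ C.1.toSubring := (hA.mem_iff C f hf).2 h.le
    rcases van_or_inv_mem h1 with h2 | h2
    · exact h2
    · rw [hA.mem_iff C _ (inv_ne_zero hf), hA.ord_inv C hf] at h2
      omega

theorem ord_eq_zero_of_unit {P : S.Pt} (hP : On P C) (hf : f ∈ P.1.toSubring)
    (hf' : f⁻¹ ∈ P.1.toSubring) (h0 : f ≠ 0) : C.ord f = 0 := by
  have h1 := (hA.mem_iff C f h0).1 (hP hf)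
  have h2 := (hA.mem_iff C _ (inv_ne_zero h0)).1 (hP hf')
  rw [hA.ord_inv C h0] at h2
  omega

theorem not_mem_iff (hf : f ≠ 0) : f ∉ C.1.toSubring ↔ C.ord f < 0 := by
  rw [hA.mem_iff C f hf]; omega

omit C in
/-- constants are units at closed points -/
theorem algebraMap_van (P : S.Pt) {c : k} : Van P.1 (algebraMap k L c) ↔ c = 0 := by
  constructor
  · intro h
    by_contra hc
    have h1 : algebraMap k L c ≠ 0 := by simpa using hc
    apply h.inv_not_mem h1
    rw [← map_inv₀]
    exact hA.algMemP P c⁻¹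
  · rintro rfl
    rw [map_zero]; exact van_zero _

theorem algebraMap_vanC {c : k} : Van C.1 (algebraMap k L c) ↔ c = 0 := by
  constructor
  · intro h
    by_contra hc
    have h1 : algebraMap k L c ≠ 0 := by simpa using hc
    apply h.inv_not_mem h1
    rw [← map_inv₀]
    exact hA.algMem C c⁻¹
  · rintro rfl
    rw [map_zero]; exact van_zero _

/-- nonnegative order -/
theorem ge_zero_iff [CharZero k] [IsAlgClosed k] (f : L) : C.dv.ge 0 f ↔ f ∈ C.1.toSubring :=
  C.dv_ge_zero f

theorem ge_of_mem [CharZero k] [IsAlgClosed k] {P : S.Pt} (hP : On P C)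
    (hf : f ∈ P.1.toSubring) : C.dv.ge 0 f := (C.dv_ge_zero f).2 (hP hf)

theorem van_iff_ge [CharZero k] [IsAlgClosed k] (f : L) : Van C.1 f ↔ C.dv.ge 1 f := by
  by_cases hf : f = 0
  · rw [hf]; exact ⟨fun _ => Or.inl rfl, fun _ => van_zero _⟩
  rw [hA.van_iff C hf]
  exact ⟨fun h => Or.inr h, fun h => h.resolve_left hf⟩

end AFacts

end Surf

end HB
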