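import Mathlib

/-!
HB part F (Chern computation), abstract algebra.

`V` = `Pic(X) ⊗ ℚ`, `A` = `CH_0(X) ⊗ ℚ`, `B` = intersection pairing.  The classes
`Fa`, `Ga` are the two fibres `{y_a = z_1}`, `{y_a = z_2}`, `Za = y_a^* zeta`,
`D12`, `D32` the coincidence curves, `W` the common twist.
-/

namespace HB

open scoped BigOperators

variable {V A : Type*} [AddCommGroup V] [Module ℚ V] [AddCommGroup A] [Module ℚ A]

/-- `Δ(E) = 2 r c_2 - (r-1) c_1^2` of a rank 5 bundle with Chern roots `l 0, ..., l 4`. -/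
def disc5 (B : V →ₗ[ℚ] V →ₗ[ℚ] A) (l : Fin 5 → V) : A :=
  (10 : ℚ) • (∑ i, ∑ j, if i < j then B (l i) (l j) else 0) - (4 : ℚ) • B (∑ i, l i) (∑ i, l i)

theorem disc5_eq (B : V →ₗ[ℚ] V →ₗ[ℚ] A) (hs : ∀ x y, B x y = B y x) (l : Fin 5 → V) :
    disc5 B l = B (∑ i, l i) (∑ i, l i) - (5 : ℚ) • ∑ i, B (l i) (l i) := by
  simp only [disc5, Fin.sum_univ_five, map_add, LinearMap.add_apply]
  have e : ∀ i j : Fin 5, B (l j) (l i) = B (l i) (l j) := fun i j => hs _ _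
  simp only [Fin.isValue, Fin.lt_def]
  norm_num
  rw [e 0 1, e 0 2, e 0 3, e 0 4, e 1 2, e 1 3, e 1 4, e 2 3, e 2 4, e 3 4]
  module

/-- The discriminant does not see a common twist. -/
theorem disc5_twist (B : V →ₗ[ℚ] V →ₗ[ℚ] A) (hs : ∀ x y, B x y = B y x) (l : Fin 5 → V) (t : V) :
    disc5 B (fun i => l i + t) = disc5 B l := by
  rw [disc5_eq B hs, disc5_eq B hs]
  have e : ∀ i : Fin 5, B t (l i) = B (l i) t := fun i => hs _ _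
  simp only [Fin.sum_univ_five, map_add, LinearMap.add_apply, e]
  module

theorem disc5_classes (B : V →ₗ[ℚ] V →ₗ[ℚ] A) (hs : ∀ x y, B x y = B y x)
    (Z1 Z2 Z3 F1 F2 F3 G1 G2 G3 D12 D32 W N1 N2 N3 M1 M2 : V)
    -- class relations
    (hN1 : (3 : ℚ) • N1 = (3 : ℚ) • Z1 + (F1 + G1) + (6 : ℚ) • D12 + W)
    (hN2 : (3 : ℚ) • N2 = (3 : ℚ) • Z2 + (F2 + G2) + (6 : ℚ) • (D12 + D32) + W)
    (hN3 : (3 : ℚ) • N3 = (3 : ℚ) • Z3 + (F3 + G3) + (6 : ℚ) • D32 + W)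
    (hM1 : (3 : ℚ) • M1 = (2 : ℚ) • (F1 + F2 + F3) + W)
    (hM2 : (3 : ℚ) • M2 = (2 : ℚ) • (G1 + G2 + G3) + W)
    -- fibres of the same map do not meet (y_3 = alpha y_1)
    (hF1 : B F1 F1 = 0) (hG1 : B G1 G1 = 0) (hF2 : B F2 F2 = 0) (hG2 : B G2 G2 = 0)
    (hF3 : B F3 F3 = 0) (hG3 : B G3 G3 = 0)
    (hFG1 : B F1 G1 = 0) (hFG2 : B F2 G2 = 0) (hFG3 : B F3 G3 = 0)
    (hF13 : B F1 F3 = 0) (hG13 : B G1 G3 = 0)
    (hZ1F : B Z1 F1 = 0) (hZ1G : B Z1 G1 = 0) (hZ2F : B Z2 F2 = 0) (hZ2G : B Z2 G2 = 0)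
    (hZ3F : B Z3 F3 = 0) (hZ3G : B Z3 G3 = 0)
    (hZ1 : B Z1 Z1 = 0) (hZ2 : B Z2 Z2 = 0) (hZ3 : B Z3 Z3 = 0) (hZ13 : B Z1 Z3 = 0)
    -- on the coincidence curves
    (h12 : B D12 D32 = 0)
    (hD12 : (3 : ℚ) • B D12 D12 = - B (F1 + G1) D12)
    (hD32 : (3 : ℚ) • B D32 D32 = - B (F3 + G3) D32)
    (hF12 : (3 : ℚ) • B F1 D12 = B F1 F2) (hG12 : (3 : ℚ) • B G1 D12 = B G1 G2)
    (hF21 : B F2 D12 = B F1 D12) (hG21 : B G2 D12 = B G1 D12)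
    (hF32 : (3 : ℚ) • B F3 D32 = B F3 F2) (hG32 : (3 : ℚ) • B G3 D32 = B G3 G2)
    (hF23 : B F2 D32 = B F3 D32) (hG23 : B G2 D32 = B G3 D32)
    (hZ12 : B Z2 D12 = B Z1 D12) (hZ32 : B Z2 D32 = B Z3 D32) :
    disc5 B ![M1 - (F1 + F2 + F3), M2 - (G1 + G2 + G3), N2 - (3 : ℚ) • D12 - (3 : ℚ) • D32,
      N1 - D12, N3 - D32] = (2 : ℚ) • (B Z1 Z2 + B Z3 Z2) := by
  have e1 : N1 = Z1 + (1/3 : ℚ) • (F1 + G1) + (2 : ℚ) • D12 + (1/3 : ℚ) • W := by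
    have : N1 = (1/3 : ℚ) • ((3 : ℚ) • N1) := by rw [smul_smul]; norm_num
    rw [this, hN1]; module
  have e2 : N2 = Z2 + (1/3 : ℚ) • (F2 + G2) + (2 : ℚ) • (D12 + D32) + (1/3 : ℚ) • W := by
    have : N2 = (1/3 : ℚ) • ((3 : ℚ) • N2) := by rw [smul_smul]; norm_num
    rw [this, hN2]; module
  have e3 : N3 = Z3 + (1/3 : ℚ) • (F3 + G3) + (2 : ℚ) • D32 + (1/3 : ℚ) • W := by
    have : N3 = (1/3 : ℚ) • ((3 : ℚ) • N3) := by rw [smul_smul]; norm_num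
    rw [this, hN3]; module
  have f1 : M1 = (2/3 : ℚ) • (F1 + F2 + F3) + (1/3 : ℚ) • W := by
    have : M1 = (1/3 : ℚ) • ((3 : ℚ) • M1) := by rw [smul_smul]; norm_num
    rw [this, hM1]; module
  have f2 : M2 = (2/3 : ℚ) • (G1 + G2 + G3) + (1/3 : ℚ) • W := by
    have : M2 = (1/3 : ℚ) • ((3 : ℚ) • M2) := by rw [smul_smul]; norm_num
    rw [this, hM2]; module
  have key : (![M1 - (F1 + F2 + F3), M2 - (G1 + G2 + G3), N2 - (3 : ℚ) • D12 - (3 : ℚ) • D32,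
      N1 - D12, N3 - D32] : Fin 5 → V) = fun i =>
      (![-(1/3 : ℚ) • (F1 + F2 + F3), -(1/3 : ℚ) • (G1 + G2 + G3),
        Z2 + (1/3 : ℚ) • (F2 + G2) - D12 - D32, Z1 + (1/3 : ℚ) • (F1 + G1) + D12,
        Z3 + (1/3 : ℚ) • (F3 + G3) + D32] : Fin 5 → V) i + (1/3 : ℚ) • W := by
    funext i
    fin_cases i
    · simp [f1]; module
    · simp [f2]; module
    · simp [e2]; module
    · simp [e1]; module
    · simp [e3]; module
  rw [key, disc5_twist B hs, disc5_eq B hs]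
  have hsum : (∑ i, (![-(1/3 : ℚ) • (F1 + F2 + F3), -(1/3 : ℚ) • (G1 + G2 + G3),
        Z2 + (1/3 : ℚ) • (F2 + G2) - D12 - D32, Z1 + (1/3 : ℚ) • (F1 + G1) + D12,
        Z3 + (1/3 : ℚ) • (F3 + G3) + D32] : Fin 5 → V) i) = Z1 + Z2 + Z3 := by
    simp [Fin.sum_univ_five]; module
  rw [hsum]
  have hh : B (Z1 + Z2 + Z3) (Z1 + Z2 + Z3) = (2 : ℚ) • (B Z1 Z2 + B Z3 Z2) := by
    simp only [map_add, LinearMap.add_apply, hs Z2 Z1, hs Z2 Z3, hs Z3 Z1, hZ1, hZ2, hZ3, hZ13]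
    module
  have i1 : B (-(1/3 : ℚ) • (F1 + F2 + F3)) (-(1/3 : ℚ) • (F1 + F2 + F3))
      = (2/9 : ℚ) • (B F1 F2 + B F3 F2) := by
    simp only [map_add, map_smul, LinearMap.add_apply, LinearMap.smul_apply, hs F2 F1, hs F2 F3,
      hs F3 F1, hF1, hF2, hF3, hF13]
    module
  have i2 : B (-(1/3 : ℚ) • (G1 + G2 + G3)) (-(1/3 : ℚ) • (G1 + G2 + G3))
      = (2/9 : ℚ) • (B G1 G2 + B G3 G2) := by
    simp only [map_add, map_smul, LinearMap.add_apply, LinearMap.smul_apply, hs G2 G1, hs G2 G3,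
      hs G3 G1, hG1, hG2, hG3, hG13]
    module
  have d12 : B D12 D12 = -(1/3 : ℚ) • (B F1 D12 + B G1 D12) := by
    have : B D12 D12 = (1/3 : ℚ) • ((3 : ℚ) • B D12 D12) := by rw [smul_smul]; norm_num
    rw [this, hD12, map_add, LinearMap.add_apply]; module
  have d32 : B D32 D32 = -(1/3 : ℚ) • (B F3 D32 + B G3 D32) := by
    have : B D32 D32 = (1/3 : ℚ) • ((3 : ℚ) • B D32 D32) := by rw [smul_smul]; norm_num
    rw [this, hD32, map_add, LinearMap.add_apply]; module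
  have i3 : B (Z1 + (1/3 : ℚ) • (F1 + G1) + D12) (Z1 + (1/3 : ℚ) • (F1 + G1) + D12)
      = (2 : ℚ) • B Z1 D12 + (1/3 : ℚ) • (B F1 D12 + B G1 D12) := by
    simp only [map_add, map_smul, LinearMap.add_apply, LinearMap.smul_apply, hs F1 Z1, hs G1 Z1,
      hs G1 F1, hs D12 Z1, hs D12 F1, hs D12 G1, d12, hF1, hG1, hFG1, hZ1, hZ1F, hZ1G]
    module
  have i4 : B (Z3 + (1/3 : ℚ) • (F3 + G3) + D32) (Z3 + (1/3 : ℚ) • (F3 + G3) + D32)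
      = (2 : ℚ) • B Z3 D32 + (1/3 : ℚ) • (B F3 D32 + B G3 D32) := by
    simp only [map_add, map_smul, LinearMap.add_apply, LinearMap.smul_apply, hs F3 Z3, hs G3 Z3,
      hs G3 F3, hs D32 Z3, hs D32 F3, hs D32 G3, d32, hF3, hG3, hFG3, hZ3, hZ3F, hZ3G]
    module
  have i5 : B (Z2 + (1/3 : ℚ) • (F2 + G2) - D12 - D32) (Z2 + (1/3 : ℚ) • (F2 + G2) - D12 - D32)
      = -(2 : ℚ) • (B Z1 D12 + B Z3 D32) - (B F1 D12 + B G1 D12) - (B F3 D32 + B G3 D32) := by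
    simp only [map_add, map_sub, map_smul, LinearMap.add_apply, LinearMap.sub_apply,
      LinearMap.smul_apply, hs F2 Z2, hs G2 Z2,
      hs G2 F2, hs D12 Z2, hs D12 F2, hs D12 G2, hs D32 Z2, hs D32 F2, hs D32 G2, hs D32 D12,
      d12, d32, hF2, hG2, hFG2, hZ2, hZ2F, hZ2G, h12, hF21, hG21, hF23, hG23, hZ12, hZ32]
    module
  have hF12' : B F1 D12 = (1/3 : ℚ) • B F1 F2 := by
    rw [← hF12, smul_smul]; norm_num
  have hG12' : B G1 D12 = (1/3 : ℚ) • B G1 G2 := by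
    rw [← hG12, smul_smul]; norm_num
  have hF32' : B F3 D32 = (1/3 : ℚ) • B F3 F2 := by
    rw [← hF32, smul_smul]; norm_num
  have hG32' : B G3 D32 = (1/3 : ℚ) • B G3 G2 := by
    rw [← hG32, smul_smul]; norm_num
  rw [hh, Fin.sum_univ_five]
  simp only [Matrix.cons_val_zero, Matrix.cons_val_one, Matrix.cons_val]
  rw [i1, i2, i3, i4, i5, hF12', hG12', hF32', hG32']
  module

end HB
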