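import Pool.Agent.HB.F.Lin
import Pool.Agent.HB.B.BB

/-!
# HB-F-Alp: the automorphism `α (x,y) = (ζ x, -y)` of `B` (no fixed points)

`BPt.alp z hz` in `HB/Curve.lean`, `DV.iB_alp`, `BPt.alp_coord` in `HB/B/BB.lean`.
-/

set_option autoImplicit false

open IsLocalRing

namespace HB

variable {k L : Type} [Field k] [Field L] [Algebra k L]

theorem alpz (L : Type) [Field L] [Algebra k L] {ζ : k} (hζ : ζ ^ 2 + ζ + 1 = 0) :
    (algebraMap k L ζ) ^ 2 + algebraMap k L ζ + 1 = 0 := by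
  rw [← map_pow, ← map_add, ← map_one (algebraMap k L), ← map_add, hζ, map_zero]

theorem alpz_cube {z : L} (hz : z ^ 2 + z + 1 = 0) : z ^ 3 = 1 := by
  linear_combination (z - 1) * hz

theorem alpz_ne {z : L} (hz : z ^ 2 + z + 1 = 0) : z ≠ 0 := by
  rintro rfl
  norm_num at hz

theorem alpz_inv {z : L} (hz : z ^ 2 + z + 1 = 0) : z⁻¹ = z ^ 2 := by
  have h := alpz_cube hz
  exact inv_eq_of_mul_eq_one_right (by linear_combination h)

namespace BPt

theorem map_alp {ζ : k} (hζ : ζ ^ 2 + ζ + 1 = 0) (b : BPt k) :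
    (b.alp ζ hζ).map L = (b.map L).alp (algebraMap k L ζ) (alpz L hζ) := by
  match b with
  | aff x y h => simp [alp, map]
  | inf e h => simp [alp, map]

/-- `α` has no fixed points -/
theorem alp_ne [CharZero k] {ζ : k} (hζ : ζ ^ 2 + ζ + 1 = 0) (b : BPt k) : b.alp ζ hζ ≠ b := by
  match b with
  | aff x y h =>
    intro hh
    simp only [alp, aff.injEq] at hh
    obtain ⟨h1, h2⟩ := hh
    have h3 : y = 0 := by
      have h4 : (2 : k) * y = 0 := by linear_combination -h2
      simpa using h4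
    have hx : x ≠ 0 := by
      rintro rfl
      rw [h3] at h
      norm_num at h
    have h5 : ζ = 1 := by
      have h6 : (ζ - 1) * x = 0 := by linear_combination h1
      rcases mul_eq_zero.1 h6 with h7 | h7
      · linear_combination h7
      · exact absurd h7 hx
    rw [h5] at hζ
    norm_num at hζ
  | inf e h =>
    intro hh
    simp only [alp, inf.injEq] at hh
    have h3 : e = 0 := by
      have h4 : (2 : k) * e = 0 := by linear_combination -hh
      simpa using h4
    rw [h3] at h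
    norm_num at h

theorem alp_inj {z : L} (hz : z ^ 2 + z + 1 = 0) {p q : BPt L} (h : p.alp z hz = q.alp z hz) :
    p = q := by
  match p, q with
  | aff x y h1, aff x' y' h2 =>
    simp only [alp, aff.injEq] at h
    obtain ⟨h3, h4⟩ := h
    have h5 : x = x' := mul_left_cancel₀ (alpz_ne hz) h3
    have h6 : y = y' := neg_injective h4
    subst h5; subst h6; rfl
  | aff x y h1, inf e h2 => simp [alp] at h
  | inf e h2, aff x y h1 => simp [alp] at h
  | inf e h1, inf e' h2 =>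
    simp only [alp, inf.injEq] at h
    have h5 : e = e' := neg_injective h
    subst h5; rfl

theorem alp_surj {z : L} (hz : z ^ 2 + z + 1 = 0) (p : BPt L) : ∃ q : BPt L, q.alp z hz = p := by
  have h3 := alpz_cube hz
  match p with
  | aff x y h =>
    refine ⟨aff (z ^ 2 * x) (-y) ?_, ?_⟩
    · linear_combination h - (x ^ 6 * (z ^ 9 + z ^ 6 + z ^ 3 + 1)) * h3
    · simp only [alp, aff.injEq]
      exact ⟨by linear_combination x * h3, by ring⟩
  | inf e h =>
    refine ⟨inf (-e) (by rw [neg_sq, h]), ?_⟩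
    simp [alp]

theorem alp_iot {z : L} (hz : z ^ 2 + z + 1 = 0) (p : BPt L) :
    (p.alp z hz).iot = p.iot.alp z hz := by
  match p with
  | aff x y h => rfl
  | inf e h => rfl

theorem alp_ip {ζ : k} (hζ : ζ ^ 2 + ζ + 1 = 0) : (ip k).alp ζ hζ = im k := rfl

theorem alp_im {ζ : k} (hζ : ζ ^ 2 + ζ + 1 = 0) : (im k).alp ζ hζ = ip k := by
  simp [ip, im, alp]

end BPt

theorem NCst.alp {ζ : k} (hζ : ζ ^ 2 + ζ + 1 = 0) {p : BPt L} (hp : NCst k p) :
    NCst k (p.alp (algebraMap k L ζ) (alpz L hζ)) := by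
  intro b hb
  obtain ⟨b', rfl⟩ := BPt.alp_surj hζ b
  rw [BPt.map_alp] at hb
  exact hp b' (BPt.alp_inj _ hb)

namespace Surf

variable {S : Surf k L} [CharZero k] [IsAlgClosed k]

theorem mor_alp {ζ : k} (hζ : ζ ^ 2 + ζ + 1 = 0) {p : BPt L} (hp : S.Mor p) :
    S.Mor (p.alp (algebraMap k L ζ) (alpz L hζ)) := by
  intro P
  have hz := alpz L hζ
  obtain ⟨a1, a2, a3, a4⟩ := p.alp_coord _ hz
  rw [a1]
  rcases hp P with h | h
  · exact Or.inl (P.1.toSubring.mul_mem (Pt.algebraMap_mem P ζ) h)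
  · right
    rw [mul_inv, alpz_inv hz, ← map_pow]
    exact P.1.toSubring.mul_mem (Pt.algebraMap_mem P _) h

theorem val_alp {ζ : k} (hζ : ζ ^ 2 + ζ + 1 = 0) {P : S.Pt} {p : BPt L} {b : BPt k}
    (h : Val P p b) : Val P (p.alp (algebraMap k L ζ) (alpz L hζ)) (b.alp ζ hζ) := by
  have hz := alpz L hζ
  obtain ⟨a1, a2, a3, a4⟩ := p.alp_coord _ hz
  match b with
  | .aff c d hb =>
    obtain ⟨h1, h2⟩ := h
    refine ⟨?_, ?_⟩
    · rw [a1, map_mul, ← mul_sub]
      exact h1.mul_left (Pt.algebraMap_mem P ζ)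
    · rw [a2, map_neg, show -p.y - -algebraMap k L d = -(p.y - algebraMap k L d) by ring]
      exact h2.neg
  | .inf e hb =>
    obtain ⟨h1, h2⟩ := h
    refine ⟨?_, ?_⟩
    · rw [a3, alpz_inv hz, ← map_pow]
      exact h1.mul_left (Pt.algebraMap_mem P _)
    · rw [a4, map_neg, show -p.yh - -algebraMap k L e = -(p.yh - algebraMap k L e) by ring]
      exact h2.neg

theorem gam_alp {ζ : k} (hζ : ζ ^ 2 + ζ + 1 = 0) (p q : BPt L) :
    S.gam (p.alp (algebraMap k L ζ) (alpz L hζ)) (q.alp (algebraMap k L ζ) (alpz L hζ)) =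
      S.gam p q := by
  unfold gam
  congr 1
  funext C
  exact DV.iB_alp _ _ _

theorem fib_alp {ζ : k} (hζ : ζ ^ 2 + ζ + 1 = 0) (p : BPt L) (b : BPt k) :
    S.fib (p.alp (algebraMap k L ζ) (alpz L hζ)) (b.alp ζ hζ) = S.fib p b := by
  unfold fib
  rw [BPt.map_alp hζ, gam_alp hζ]

theorem infD_alp {ζ : k} (hζ : ζ ^ 2 + ζ + 1 = 0) (p : BPt L) :
    S.infD (p.alp (algebraMap k L ζ) (alpz L hζ)) = S.infD p := by
  have h1 : S.fib (p.alp (algebraMap k L ζ) (alpz L hζ)) (im k) = S.fib p (ip k) := by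
    have h := fib_alp (S := S) hζ p (ip k)
    rwa [BPt.alp_ip hζ] at h
  have h2 : S.fib (p.alp (algebraMap k L ζ) (alpz L hζ)) (ip k) = S.fib p (im k) := by
    have h := fib_alp (S := S) hζ p (im k)
    rwa [BPt.alp_im hζ] at h
  unfold infD
  rw [h1, h2, add_comm]

end Surf

end HB
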