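import Pool.Agent.HB.F.AF
import Pool.Agent.HB.A.IntC

/-!
# HB-F-Bil: the intersection form on `Pic ⊗ ℚ`

PLAN.  `V₀ := S.PD →₀ ℚ`.  `B₀ : V₀ →ₗ[ℚ] V₀ →ₗ[ℚ] S.CH0` the bilinear extension
(`Finsupp.lsum`, `LinearMap.toSpanSingleton` or `Finsupp.linearCombination`) of
`(C, C') ↦ S.inter (Finsupp.single C 1) C'`, symmetric by `inter_comm hS`.  `cl₀ : S.Div →+ V₀` the map
induced by `ℤ → ℚ` (`Finsupp.mapRange.addMonoidHom`).  `B₀ (cl₀ D) (cl₀ D') = S.prod D D'`: both
sides are additive in `D` and `D'` (`prod_add_left hS`, `prod_add_right`), check on `single C 1`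
(`prod_single`).  `N :=` the `ℚ`-span of the `cl₀ D`, `D` principal (`S.IsDiv f D`);
`B₀ n v = 0` for `n ∈ N` and all `v`: for `v = single C c` this is `c • S.prod D (single C 1) = 0`
(`prod_isDiv_left hS`).  `V := V₀ ⧸ N`, `B` induced (`Submodule.liftQ` twice, using symmetry).
-/

set_option autoImplicit false

open IsLocalRing

namespace HB

variable {k L : Type} [Field k] [Field L] [Algebra k L]

namespace Surf

variable {S : Surf k L} [CharZero k] [IsAlgClosed k]

/-- the bilinear extension of the intersection of curves -/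
private noncomputable def B0 (S : Surf k L) : (S.PD →₀ ℚ) →ₗ[ℚ] (S.PD →₀ ℚ) →ₗ[ℚ] S.CH0 :=
  Finsupp.linearCombination ℚ fun C =>
    Finsupp.linearCombination ℚ fun C' => S.inter (Finsupp.single C 1) C'

omit [CharZero k] [IsAlgClosed k] in
private theorem B0_single (C C' : S.PD) (a b : ℚ) :
    B0 S (Finsupp.single C a) (Finsupp.single C' b) =
      a • b • S.inter (Finsupp.single C 1) C' := by
  unfold B0
  rw [Finsupp.linearCombination_single, LinearMap.smul_apply, Finsupp.linearCombination_single]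

/-- rational coefficients -/
private noncomputable def cl0 (S : Surf k L) : S.Div →+ (S.PD →₀ ℚ) :=
  Finsupp.mapRange.addMonoidHom (Int.castAddHom ℚ)

omit [CharZero k] [IsAlgClosed k] in
private theorem cl0_single (C : S.PD) (n : ℤ) :
    cl0 S (Finsupp.single C n) = Finsupp.single C (n : ℚ) := by
  unfold cl0
  rw [Finsupp.mapRange.addMonoidHom_apply, Finsupp.mapRange_single]
  rfl

private theorem B0_symm (hS : S.Smooth) (x y : S.PD →₀ ℚ) : B0 S x y = B0 S y x := by
  induction x using Finsupp.induction_linear with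
  | zero => rw [map_zero, map_zero, LinearMap.zero_apply]
  | add x x' h h' => rw [map_add, map_add, LinearMap.add_apply, h, h']
  | single C a =>
    induction y using Finsupp.induction_linear with
    | zero => rw [map_zero, map_zero, LinearMap.zero_apply]
    | add y y' h h' => rw [map_add, map_add, LinearMap.add_apply, h, h']
    | single C' b =>
      rw [B0_single, B0_single, inter_comm hS C C', smul_comm]

private theorem B0_prod (hS : S.Smooth) (D D' : S.Div) :
    B0 S (cl0 S D) (cl0 S D') = S.prod D D' := by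
  have hz : ∀ E : S.Div, S.prod 0 E = 0 := fun E => by
    have h := prod_add_left hS 0 0 E
    rw [add_zero] at h
    exact left_eq_add.mp h
  have hz' : ∀ E : S.Div, S.prod E 0 = 0 := fun E => by rw [prod_comm hS, hz]
  induction D using Finsupp.induction_linear with
  | zero => rw [map_zero, map_zero, LinearMap.zero_apply, hz]
  | add x x' h h' => rw [map_add, map_add, LinearMap.add_apply, h, h', prod_add_left hS]
  | single C a =>
    induction D' using Finsupp.induction_linear with
    | zero => rw [map_zero, map_zero, hz']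
    | add y y' h h' => rw [map_add, map_add, h, h', prod_add_right]
    | single C' b =>
      have e : (Finsupp.single C a : S.Div) = a • (Finsupp.single C 1 : S.Div) := by
        rw [Finsupp.smul_single, smul_eq_mul, mul_one]
      rw [cl0_single, cl0_single, B0_single, prod_single, e, inter_zsmul hS, smul_comm]

theorem exists_bil (hS : S.Smooth) : ∃ (V : Type) (_ : AddCommGroup V) (_ : Module ℚ V)
    (cl : S.Div →+ V) (B : V →ₗ[ℚ] V →ₗ[ℚ] S.CH0),
    (∀ D D' : S.Div, B (cl D) (cl D') = S.prod D D') ∧ (∀ x y : V, B x y = B y x) ∧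
      ∀ D D' : S.Div, S.LinEq D D' → cl D = cl D' := by
  classical
  let N : Submodule ℚ (S.PD →₀ ℚ) :=
    Submodule.span ℚ {v | ∃ (f : L) (D : S.Div), S.IsDiv f D ∧ v = cl0 S D}
  have hN : N ≤ LinearMap.ker (B0 S) := by
    refine Submodule.span_le.mpr ?_
    rintro v ⟨f, D, hD, rfl⟩
    refine LinearMap.mem_ker.mpr ?_
    refine Finsupp.lhom_ext fun C c => ?_
    have e : (Finsupp.single C c : S.PD →₀ ℚ) = c • cl0 S (Finsupp.single C 1) := by
      rw [cl0_single, Finsupp.smul_single, Int.cast_one, smul_eq_mul, mul_one]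
    rw [e, map_smul, B0_prod hS, prod_isDiv_left hS hD, smul_zero, LinearMap.zero_apply]
  let B₁ : ((S.PD →₀ ℚ) ⧸ N) →ₗ[ℚ] (S.PD →₀ ℚ) →ₗ[ℚ] S.CH0 := N.liftQ (B0 S) hN
  have hB₁ : ∀ v w, B₁ (Submodule.Quotient.mk v) w = B0 S v w := fun v w => rfl
  have hN' : N ≤ LinearMap.ker B₁.flip := by
    intro n hn
    refine LinearMap.mem_ker.mpr ?_
    refine LinearMap.ext fun x => ?_
    obtain ⟨v, rfl⟩ := Submodule.Quotient.mk_surjective N x
    rw [LinearMap.flip_apply, hB₁, B0_symm hS, LinearMap.mem_ker.mp (hN hn),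
      LinearMap.zero_apply, LinearMap.zero_apply]
  let B : ((S.PD →₀ ℚ) ⧸ N) →ₗ[ℚ] ((S.PD →₀ ℚ) ⧸ N) →ₗ[ℚ] S.CH0 :=
    (N.liftQ B₁.flip hN').flip
  have hB : ∀ v w : S.PD →₀ ℚ,
      B (Submodule.Quotient.mk v) (Submodule.Quotient.mk w) = B0 S v w := fun v w => rfl
  refine ⟨(S.PD →₀ ℚ) ⧸ N, inferInstance, inferInstance,
    N.mkQ.toAddMonoidHom.comp (cl0 S), B, ?_, ?_, ?_⟩
  · intro D D'
    exact (hB _ _).trans (B0_prod hS D D')
  · intro x y
    obtain ⟨v, rfl⟩ := Submodule.Quotient.mk_surjective N x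
    obtain ⟨w, rfl⟩ := Submodule.Quotient.mk_surjective N y
    rw [hB, hB, B0_symm hS]
  · rintro D D' ⟨f, hf⟩
    change (Submodule.Quotient.mk (cl0 S D) : (S.PD →₀ ℚ) ⧸ N) =
      Submodule.Quotient.mk (cl0 S D')
    rw [Submodule.Quotient.eq, ← map_sub]
    exact Submodule.subset_span ⟨f, _, hf, rfl⟩

end Surf

end HB
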