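import Pool.Agent.HB.F.Res

/-!
# HB-F-Congr: divisors with the same restricted local equations have the same intersection

PLAN of `inter_congr_van`.  Take `z` with `S.IsInt D C z` (`hA.exInt`): `r ≠ 0`, `C.ord r = D C = 0`,
and at `P` on `C` a local equation `f₁` of `D` with `z P = ordS (C.loc P) (C.res (f₁ / r))`.
Show `S.IsInt D' C z` with the same `r` (`C.ord r = 0 = D' C`): let `f, f'` be as in the hypothesis.
`C.ord f = D C = 0`, `C.ord f' = D' C = 0`, `C.ord f₁ = 0`.  `f₁ / f` is a unit at `P`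
(`hA.isEq_unit`), so `ordS (C.loc P) (C.res (f₁ / r)) = ordS (C.res (f₁/f)) + ordS (C.res (f/r)) =
ordS (C.res (f / r))` (`hA.loc_mul`, `res_mul`, `hA.loc_res_unit`), and
`C.res (f / r) = ± C.res (f' / r)` (`res_eq_of_van`, `res_eq_neg_of_van`, `hA.res_div`), the sign
does not matter (`hA.loc_neg`).  Then `hA.inter_eq` twice.

PLAN of `prod_eq_zero`.  `S.prod D D' = D'.sum (fun C n => n • inter D C)`; for `C` in the support
of `D'` show `inter D C = 0`: `S.IsInt D C 0` with `r = 1`: if `D C ≠ 0` a point `P` on `C`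
(`hA.exPt`) contradicts `h`; at `P` on `C` the function `1` is a local equation of `D`
(`D C' = 0` for all `C'` through `P` by `h`), and `ordS (C.loc P) (C.res (1/1)) = 0`
(`res_one`, `hA.loc_one`).
-/

set_option autoImplicit false

open IsLocalRing

namespace HB

variable {k L : Type} [Field k] [Field L] [Algebra k L]

namespace Surf

variable {S : Surf k L}

theorem inter_congr_van (hA : AFacts S) (C : S.PD) (D D' : S.Div) (hD : D C = 0) (hD' : D' C = 0)
    (h : ∀ P : S.Pt, On P C → ∃ f f' : L, S.IsEq D P f ∧ S.IsEq D' P f' ∧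
      (Van C.1 (f - f') ∨ Van C.1 (f + f'))) :
    S.inter D C = S.inter D' C := by
  obtain ⟨z, hz⟩ := hA.exInt D C
  have hz' : S.IsInt D' C z := by
    obtain ⟨r, hr0, hrD, hloc, hoff⟩ := hz
    refine ⟨r, hr0, by rw [hrD, hD, hD'], fun P hP => ?_, hoff⟩
    obtain ⟨f1, hf1, hzP⟩ := hloc P hP
    obtain ⟨f, f', hf, hf', hv⟩ := h P hP
    refine ⟨f', hf', ?_⟩
    have o1 : C.ord f1 = 0 := by rw [hf1.2 C hP, hD]
    have o2 : C.ord f = 0 := by rw [hf.2 C hP, hD]
    have o3 : C.ord f' = 0 := by rw [hf'.2 C hP, hD']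
    have o4 : C.ord r = 0 := by rw [hrD, hD]
    have n1 := hf1.1
    have n2 := hf.1
    have n3 := hf'.1
    have o5 : C.ord (f1 / f) = 0 := by rw [hA.ord_div C n1 n2, o1, o2, sub_self]
    have o6 : C.ord (f / r) = 0 := by rw [hA.ord_div C n2 hr0, o2, o4, sub_self]
    have n5 : f1 / f ≠ 0 := div_ne_zero n1 n2
    have n6 : f / r ≠ 0 := div_ne_zero n2 hr0
    have e1 : f1 / r = f1 / f * (f / r) := by field_simp
    have hu := hA.isEq_unit hf1 hf
    have e2 : ordS (C.loc P) (C.res (f1 / r)) = ordS (C.loc P) (C.res (f / r)) := by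
      rw [e1, res_mul (hA.mem_of_ord n5 o5) (hA.mem_of_ord n6 o6),
        hA.loc_mul C P hP _ _ (hA.res_ne_zero_of_ord n5 o5) (hA.res_ne_zero_of_ord n6 o6),
        hA.loc_res_unit hP n5 hu.1 hu.2, zero_add]
    rw [hzP, e2, hA.res_div n2 hr0 o2 o4, hA.res_div n3 hr0 o3 o4]
    rcases hv with hv | hv
    · rw [res_eq_of_van (hA.mem_of_ord n2 o2) (hA.mem_of_ord n3 o3) hv]
    · rw [res_eq_neg_of_van (hA.mem_of_ord n2 o2) (hA.mem_of_ord n3 o3) hv, neg_div,
        hA.loc_neg hP]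
  rw [hA.inter_eq D C z hz, hA.inter_eq D' C z hz']

theorem prod_eq_zero (hA : AFacts S) (D D' : S.Div)
    (h : ∀ (P : S.Pt) (C C' : S.PD), On P C → On P C' → D C ≠ 0 → D' C' ≠ 0 → False) :
    S.prod D D' = 0 := by
  unfold prod
  rw [Finsupp.sum]
  refine Finset.sum_eq_zero fun C hC => ?_
  have hC' : D' C ≠ 0 := Finsupp.mem_support_iff.1 hC
  have hI : S.IsInt D C 0 := by
    refine ⟨1, one_ne_zero, ?_, fun P hP => ⟨1, ⟨one_ne_zero, fun C' hC1 => ?_⟩, ?_⟩,
      fun P _ => rfl⟩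
    · rw [hA.ord_one]
      by_contra h0
      obtain ⟨P, hP⟩ := hA.exPt C
      exact h P C C hP hP (fun h1 => h0 h1.symm) hC'
    · rw [hA.ord_one]
      by_contra h0
      exact h P C' C hC1 hP (fun h1 => h0 h1.symm) hC'
    · rw [div_one, res_one, hA.loc_one hP]
      simp
  rw [hA.inter_eq D C 0 hI, Submodule.Quotient.mk_zero, smul_zero]

end Surf

end HB
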