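import Pool.Agent.HB.F.Gam

/-!
# HB-F-Vals: positive multiplicity along a curve and values at its points

`P` on `C`; `O_P ⊆ O_C`; `Van.ofOn`; `hC : S.gam p q C ≠ 0` means: the points `p`, `q` of `B` with
values in the function field of `S` have the same restriction to `C`.

PLAN.
* `val_iff_of_pos`: let `f` be the standard local equation at `P` (`exists_LE`), then
  `0 ≠ gam p q C = C.ord f` (`gam_apply`, `iB_eq_of_LE`), so `f ≠ 1` (`hA.ord_one`): `p` and `q` have
  a common value at `P`; with `val_unique` the equivalence follows.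
* `exists_van_of_pos`: cases of the standard local equation `f`, `C.ord f = gam p q C > 0`
  (`gam_nonneg`), and the other difference:
  - common value `aff c d`: `p = aff x y`, `q = aff x' y'`, coordinates in `O_P ⊆ O_C`: both
    `IsFin`, `iB = dmin (x - x') (y - y') ≥ 1` so `D.ge 1` for both (`D.le_dmin`), i.e.
    `Van C.1 (x - x')`, `Van C.1 (y - y')` (`hA.van_iff_ge`).
  - common value `inf e`: `C.ord (p.xh - q.xh) = iB > 0` (`iB_eq_i`), so `Van C.1 (p.xh - q.xh)`.
* `exists_pos_of_val`: the standard local equation `f` of `gam p q` at `P` is in the maximal ideal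
  (`LE.van_iff`); if `C.ord f = gam p q C = 0` for all `C` through `P` then `f⁻¹ ∈ O_P`
  (`hA.regular`, `hA.ord_inv`), contradiction.
-/

set_option autoImplicit false

open IsLocalRing

namespace HB

variable {k L : Type} [Field k] [Field L] [Algebra k L]

namespace Surf

variable {S : Surf k L}

theorem val_iff_of_pos (hA : AFacts S) [CharZero k] [IsAlgClosed k] {P : S.Pt} {C : S.PD}
    (hP : On P C) {p q : BPt L} (hp : S.Mor p) (hq : S.Mor q) (hpq : p ≠ q)
    (hC : S.gam p q C ≠ 0) (b : BPt k) : Val P p b ↔ Val P q b := by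
  obtain ⟨f, hf⟩ := exists_LE P p q
  have h0 := hf.ne_zero hA hpq
  have hm := hf.mem hA
  have hg : S.gam p q C = C.ord f := by
    rw [gam_apply hA hp hq hpq C, iB_eq_of_LE hA hP hp hq hpq hf]
  have hv : Van P.1 f := by
    rcases van_or_inv_mem hm with h1 | h1
    · exact h1
    · exact absurd (hg.trans (hA.ord_eq_zero_of_unit C hP hm h1 h0)) hC
  obtain ⟨b0, hb, hb'⟩ := (hf.van_iff hA).1 hv
  constructor
  · intro h
    rw [val_unique hA h hb]; exact hb'
  · intro h
    rw [val_unique hA h hb']; exact hb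

theorem van_x_of_pos (hA : AFacts S) [CharZero k] [IsAlgClosed k] {P : S.Pt} {C : S.PD}
    (hP : On P C) {p q : BPt L} (hp : S.Mor p) (hq : S.Mor q) (hpq : p ≠ q)
    (hC : S.gam p q C ≠ 0) {c d : k} {h : d ^ 2 = c ^ 6 + 1} (hv : Val P p (.aff c d h)) :
    Van C.1 (p.x - q.x) ∧ Van C.1 (p.y - q.y) := by
  have hv' := (val_iff_of_pos hA hP hp hq hpq hC _).1 hv
  obtain ⟨x, y, h1, rfl, hx, hy⟩ := Val.aff_mem hA hv
  obtain ⟨x', y', h2, rfl, hx', hy'⟩ := Val.aff_mem hA hv'
  have hge := gam_nonneg hA hp hq hpq C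
  have hpos : 1 ≤ S.gam (BPt.aff x y h1) (BPt.aff x' y' h2) C := by omega
  rw [gam_apply hA hp hq hpq C] at hpos
  have hgx := hA.ge_of_mem C hP hx
  have hgx' := hA.ge_of_mem C hP hx'
  have hiB : C.dv.iB (BPt.aff x y h1) (BPt.aff x' y' h2) = C.dv.dmin (x - x') (y - y') := by
    unfold DV.iB
    rw [if_pos ⟨hgx, hgx'⟩]
    rfl
  have hne : x - x' ≠ 0 ∨ y - y' ≠ 0 := by
    by_contra hc
    rw [not_or, not_not, not_not, sub_eq_zero, sub_eq_zero] at hc
    obtain ⟨rfl, rfl⟩ := hc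
    exact hpq rfl
  rw [hiB, DV.le_dmin _ hne] at hpos
  exact ⟨(hA.van_iff_ge C _).2 hpos.1, (hA.van_iff_ge C _).2 hpos.2⟩

theorem van_xh_of_pos (hA : AFacts S) [CharZero k] [IsAlgClosed k] {P : S.Pt} {C : S.PD}
    (hP : On P C) {p q : BPt L} (hp : S.Mor p) (hq : S.Mor q) (hpq : p ≠ q)
    (hC : S.gam p q C ≠ 0) {e : k} {h : e ^ 2 = 1} (hv : Val P p (.inf e h)) :
    Van C.1 (p.xh - q.xh) := by
  have hv' := (val_iff_of_pos hA hP hp hq hpq hC _).1 hv
  have hf : LE P p q (p.xh - q.xh) := LE.i e h hv hv'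
  have h0 := hf.ne_zero hA hpq
  have hg : S.gam p q C = C.ord (p.xh - q.xh) := by
    rw [gam_apply hA hp hq hpq C, iB_eq_of_LE hA hP hp hq hpq hf]
  have hge := gam_nonneg hA hp hq hpq C
  rw [hA.van_iff C h0, ← hg]
  omega

theorem exists_pos_of_val (hA : AFacts S) [CharZero k] [IsAlgClosed k] {P : S.Pt} {p q : BPt L}
    (hp : S.Mor p) (hq : S.Mor q) (hpq : p ≠ q) {b : BPt k} (h : Val P p b) (h' : Val P q b) :
    ∃ C : S.PD, On P C ∧ S.gam p q C ≠ 0 := by
  by_contra hc
  push Not at hc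
  obtain ⟨f, hf⟩ := exists_LE P p q
  have h0 := hf.ne_zero hA hpq
  have hv : Van P.1 f := (hf.van_iff hA).2 ⟨b, h, h'⟩
  refine hv.inv_not_mem h0 (hA.regular P f⁻¹ (inv_ne_zero h0) fun C hC => ?_)
  have h1 := hc C hC
  rw [gam_apply hA hp hq hpq C, iB_eq_of_LE hA hC hp hq hpq hf] at h1
  rw [hA.ord_inv C h0, h1]
  simp

end Surf

end HB
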