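import Pool.Agent.HB.F.Lin
import Pool.Agent.HB.F.Vals
import Pool.Agent.HB.B.BB

/-!
# HB-F-NC: curves on which a point of `B` is constant

`S.gam p q C ≠ 0` means that the points `p`, `q` of `B` coincide on the curve `C`,
`S.fib p b C ≠ 0` (`fib p b = gam p (b.map L)`) that `p` is constant `= b` on `C`.
`hA := afacts hS`; `gam_apply hA` (`HB/F/Gam.lean`): `gam p q C = C.dv.iB p q`; `HB/B/BB.lean`:
`DV.iB_comm`, `DV.iB_nonneg`, `DV.iB_ultra`, `DV.iB_const`.

PLAN.
* `gam_comm`: `mkDiv` of equal functions (`DV.iB_comm`).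
* `gam_trans`: `iB_ultra` and `iB_nonneg`.
* `fib_unique`: `p = b` and `p = b'` on `C` with `b ≠ b'` contradicts `gam_trans` and `DV.iB_const`
  (`C.dv.iB (b.map L) (b'.map L) = 0`).
* `cst_of_gam`: `gam_trans`.
* `cst_of_iot`: `p = p.iot` on `C`.  `P` on `C` (`hA.exPt`), `b` the value of `p` at `P`
  (`val_exists`).  By `val_iff_of_pos` and `val_iot` also `b.iot` is the value of `p` at `P`... so
  `b.iot = b` (`val_unique`): `b = aff c 0` with `c⁶ = -1`.  `van_x_of_pos`: `Van C.1 (p.y - p.iot.y)`,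
  i.e. `Van C.1 (2 y)`, so `Van C.1 y`, `y² = x⁶ + 1 = x⁶ - c⁶ = (x - c) g`,
  `g = x⁵ + x⁴ c + ... + c⁵`; `g - 6 c⁵` is in the maximal ideal of `O_P`, so `g` is a unit of `O_P`
  and of `O_C`, hence `Van C.1 (x - c)`.  So `iB p (b.map L) = dmin (x - c) (y - 0) ≥ 1`
  (`D.le_dmin`, `D.iB_fin`).
* `nc_of_st` (`p` and `q` are not both constant on `C`): let `fib p b C ≠ 0`, `fib q b' C ≠ 0`, `P` on
  `C`; `b`, `b'` are the values of `p`, `q` at `P` (`val_iff_of_pos`, `val_map`).  `van_x_of_pos`,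
  `van_xh_of_pos`: both affine: `Van C.1 (x - c)`, `Van C.1 (x' - c')`, `hA.nonconst C 1 1 (c+c') (c*c')`
  gives `1 = 0`.  `b = inf`, `b'` affine: `w = p.xh = x⁻¹` (`x ≠ 0`), `w * s = 1 + x⁻¹ x'` has value
  `1`, `w * t = x'` has value `c'`: `hA.nonconst C w 0 1 c'` gives `1 = 0`; symmetric case too.
  Both infinite: `w = (x x')⁻¹`, values `0, 0, 1`.
-/

set_option autoImplicit false

open IsLocalRing

namespace HB

variable {k L : Type} [Field k] [Field L] [Algebra k L]

namespace Surf

variable {S : Surf k L} [CharZero k] [IsAlgClosed k]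

theorem gam_comm (p q : BPt L) : S.gam p q = S.gam q p := by
  unfold gam
  exact congrArg S.mkDiv (funext fun C => C.dv.iB_comm p q)

/-- if `p = q` and `q = r` on `C` then `p = r` on `C` -/
theorem gam_trans (hS : S.Smooth) {p q r : BPt L} (hp : S.Mor p) (hq : S.Mor q) (hr : S.Mor r)
    (hpq : p ≠ q) (hqr : q ≠ r) (hpr : p ≠ r) {C : S.PD} (h1 : S.gam p q C ≠ 0)
    (h2 : S.gam q r C ≠ 0) : S.gam p r C ≠ 0 := by
  have hA := afacts hS
  rw [gam_apply hA hp hq hpq] at h1
  rw [gam_apply hA hq hr hqr] at h2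
  rw [gam_apply hA hp hr hpr]
  have h3 := C.dv.iB_nonneg hpq
  have h4 := C.dv.iB_nonneg hqr
  have h5 := C.dv.iB_ultra hpq hqr hpr
  rcases min_le_iff.1 h5 with h6 | h6 <;> omega

omit [CharZero k] [IsAlgClosed k] in
private theorem nc_map_inj {b b' : BPt k} (h : b ≠ b') : b.map L ≠ b'.map L := by
  intro hc
  apply h
  have hi := (algebraMap k L).injective
  match b, b', hc with
  | .aff c d e, .aff c' d' e', hc =>
    have h1 : algebraMap k L c = algebraMap k L c' := congrArg BPt.x hc
    have h2 : algebraMap k L d = algebraMap k L d' := congrArg BPt.y hc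
    have h3 := hi h1
    have h4 := hi h2
    subst h3
    subst h4
    rfl
  | .inf e h, .inf e' h', hc =>
    have h1 : algebraMap k L e = algebraMap k L e' := congrArg BPt.yh hc
    have h3 := hi h1
    subst h3
    rfl
  | .aff c d e, .inf e' h', hc => exact absurd hc (fun h => by cases h)
  | .inf e' h', .aff c d e, hc => exact absurd hc (fun h => by cases h)

theorem fib_unique (hS : S.Smooth) {p : BPt L} (hp : S.Mor p) (hn : NCst k p) {b b' : BPt k}
    (h : b ≠ b') {C : S.PD} (h1 : S.fib p b C ≠ 0) : S.fib p b' C = 0 := by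
  have hA := afacts hS
  by_contra h2
  have h3 : S.gam (b.map L) p C ≠ 0 := by
    rw [gam_comm]
    exact h1
  have h4 := gam_trans hS (mor_map hA b) hp (mor_map hA b') (Ne.symm (hn b)) (hn b')
    (nc_map_inj h) h3 h2
  rw [gam_apply hA (mor_map hA b) (mor_map hA b') (nc_map_inj h)] at h4
  exact h4 (C.dv.iB_const h)

theorem cst_of_gam (hS : S.Smooth) {p q : BPt L} (hp : S.Mor p) (hq : S.Mor q) (hn : NCst k p)
    (hn' : NCst k q) (hpq : p ≠ q) {C : S.PD} {b : BPt k} (h1 : S.gam p q C ≠ 0)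
    (h2 : S.fib p b C ≠ 0) : S.fib q b C ≠ 0 := by
  have hA := afacts hS
  have h3 : S.gam q p C ≠ 0 := by
    rw [gam_comm]
    exact h1
  exact gam_trans hS hq hp (mor_map hA b) (Ne.symm hpq) (hn b) (hn' b) h3 h2

theorem cst_of_iot (hS : S.Smooth) {p : BPt L} (hp : S.Mor p) (hn : NCst k p) {C : S.PD}
    (h1 : S.gam p p.iot C ≠ 0) : ∃ b : BPt k, S.fib p b C ≠ 0 := by
  have hA := afacts hS
  obtain ⟨P, hP⟩ := hA.exPt C
  obtain ⟨b, hb⟩ := val_exists hA hp P
  have hne := hn.ne_iot
  have hmi := mor_iot hp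
  have h2 := (val_iff_of_pos hA hP hp hmi hne h1 b).1 hb
  have h3 := val_iot hb
  have h4 := val_unique hA h2 h3
  match b, hb, h4 with
  | .inf e he, hb, h4 =>
    exfalso
    have h5 : e = -e := congrArg BPt.yh h4
    have h6 : e = 0 := by
      have h7 : (2 : k) * e = 0 := by linear_combination h5
      simpa using h7
    rw [h6] at he
    norm_num at he
  | .aff c d hcd, hb, h4 =>
    have h5 : d = -d := congrArg BPt.y h4
    have hd : d = 0 := by
      have h7 : (2 : k) * d = 0 := by linear_combination h5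
      simpa using h7
    subst hd
    have hc0 : c ^ 6 + 1 = 0 := by
      rw [← hcd]
      ring
    have hvan := (van_x_of_pos hA hP hp hmi hne h1 hb).2
    obtain ⟨x, y, hxy, hpe, hx, hy⟩ := Val.aff_mem hA hb
    have hb1 : Van P.1 (p.x - algebraMap k L c) := hb.1
    subst hpe
    change Van P.1 (x - algebraMap k L c) at hb1
    change Van C.1 (y - -y) at hvan
    have hcP := hA.algMemP P c
    have hhalf := hA.algMem C (2⁻¹)
    have hy2 : Van C.1 y := by
      have h6 := hvan.mul_left hhalf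
      have h7 : algebraMap k L 2⁻¹ * (y - -y) = y := by
        have h8 : algebraMap k L 2⁻¹ * 2 = 1 := by
          rw [← map_ofNat (algebraMap k L) 2, ← map_mul, inv_mul_cancel₀ two_ne_zero, map_one]
        linear_combination y * h8
      rwa [h7] at h6
    obtain ⟨g, hg⟩ : ∃ g, g = x ^ 5 + x ^ 4 * algebraMap k L c + x ^ 3 * algebraMap k L c ^ 2 +
      x ^ 2 * algebraMap k L c ^ 3 + x * algebraMap k L c ^ 4 + algebraMap k L c ^ 5 := ⟨_, rfl⟩
    have hgP : g ∈ P.1.toSubring := by
      rw [hg]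
      exact add_mem (add_mem (add_mem (add_mem (add_mem (pow_mem hx 5)
        (mul_mem (pow_mem hx 4) hcP)) (mul_mem (pow_mem hx 3) (pow_mem hcP 2)))
        (mul_mem (pow_mem hx 2) (pow_mem hcP 3))) (mul_mem hx (pow_mem hcP 4))) (pow_mem hcP 5)
    have hc6 : algebraMap k L c ^ 6 + 1 = 0 := by
      rw [← map_pow, ← map_one (algebraMap k L), ← map_add, hc0, map_zero]
    have hprod : (x - algebraMap k L c) * g = y * y := by
      rw [hg]
      linear_combination -hc6 - hxy
    have hxcC : x - algebraMap k L c ∈ C.1.toSubring := hP hb1.mem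
    have hv2 : Van C.1 ((x - algebraMap k L c) * g) := by
      rw [hprod]
      exact hy2.mul_left hy2.mem
    have hvx : Van C.1 (x - algebraMap k L c) := by
      rcases van_of_mul hxcC (hP hgP) hv2 with h6 | h6
      · exact h6
      · exfalso
        have h7 := Van.ofOn hP h6 hgP
        have h8 : Van P.1 ((x - algebraMap k L c) * (x ^ 4 + 2 * (x ^ 3 * algebraMap k L c) +
            3 * (x ^ 2 * algebraMap k L c ^ 2) + 4 * (x * algebraMap k L c ^ 3) +
            5 * algebraMap k L c ^ 4)) := by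
          refine hb1.mul_right ?_
          have hnat : ∀ n : ℕ, (n : L) ∈ P.1.toSubring := fun n => natCast_mem _ n
          exact add_mem (add_mem (add_mem (add_mem (pow_mem hx 4)
            (mul_mem (hnat 2) (mul_mem (pow_mem hx 3) hcP)))
            (mul_mem (hnat 3) (mul_mem (pow_mem hx 2) (pow_mem hcP 2))))
            (mul_mem (hnat 4) (mul_mem hx (pow_mem hcP 3))))
            (mul_mem (hnat 5) (pow_mem hcP 4))
        have h9 := h7.sub h8
        have h10 : g - (x - algebraMap k L c) * (x ^ 4 + 2 * (x ^ 3 * algebraMap k L c) +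
            3 * (x ^ 2 * algebraMap k L c ^ 2) + 4 * (x * algebraMap k L c ^ 3) +
            5 * algebraMap k L c ^ 4) = algebraMap k L (6 * c ^ 5) := by
          rw [hg, map_mul, map_pow, map_ofNat]
          ring
        rw [h10, hA.algebraMap_van] at h9
        have h11 : c = 0 := by
          rcases mul_eq_zero.1 h9 with h12 | h12
          · norm_num at h12
          · exact pow_eq_zero_iff (by norm_num) |>.1 h12
        rw [h11] at hc0
        norm_num at hc0
    refine ⟨.aff c 0 hcd, ?_⟩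
    change S.gam (.aff x y hxy) (BPt.map L (.aff c 0 hcd)) C ≠ 0
    rw [gam_apply hA hp (mor_map hA _) (hn _)]
    have hf1 : (BPt.aff x y hxy).IsFin C.dv := hA.ge_of_mem C hP hx
    have hf2 : (BPt.map L (.aff c 0 hcd)).IsFin C.dv := C.dv.ge_const c
    have h12 : 1 ≤ C.dv.iB (.aff x y hxy) (BPt.map L (.aff c 0 hcd)) := by
      rw [C.dv.iB_fin hf1 hf2, C.dv.le_dmin (BPt.coord_ne_fin C.dv (hn _) hf1 hf2)]
      constructor
      · exact (hA.van_iff_ge C _).1 hvx
      · change C.dv.ge 1 (y - algebraMap k L 0)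
        rw [map_zero, sub_zero]
        exact (hA.van_iff_ge C _).1 hy2
    omega

private theorem nc_data (hS : S.Smooth) {p : BPt L} (hp : S.Mor p) (hn : NCst k p) (C : S.PD)
    (b : BPt k) (h1 : S.fib p b C ≠ 0) :
    (∃ c, Van C.1 (p.x - algebraMap k L c)) ∨ (p.x ≠ 0 ∧ Van C.1 (p.x)⁻¹) := by
  have hA := afacts hS
  obtain ⟨P, hP⟩ := hA.exPt C
  have hv : Val P p b := (val_iff_of_pos hA hP hp (mor_map hA b) (hn b) h1 b).2 (val_map hA P b)
  match b, hv, h1 with
  | .aff c d h, hv, h1 =>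
    left
    exact ⟨c, (van_x_of_pos hA hP hp (mor_map hA _) (hn _) h1 hv).1⟩
  | .inf e h, hv, h1 =>
    right
    have h2 := van_xh_of_pos hA hP hp (mor_map hA _) (hn _) h1 hv
    obtain ⟨x, y, hxy, hpe, hx⟩ := hn.eq_aff
    subst hpe
    refine ⟨?_, ?_⟩
    · intro h3
      apply hx 0
      rw [map_zero]
      exact h3
    · change Van C.1 (x⁻¹ - 0) at h2
      rw [sub_zero] at h2
      exact h2

omit [IsAlgClosed k] in
private theorem nc_aff_inf (hA : AFacts S) (C : S.PD) {x x' : L} {c' : k}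
    (hs : S.s = x + x') (ht : S.t = x * x') (hx0 : x ≠ 0) (hx : Van C.1 x⁻¹)
    (hx' : Van C.1 (x' - algebraMap k L c')) : False := by
  have hmem : x' ∈ C.1.toSubring := by
    have h1 := C.1.toSubring.add_mem hx'.mem (hA.algMem C c')
    rwa [sub_add_cancel] at h1
  have h1 : Van C.1 (x⁻¹ - algebraMap k L 0) := by
    rw [map_zero, sub_zero]
    exact hx
  have h2 : Van C.1 (x⁻¹ * S.s - algebraMap k L 1) := by
    have h3 : x⁻¹ * S.s - algebraMap k L 1 = x⁻¹ * x' := by
      rw [hs, map_one, mul_add, inv_mul_cancel₀ hx0]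
      ring
    rw [h3]
    exact hx.mul_right hmem
  have h3 : Van C.1 (x⁻¹ * S.t - algebraMap k L c') := by
    rw [ht, inv_mul_cancel_left₀ hx0]
    exact hx'
  exact one_ne_zero (hA.nonconst C x⁻¹ 0 1 c' h1 h2 h3).2.1

theorem nc_of_st (hS : S.Smooth) {p q : BPt L} (hp : S.Mor p) (hq : S.Mor q) (hn : NCst k p)
    (hn' : NCst k q) (hs : S.s = p.x + q.x) (ht : S.t = p.x * q.x) (C : S.PD) (b b' : BPt k)
    (h1 : S.fib p b C ≠ 0) (h2 : S.fib q b' C ≠ 0) : False := by
  have hA := afacts hS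
  rcases nc_data hS hp hn C b h1 with ⟨c, hc⟩ | ⟨hx0, hx⟩
  · rcases nc_data hS hq hn' C b' h2 with ⟨c', hc'⟩ | ⟨hx0', hx'⟩
    · have hmem : q.x ∈ C.1.toSubring := by
        have h3 := C.1.toSubring.add_mem hc'.mem (hA.algMem C c')
        rwa [sub_add_cancel] at h3
      have e1 : Van C.1 ((1 : L) - algebraMap k L 1) := by
        rw [map_one, sub_self]
        exact van_zero _
      have e2 : Van C.1 ((1 : L) * S.s - algebraMap k L (c + c')) := by
        have h3 : (1 : L) * S.s - algebraMap k L (c + c') =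
            (p.x - algebraMap k L c) + (q.x - algebraMap k L c') := by
          rw [hs, map_add]
          ring
        rw [h3]
        exact hc.add hc'
      have e3 : Van C.1 ((1 : L) * S.t - algebraMap k L (c * c')) := by
        have h3 : (1 : L) * S.t - algebraMap k L (c * c') =
            (p.x - algebraMap k L c) * q.x + algebraMap k L c * (q.x - algebraMap k L c') := by
          rw [ht, map_mul]
          ring
        rw [h3]
        exact (hc.mul_right hmem).add (hc'.mul_left (hA.algMem C c))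
      exact one_ne_zero (hA.nonconst C 1 1 (c + c') (c * c') e1 e2 e3).1
    · refine nc_aff_inf hA C (x := q.x) (x' := p.x) ?_ ?_ hx0' hx' hc
      · rw [hs, add_comm]
      · rw [ht, mul_comm]
  · rcases nc_data hS hq hn' C b' h2 with ⟨c', hc'⟩ | ⟨hx0', hx'⟩
    · exact nc_aff_inf hA C hs ht hx0 hx hc'
    · have e1 : Van C.1 ((p.x)⁻¹ * (q.x)⁻¹ - algebraMap k L 0) := by
        rw [map_zero, sub_zero]
        exact hx.mul_right hx'.mem
      have e2 : Van C.1 ((p.x)⁻¹ * (q.x)⁻¹ * S.s - algebraMap k L 0) := by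
        have h3 : (p.x)⁻¹ * (q.x)⁻¹ * S.s - algebraMap k L 0 = (q.x)⁻¹ + (p.x)⁻¹ := by
          rw [hs, map_zero]
          field_simp
          ring
        rw [h3]
        exact hx'.add hx
      have e3 : Van C.1 ((p.x)⁻¹ * (q.x)⁻¹ * S.t - algebraMap k L 1) := by
        have h3 : (p.x)⁻¹ * (q.x)⁻¹ * S.t - algebraMap k L 1 = 0 := by
          rw [ht, map_one]
          field_simp
          ring
        rw [h3]
        exact van_zero _
      exact one_ne_zero (hA.nonconst C _ 0 0 1 e1 e2 e3).2.2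

end Surf

end HB
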