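import Pool.Agent.HB.F.Alp
import Pool.Agent.HB.F.NC
import Pool.Agent.HB.F.Congr

/-!
# HB-F-Zero: intersections of fibres of the same morphism are zero; disjoint coincidence divisors

`hA := afacts hS`; part A (`HB/A/IntC.lean`): `prod_comm hS`, `prod_add_left hS`, `prod_add_right`,
`prod_zsmul_left hS`, `prod_zsmul_right hS`, `prod_linEq hS`, `linEq_refl`.

PLAN.
* `prod_fib_ne`: `prod_eq_zero hA` (`HB/F/Congr.lean`): if `P` is on `C` and on `C'`,
  `fib p b C ≠ 0`, `fib p b' C' ≠ 0` then `b` and `b'` are values of `p` at `P`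
  (`val_iff_of_pos`, `val_map`), so `b = b'` (`val_unique`).
* `prod_fib_fib`: the case `b = b'`.  `b = inf e` (`e = ±1`, i.e. `b = ip k` or `im k`, the proof of the
  two cases is the same): `3 • prod F F = prod F (3 • F) = prod F (3 • F') = 3 • prod F F' = 0`
  (`lin_inf`, `F'` the other fibre).  `b = aff c d h`: `F = fib p b`, `F' = fib p b.iot`:
  `prod F F + prod F F' = prod F (infD p) = prod F (fib p ip) + prod F (fib p im) = 0` by `lin_fib` and
  `prod_fib_ne`; if `b ≠ b.iot` then `prod F F' = 0`; if `b = b.iot` then `2 • prod F F = 0`.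
  (`CH0` is a `ℚ`-vector space, so `3 • x = 0` gives `x = 0`.)
* `prod_fib_alp`: `b' = b''.alp` (`BPt.alp_surj`), `fib_alp` and `prod_fib_fib`.
* `prod_disj`: `D12 C ≠ 0 → gam p q C ≠ 0`, `D32 C' ≠ 0 → gam (p.alp) q C' ≠ 0`; if `P` is on `C`, `C'`:
  values of `p`, `q`, `p.alp` at `P` are equal (`val_iff_of_pos`), but the value of `p.alp` is `b.alp`
  (`val_alp`), `BPt.alp_ne`.  `prod_eq_zero hA`.
-/

set_option autoImplicit false

open IsLocalRing

namespace HB

variable {k L : Type} [Field k] [Field L] [Algebra k L]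

namespace Surf

variable {S : Surf k L} [CharZero k] [IsAlgClosed k]

theorem prod_fib_ne (hS : S.Smooth) {p : BPt L} (hp : S.Mor p) (hn : NCst k p) {b b' : BPt k}
    (h : b ≠ b') : S.prod (S.fib p b) (S.fib p b') = 0 := by
  have hA := afacts hS
  refine prod_eq_zero hA _ _ fun P C C' hC hC' h1 h2 => h ?_
  have e1 := (val_iff_of_pos hA hC hp (mor_map hA b) (hn b) h1 b).2 (val_map hA P b)
  have e2 := (val_iff_of_pos hA hC' hp (mor_map hA b') (hn b') h2 b').2 (val_map hA P b')
  exact val_unique hA e1 e2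

private theorem ip_ne_im : ip k ≠ im k := by
  intro h
  have h1 : (1 : k) = -1 := by
    have := congrArg (fun b : BPt k => match b with
      | .aff x _ _ => x
      | .inf e _ => e) h
    exact this
  have h2 : (2 : k) = 0 := by linear_combination h1
  exact two_ne_zero h2

private theorem prod_inf (hS : S.Smooth) {p : BPt L} (hp : S.Mor p) (hn : NCst k p) :
    S.prod (S.fib p (ip k)) (S.fib p (ip k)) = 0 ∧
      S.prod (S.fib p (im k)) (S.fib p (im k)) = 0 := by
  have h3 : ((3 : ℤ) : ℚ) ≠ 0 := by norm_num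
  have hl := lin_inf hS hp hn
  constructor
  · have h1 := prod_linEq hS (linEq_refl (S.fib p (ip k))) hl
    rw [prod_zsmul_right hS, prod_zsmul_right hS, prod_fib_ne hS hp hn ip_ne_im, smul_zero] at h1
    exact (smul_eq_zero.1 h1).resolve_left h3
  · have h1 := prod_linEq hS (linEq_refl (S.fib p (im k))) hl
    rw [prod_zsmul_right hS, prod_zsmul_right hS, prod_fib_ne hS hp hn ip_ne_im.symm,
      smul_zero] at h1
    exact (smul_eq_zero.1 h1.symm).resolve_left h3

theorem prod_fib_fib (hS : S.Smooth) {p : BPt L} (hp : S.Mor p) (hn : NCst k p) (b b' : BPt k) :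
    S.prod (S.fib p b) (S.fib p b') = 0 := by
  by_cases hb : b = b'
  swap
  · exact prod_fib_ne hS hp hn hb
  subst hb
  match b with
  | .inf e h =>
    have h1 : (e - 1) * (e + 1) = 0 := by linear_combination h
    rcases mul_eq_zero.1 h1 with h2 | h2
    · have he : e = 1 := sub_eq_zero.1 h2
      subst he
      exact (prod_inf hS hp hn).1
    · have he : e = -1 := eq_neg_of_add_eq_zero_left h2
      subst he
      exact (prod_inf hS hp hn).2
  | .aff c d h =>
    have hl := lin_fib hS hp hn c d h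
    have h1 := prod_linEq hS (linEq_refl (S.fib p (.aff c d h))) hl
    have h2 : S.prod (S.fib p (.aff c d h)) (S.infD p) = 0 := by
      unfold infD
      rw [prod_add_right, prod_fib_ne hS hp hn (by intro h'; cases h'),
        prod_fib_ne hS hp hn (by intro h'; cases h'), add_zero]
    rw [h2, prod_add_right] at h1
    by_cases hi : BPt.aff c d h = BPt.iot (.aff c d h)
    · rw [← hi, ← two_smul ℚ] at h1
      exact (smul_eq_zero.1 h1).resolve_left two_ne_zero
    · rw [prod_fib_ne hS hp hn hi, add_zero] at h1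
      exact h1

theorem prod_fib_alp (hS : S.Smooth) {ζ : k} (hζ : ζ ^ 2 + ζ + 1 = 0) {p : BPt L} (hp : S.Mor p)
    (hn : NCst k p) (b b' : BPt k) :
    S.prod (S.fib p b) (S.fib (p.alp (algebraMap k L ζ) (alpz L hζ)) b') = 0 := by
  obtain ⟨b'', rfl⟩ := BPt.alp_surj hζ b'
  rw [fib_alp]
  exact prod_fib_fib hS hp hn b b''

theorem prod_disj (hS : S.Smooth) {ζ : k} (hζ : ζ ^ 2 + ζ + 1 = 0) {p q : BPt L} (hp : S.Mor p)
    (hq : S.Mor q) (h1 : p ≠ q) (h2 : p.alp (algebraMap k L ζ) (alpz L hζ) ≠ q) (D D' : S.Div)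
    (hD : ∀ C, D C ≠ 0 → S.gam p q C ≠ 0)
    (hD' : ∀ C, D' C ≠ 0 → S.gam (p.alp (algebraMap k L ζ) (alpz L hζ)) q C ≠ 0) :
    S.prod D D' = 0 := by
  have hA := afacts hS
  refine prod_eq_zero hA _ _ fun P C C' hC hC' e1 e2 => ?_
  obtain ⟨b, hb⟩ := val_exists hA hp P
  have f1 := (val_iff_of_pos hA hC hp hq h1 (hD C e1) b).1 hb
  have f2 := (val_iff_of_pos hA hC' (mor_alp hζ hp) hq h2 (hD' C' e2) (b.alp ζ hζ)).1
    (val_alp hζ hb)
  exact BPt.alp_ne hζ b (val_unique hA f2 f1)

end Surf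

end HB
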