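import Pool.Agent.HB.F.Dvs
import Pool.Agent.HB.F.Zero
import Pool.Agent.HB.F.Bil
import Pool.Agent.HB.F.Alg

/-!
# HB-F-Chern: the discriminant of the bundle in the Chow group

`Zd a = fib (pt a) p - fib (pt a) q`.  `c₁ = ∑ flagD i`, `c₂ = ∑_{i<j} flagD i . flagD j`.

PLAN.  `exists_bil hX` (`HB/F/Bil.lean`): `V`, `cl`, `B` with `B (cl D) (cl D') = prod D D'`, `B` symmetric,
`cl` constant on linear equivalence classes.  Apply `disc5_classes B` (`HB/F/Alg.lean`) with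
`Z1 Z2 Z3 := cl (Zd 0), cl (Zd 1), cl (Zd 2)`, `F1 F2 F3 := cl (fib (pt a) (ip k))`, `a = 0, 1, 2`,
`G1 G2 G3 := cl (fib (pt a) (im k))`, `D12 := cl D01`, `D32 := cl D21`, `W := cl WD`,
`N1 N2 N3 := cl (ND 0), cl (ND 1), cl (ND 2)`, `M1 := cl (ND 3)`, `M2 := cl (ND 4)`.
(`cl (3 • D) = 3 • cl D` with `(3 : ℤ)`, convert to `(3 : ℚ) •` by `Int.cast_smul_eq_zsmul` or so.)
* `hN1 ... hM2`: the class relations as linear equivalences, the function being `(ρ i)⁻¹`:
  `lin0 ... lin4` below: coefficients by `ND_apply`, `WD_apply`, `gam_apply`, `D01_apply`, `D21_apply`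
  (`C.dv.v f = C.ord f` is `C.dv_v`), `fib p b = gam p (b.map K)`, `pt 3 = (ip k).map K`, `pt 4 = (im k).map K`.
* `hF1 ...`, `hZ1F ...`: `prod_fib_fib hX (G.mor a) (G.ncst a _)`; `hF13`, `hG13`, `hZ13`: `prod_fib_alp` with
  `G.pt_two` (`pt 2 = (pt 0).alp`).
* `h12`: `prod_disj`.  `hD12`, `hD32`: `three_prod_D_D`; `hF12, ...`: `three_prod_fib_D`; `hF21, ...,
  hZ12, hZ32`: `prod_fib_D`, for the pairs `G.pair0 hX`, `G.pair2 hX` (`HB/F/GeoP.lean`) and `three_D01`,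
  `three_D21`.
* `disc5 B (cl ∘ flagD) = 10 c₂ - 4 c₁²`: unfold, `map_sum`.
-/

set_option autoImplicit false

open IsLocalRing

namespace HB

variable {k K : Type} [Field k] [Field K] [Algebra k K] [CharZero k] [IsAlgClosed k] [CharZero K]

namespace Geo

variable {X : Surf k K} (G : Geo X) (Z : ZPair k)

/-- the pull-back of `p - q` by the mark `a` -/
noncomputable def Zd (a : Fin 5) : X.Div := X.fib (G.pt a) Z.p - X.fib (G.pt a) Z.q

variable {G Z}

private theorem chA (hX : X.Smooth) (a : Fin 5) (ha : a < 3) (b : BPt k) (C : X.PD) :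
    X.fib (G.pt a) b C = C.dv.iB (G.pt a) (b.map K) := by
  unfold Surf.fib
  exact Surf.gam_apply (Surf.afacts hX) (G.mor a) (Surf.mor_map (Surf.afacts hX) b) (G.ncst a ha b) C

private theorem chip (hX : X.Smooth) (a : Fin 5) (ha : a < 3) (C : X.PD) :
    X.fib (G.pt a) (ip k) C = C.dv.iB (G.pt a) (G.pt 3) := by
  rw [chA hX a ha, G.pt_three]

private theorem chim (hX : X.Smooth) (a : Fin 5) (ha : a < 3) (C : X.PD) :
    X.fib (G.pt a) (im k) C = C.dv.iB (G.pt a) (G.pt 4) := by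
  rw [chA hX a ha, G.pt_four]

private theorem chZ (hX : X.Smooth) (a : Fin 5) (ha : a < 3) (C : X.PD) :
    G.Zd Z a C = C.dv.iB (G.pt a) (Z.p.map K) - C.dv.iB (G.pt a) (Z.q.map K) := by
  unfold Zd
  rw [Finsupp.sub_apply, chA hX a ha, chA hX a ha]

omit [CharZero K] in
private theorem ch_lin {D D' : X.Div} {f : K} (h0 : f ≠ 0)
    (h : ∀ C : X.PD, D C - D' C = - C.dv.v f) : X.LinEq D D' :=
  ⟨f⁻¹, inv_ne_zero h0, fun C => by rw [Finsupp.sub_apply, ← C.dv_v, h, C.dv.inv h0]⟩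

theorem lin0 (hX : X.Smooth) {ρ : Fin 5 → K} (hR : RFive G Z ρ) :
    X.LinEq ((3 : ℤ) • G.ND Z 0) ((3 : ℤ) • G.Zd Z 0 + (X.fib (G.pt 0) (ip k) +
      X.fib (G.pt 0) (im k)) + (6 : ℤ) • G.D01 + G.WD) := by
  refine ch_lin (hR.ne 0) fun C => ?_
  have h := hR.rel0 C.dv
  have h1 := D01_apply (G := G) hX C
  simp only [Finsupp.add_apply, Finsupp.smul_apply, smul_eq_mul, ND_apply hX hR, WD_apply hX,
    chZ hX 0 (by decide), chip hX 0 (by decide), chim hX 0 (by decide)]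
  linarith

theorem lin1 (hX : X.Smooth) {ρ : Fin 5 → K} (hR : RFive G Z ρ) :
    X.LinEq ((3 : ℤ) • G.ND Z 1) ((3 : ℤ) • G.Zd Z 1 + (X.fib (G.pt 1) (ip k) +
      X.fib (G.pt 1) (im k)) + (6 : ℤ) • (G.D01 + G.D21) + G.WD) := by
  refine ch_lin (hR.ne 1) fun C => ?_
  have h := hR.rel1 C.dv
  have h1 := D01_apply (G := G) hX C
  have h2 := D21_apply (G := G) hX C
  simp only [Finsupp.add_apply, Finsupp.smul_apply, smul_eq_mul, ND_apply hX hR, WD_apply hX,
    chZ hX 1 (by decide), chip hX 1 (by decide), chim hX 1 (by decide)]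
  linarith

theorem lin2 (hX : X.Smooth) {ρ : Fin 5 → K} (hR : RFive G Z ρ) :
    X.LinEq ((3 : ℤ) • G.ND Z 2) ((3 : ℤ) • G.Zd Z 2 + (X.fib (G.pt 2) (ip k) +
      X.fib (G.pt 2) (im k)) + (6 : ℤ) • G.D21 + G.WD) := by
  refine ch_lin (hR.ne 2) fun C => ?_
  have h := hR.rel2 C.dv
  have h2 := D21_apply (G := G) hX C
  simp only [Finsupp.add_apply, Finsupp.smul_apply, smul_eq_mul, ND_apply hX hR, WD_apply hX,
    chZ hX 2 (by decide), chip hX 2 (by decide), chim hX 2 (by decide)]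
  linarith

theorem lin3 (hX : X.Smooth) {ρ : Fin 5 → K} (hR : RFive G Z ρ) :
    X.LinEq ((3 : ℤ) • G.ND Z 3) ((2 : ℤ) • (X.fib (G.pt 0) (ip k) + X.fib (G.pt 1) (ip k) +
      X.fib (G.pt 2) (ip k)) + G.WD) := by
  refine ch_lin (hR.ne 3) fun C => ?_
  have h := hR.rel3 C.dv
  simp only [Finsupp.add_apply, Finsupp.smul_apply, smul_eq_mul, ND_apply hX hR, WD_apply hX,
    chip hX 0 (by decide), chip hX 1 (by decide), chip hX 2 (by decide)]
  linarith

theorem lin4 (hX : X.Smooth) {ρ : Fin 5 → K} (hR : RFive G Z ρ) :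
    X.LinEq ((3 : ℤ) • G.ND Z 4) ((2 : ℤ) • (X.fib (G.pt 0) (im k) + X.fib (G.pt 1) (im k) +
      X.fib (G.pt 2) (im k)) + G.WD) := by
  refine ch_lin (hR.ne 4) fun C => ?_
  have h := hR.rel4 C.dv
  simp only [Finsupp.add_apply, Finsupp.smul_apply, smul_eq_mul, ND_apply hX hR, WD_apply hX,
    chim hX 0 (by decide), chim hX 1 (by decide), chim hX 2 (by decide)]
  linarith

theorem chern (hX : X.Smooth) {ρ : Fin 5 → K} (hR : RFive G Z ρ) :
    (10 : ℚ) • (∑ i, ∑ j, if i < j then X.prod (G.flagD Z i) (G.flagD Z j) else 0) -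
      (4 : ℚ) • X.prod (∑ i, G.flagD Z i) (∑ i, G.flagD Z i) =
      (2 : ℚ) • (X.prod (G.Zd Z 0) (G.Zd Z 1) + X.prod (G.Zd Z 2) (G.Zd Z 1)) := by
  obtain ⟨V, _, _, cl, B, hB, hs, hl⟩ := Surf.exists_bil hX
  have hz : ∀ (n : ℤ) (D : X.Div), cl (n • D) = (n : ℚ) • cl D := by
    intro n D
    rw [map_zsmul, Int.cast_smul_eq_zsmul]
  have m0 := G.mor 0
  have m1 := G.mor 1
  have m2 := G.mor 2
  have n0 := G.ncst 0 (by decide)
  have n1 := G.ncst 1 (by decide)
  have n2 := G.ncst 2 (by decide)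
  have P0 := G.pair0 hX
  have P2 := G.pair2 hX
  have T0 := three_D01 (G := G) hX
  have T2 := three_D21 (G := G) hX
  -- products of fibres
  have ff : ∀ (a : Fin 5), a < 3 → ∀ b b' : BPt k,
      X.prod (X.fib (G.pt a) b) (X.fib (G.pt a) b') = 0 := fun a ha b b' =>
    Surf.prod_fib_fib hX (G.mor a) (G.ncst a ha) b b'
  have fa : ∀ b b' : BPt k, X.prod (X.fib (G.pt 0) b) (X.fib (G.pt 2) b') = 0 := by
    intro b b'
    rw [G.pt_two]
    exact Surf.prod_fib_alp hX G.hζ m0 n0 b b'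
  have hZf : ∀ (a : Fin 5), a < 3 → ∀ b : BPt k,
      B (cl (G.Zd Z a)) (cl (X.fib (G.pt a) b)) = 0 := by
    intro a ha b
    unfold Zd
    rw [map_sub, map_sub, LinearMap.sub_apply, hB, hB, ff a ha, ff a ha, sub_zero]
  have hZZ : ∀ (a : Fin 5), a < 3 → B (cl (G.Zd Z a)) (cl (G.Zd Z a)) = 0 := by
    intro a ha
    have h1 : cl (G.Zd Z a) = cl (X.fib (G.pt a) Z.p) - cl (X.fib (G.pt a) Z.q) := by
      unfold Zd; rw [map_sub]
    rw [h1]
    simp only [map_sub, LinearMap.sub_apply, hB, ff a ha, sub_zero]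
  have hZ13 : B (cl (G.Zd Z 0)) (cl (G.Zd Z 2)) = 0 := by
    unfold Zd
    simp only [map_sub, LinearMap.sub_apply, hB, fa, sub_zero]
  have key := disc5_classes B hs (cl (G.Zd Z 0)) (cl (G.Zd Z 1)) (cl (G.Zd Z 2))
    (cl (X.fib (G.pt 0) (ip k))) (cl (X.fib (G.pt 1) (ip k))) (cl (X.fib (G.pt 2) (ip k)))
    (cl (X.fib (G.pt 0) (im k))) (cl (X.fib (G.pt 1) (im k))) (cl (X.fib (G.pt 2) (im k)))
    (cl G.D01) (cl G.D21) (cl G.WD) (cl (G.ND Z 0)) (cl (G.ND Z 1)) (cl (G.ND Z 2))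
    (cl (G.ND Z 3)) (cl (G.ND Z 4))
    (by
      have h := hl _ _ (lin0 hX hR)
      simp only [map_add, hz] at h
      exact_mod_cast h)
    (by
      have h := hl _ _ (lin1 hX hR)
      simp only [map_add, hz] at h
      exact_mod_cast h)
    (by
      have h := hl _ _ (lin2 hX hR)
      simp only [map_add, hz] at h
      exact_mod_cast h)
    (by
      have h := hl _ _ (lin3 hX hR)
      simp only [map_add, hz] at h
      exact_mod_cast h)
    (by
      have h := hl _ _ (lin4 hX hR)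
      simp only [map_add, hz] at h
      exact_mod_cast h)
    (by rw [hB, ff 0 (by decide)]) (by rw [hB, ff 0 (by decide)])
    (by rw [hB, ff 1 (by decide)]) (by rw [hB, ff 1 (by decide)])
    (by rw [hB, ff 2 (by decide)]) (by rw [hB, ff 2 (by decide)])
    (by rw [hB, ff 0 (by decide)]) (by rw [hB, ff 1 (by decide)]) (by rw [hB, ff 2 (by decide)])
    (by rw [hB, fa]) (by rw [hB, fa])
    (hZf 0 (by decide) _) (hZf 0 (by decide) _) (hZf 1 (by decide) _) (hZf 1 (by decide) _)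
    (hZf 2 (by decide) _) (hZf 2 (by decide) _)
    (hZZ 0 (by decide)) (hZZ 1 (by decide)) (hZZ 2 (by decide)) hZ13
    (by
      rw [hB]
      refine Surf.prod_disj hX G.hζ m0 m1 P0.ne ?_ _ _ ?_ ?_
      · rw [← G.pt_two]
        exact P2.ne
      · intro C hC
        rw [← T0, Finsupp.smul_apply, smul_eq_mul]
        exact mul_ne_zero three_ne_zero hC
      · intro C hC
        rw [← G.pt_two, ← T2, Finsupp.smul_apply, smul_eq_mul]
        exact mul_ne_zero three_ne_zero hC)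
    (by
      rw [← map_add, hB, hB]
      exact Surf.three_prod_D_D hX P0 _ T0)
    (by
      rw [← map_add, hB, hB]
      exact Surf.three_prod_D_D hX P2 _ T2)
    (by rw [hB, hB]; exact Surf.three_prod_fib_D hX P0 _ T0 _)
    (by rw [hB, hB]; exact Surf.three_prod_fib_D hX P0 _ T0 _)
    (by rw [hB, hB]; exact (Surf.prod_fib_D hX P0 _ T0 _).symm)
    (by rw [hB, hB]; exact (Surf.prod_fib_D hX P0 _ T0 _).symm)
    (by rw [hB, hB]; exact Surf.three_prod_fib_D hX P2 _ T2 _)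
    (by rw [hB, hB]; exact Surf.three_prod_fib_D hX P2 _ T2 _)
    (by rw [hB, hB]; exact (Surf.prod_fib_D hX P2 _ T2 _).symm)
    (by rw [hB, hB]; exact (Surf.prod_fib_D hX P2 _ T2 _).symm)
    (by
      unfold Zd
      rw [map_sub, map_sub, map_sub, map_sub, LinearMap.sub_apply, LinearMap.sub_apply, hB, hB, hB,
        hB, Surf.prod_fib_D hX P0 _ T0, Surf.prod_fib_D hX P0 _ T0])
    (by
      unfold Zd
      rw [map_sub, map_sub, map_sub, map_sub, LinearMap.sub_apply, LinearMap.sub_apply, hB, hB, hB,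
        hB, Surf.prod_fib_D hX P2 _ T2, Surf.prod_fib_D hX P2 _ T2])
  have e : (![cl (G.ND Z 3) - (cl (X.fib (G.pt 0) (ip k)) + cl (X.fib (G.pt 1) (ip k)) +
        cl (X.fib (G.pt 2) (ip k))),
      cl (G.ND Z 4) - (cl (X.fib (G.pt 0) (im k)) + cl (X.fib (G.pt 1) (im k)) +
        cl (X.fib (G.pt 2) (im k))),
      cl (G.ND Z 1) - (3 : ℚ) • cl G.D01 - (3 : ℚ) • cl G.D21,
      cl (G.ND Z 0) - cl G.D01, cl (G.ND Z 2) - cl G.D21] : Fin 5 → V) =
      fun i => cl (G.flagD Z i) := by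
    have t0 : (3 : ℚ) • cl G.D01 = cl (X.gam (G.pt 0) (G.pt 1)) := by
      rw [← T0, hz]; norm_num
    have t2 : (3 : ℚ) • cl G.D21 = cl (X.gam (G.pt 2) (G.pt 1)) := by
      rw [← T2, hz]; norm_num
    have f3 : ∀ a : Fin 5, X.gam (G.pt a) (G.pt 3) = X.fib (G.pt a) (ip k) := by
      intro a; unfold Surf.fib; rw [G.pt_three]
    have f4 : ∀ a : Fin 5, X.gam (G.pt a) (G.pt 4) = X.fib (G.pt a) (im k) := by
      intro a; unfold Surf.fib; rw [G.pt_four]
    funext i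
    fin_cases i
    · change _ = cl (G.ND Z 3 - (X.gam (G.pt 0) (G.pt 3) + X.gam (G.pt 1) (G.pt 3) +
        X.gam (G.pt 2) (G.pt 3)))
      rw [f3, f3, f3, map_sub, map_add, map_add]
      rfl
    · change _ = cl (G.ND Z 4 - (X.gam (G.pt 0) (G.pt 4) + X.gam (G.pt 1) (G.pt 4) +
        X.gam (G.pt 2) (G.pt 4)))
      rw [f4, f4, f4, map_sub, map_add, map_add]
      rfl
    · change _ = cl (G.ND Z 1 - X.gam (G.pt 0) (G.pt 1) - X.gam (G.pt 2) (G.pt 1))
      rw [map_sub, map_sub, ← t0, ← t2]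
      rfl
    · change _ = cl (G.ND Z 0 - G.D01)
      rw [map_sub]
      rfl
    · change _ = cl (G.ND Z 2 - G.D21)
      rw [map_sub]
      rfl
  rw [e] at key
  unfold disc5 at key
  rw [hB, hB] at key
  rw [← key]
  congr 1
  · congr 1
    refine Finset.sum_congr rfl fun i _ => Finset.sum_congr rfl fun j _ => ?_
    split_ifs
    · rw [hB]
    · rfl
  · rw [← map_sum, hB]

end Geo

end HB
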