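import Pool.Agent.HB.F.Vals
import Pool.Agent.HB.F.Congr

/-!
# HB-F-Coin: restrictions to the components of coincidence divisors

`hC : S.gam p q C ≠ 0`: on the curve `C` the points `p` and `q` coincide.

PLAN.  In all three theorems use `inter_congr_van`; at `P` on `C` take the standard local equations
(`exists_LE`, `isEq_gam`).
* `inter_fib_coin`: `p` and `q` have the same value at `P` (`val_iff_of_pos`).  If it is `b`
  (use `val_map_iff`): `b = aff c d`, `d ≠ 0`: `f = p.x - c`, `f' = q.x - c`, `f - f' = p.x - q.x` is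
  in the maximal ideal of `O_C` (`van_x_of_pos`); `d = 0`: second coordinates; `b = inf e`:
  `f = p.xh - 0`, `f' = q.xh - 0`, `van_xh_of_pos`.  Otherwise `f = f' = 1` (`van_zero`).
  (Here `(b.map L).x = algebraMap c` etc. by `rfl`.)
* `inter_gam_fib` (`hC : S.gam p (b.map L) C ≠ 0`, `C` is a component of the fibre `{p = b}`): at `P`
  on `C` the point `p` has the value `b` (`val_iff_of_pos`, `val_map`).  If `q` has the value `b` at
  `P`: `f = p.x - q.x`, `f' = q.x - c` and `f + f' = p.x - c` is in the maximal ideal of `O_C`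
  (similarly in the other cases).  Otherwise `f = f' = 1`.
* `inter_iot_coin`: `p` has the value `b` iff `p.iot` has the value `b.iot` (`val_iot`, `iot` is an
  involution).  At `P`, let `b` be the common value of `p` and `q`.  If `b.iot = b`: `b = aff c 0`,
  the common value of `p`, `q.iot` and of `p`, `p.iot` is `b`: `f = p.y - q.iot.y = p.y + q.y`,
  `f' = p.y - p.iot.y = 2 p.y`, `f - f' = q.y - p.y` (`van_x_of_pos`).  If `b.iot ≠ b`: no common
  values, `f = f' = 1`.
-/

set_option autoImplicit false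

open IsLocalRing

namespace HB

variable {k L : Type} [Field k] [Field L] [Algebra k L]

namespace Surf

variable {S : Surf k L}

theorem inter_fib_coin (hA : AFacts S) [CharZero k] [IsAlgClosed k] {p q : BPt L}
    (hp : S.Mor p) (hq : S.Mor q) (hpq : p ≠ q) {C : S.PD} (hC : S.gam p q C ≠ 0) {b : BPt k}
    (hpb : p ≠ b.map L) (hqb : q ≠ b.map L) (h1 : S.fib p b C = 0) (h2 : S.fib q b C = 0) :
    S.inter (S.fib p b) C = S.inter (S.fib q b) C := by
  refine inter_congr_van hA C (S.fib p b) (S.fib q b) h1 h2 fun P hP => ?_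
  have hm := mor_map hA b
  have hvb := val_map hA P b
  have hiff := val_iff_of_pos hA hP hp hq hpq hC b
  by_cases hv : Val P p b
  · have hw : Val P q b := hiff.1 hv
    cases b with
    | aff c d h =>
      obtain ⟨hx, hy⟩ := van_x_of_pos hA hP hp hq hpq hC hv
      by_cases hd : d = 0
      · refine ⟨_, _, isEq_gam hA hp hm hpb (LE.y c d h hd hv hvb),
          isEq_gam hA hq hm hqb (LE.y c d h hd hw hvb), Or.inl ?_⟩
        rw [sub_sub_sub_cancel_right]
        exact hy
      · refine ⟨_, _, isEq_gam hA hp hm hpb (LE.x c d h hd hv hvb),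
          isEq_gam hA hq hm hqb (LE.x c d h hd hw hvb), Or.inl ?_⟩
        rw [sub_sub_sub_cancel_right]
        exact hx
    | inf e h =>
      have hx := van_xh_of_pos hA hP hp hq hpq hC hv
      refine ⟨_, _, isEq_gam hA hp hm hpb (LE.i e h hv hvb),
        isEq_gam hA hq hm hqb (LE.i e h hw hvb), Or.inl ?_⟩
      rw [sub_sub_sub_cancel_right]
      exact hx
  · refine ⟨_, _, isEq_gam hA hp hm hpb (LE.one fun b' hb' => ?_),
      isEq_gam hA hq hm hqb (LE.one fun b' hb' => ?_), Or.inl ?_⟩
    · rw [(val_map_iff hA P b b').1 hb'.2] at hb'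
      exact hv hb'.1
    · rw [(val_map_iff hA P b b').1 hb'.2] at hb'
      exact hv (hiff.2 hb'.1)
    · rw [sub_self]
      exact van_zero _

theorem inter_gam_fib (hA : AFacts S) [CharZero k] [IsAlgClosed k] {p q : BPt L}
    (hp : S.Mor p) (hq : S.Mor q) (hpq : p ≠ q) {C : S.PD} {b : BPt k}
    (hpb : p ≠ b.map L) (hqb : q ≠ b.map L) (hC : S.fib p b C ≠ 0) (h1 : S.gam p q C = 0)
    (h2 : S.fib q b C = 0) :
    S.inter (S.gam p q) C = S.inter (S.fib q b) C := by
  refine inter_congr_van hA C (S.gam p q) (S.fib q b) h1 h2 fun P hP => ?_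
  have hm := mor_map hA b
  have hvb := val_map hA P b
  have hv : Val P p b := (val_iff_of_pos hA hP hp hm hpb hC b).2 hvb
  by_cases hw : Val P q b
  · cases b with
    | aff c d h =>
      obtain ⟨hx, hy⟩ := van_x_of_pos hA hP hp hm hpb hC hv
      by_cases hd : d = 0
      · refine ⟨_, _, isEq_gam hA hp hq hpq (LE.y c d h hd hv hw),
          isEq_gam hA hq hm hqb (LE.y c d h hd hw hvb), Or.inr ?_⟩
        rw [sub_add_sub_cancel]
        exact hy
      · refine ⟨_, _, isEq_gam hA hp hq hpq (LE.x c d h hd hv hw),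
          isEq_gam hA hq hm hqb (LE.x c d h hd hw hvb), Or.inr ?_⟩
        rw [sub_add_sub_cancel]
        exact hx
    | inf e h =>
      have hx := van_xh_of_pos hA hP hp hm hpb hC hv
      refine ⟨_, _, isEq_gam hA hp hq hpq (LE.i e h hv hw),
        isEq_gam hA hq hm hqb (LE.i e h hw hvb), Or.inr ?_⟩
      rw [sub_add_sub_cancel]
      exact hx
  · refine ⟨_, _, isEq_gam hA hp hq hpq (LE.one fun b' hb' => ?_),
      isEq_gam hA hq hm hqb (LE.one fun b' hb' => ?_), Or.inl ?_⟩
    · rw [val_unique hA hb'.1 hv] at hb'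
      exact hw hb'.2
    · rw [(val_map_iff hA P b b').1 hb'.2] at hb'
      exact hw hb'.1
    · rw [sub_self]
      exact van_zero _

private theorem iot_y (p : BPt L) : p.iot.y = -p.y := by
  cases p with
  | aff x y h => rfl
  | inf e h => exact neg_zero.symm

theorem inter_iot_coin (hA : AFacts S) [CharZero k] [IsAlgClosed k] {p q : BPt L}
    (hp : S.Mor p) (hq : S.Mor q) (hpq : p ≠ q) {C : S.PD} (hC : S.gam p q C ≠ 0)
    (hpi : p ≠ q.iot) (hpp : p ≠ p.iot) (h1 : S.gam p q.iot C = 0) (h2 : S.gam p p.iot C = 0) :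
    S.inter (S.gam p q.iot) C = S.inter (S.gam p p.iot) C := by
  refine inter_congr_van hA C (S.gam p q.iot) (S.gam p p.iot) h1 h2 fun P hP => ?_
  obtain ⟨b, hv⟩ := val_exists hA hp P
  have hw : Val P q b := (val_iff_of_pos hA hP hp hq hpq hC b).1 hv
  have hvi := val_iot hv
  have hwi := val_iot hw
  have hmp := mor_iot hp
  have hmq := mor_iot hq
  by_cases hb : b.iot = b
  · cases b with
    | aff c d h =>
      have hd : d = 0 := by
        have h3 : -d = d := by
          have h4 : (BPt.aff c (-d) (by rw [neg_sq, h]) : BPt k) = BPt.aff c d h := hb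
          exact (BPt.aff.inj h4).2
        have h5 : (2 : k) * d = 0 := by linear_combination -h3
        exact (mul_eq_zero.1 h5).resolve_left two_ne_zero
      rw [hb] at hvi hwi
      obtain ⟨_, hy⟩ := van_x_of_pos hA hP hp hq hpq hC hv
      refine ⟨_, _, isEq_gam hA hp hmq hpi (LE.y c d h hd hv hwi),
        isEq_gam hA hp hmp hpp (LE.y c d h hd hv hvi), Or.inl ?_⟩
      rw [iot_y, iot_y]
      have h6 : p.y - -q.y - (p.y - -p.y) = -(p.y - q.y) := by ring
      rw [h6]
      exact hy.neg
    | inf e h =>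
      exfalso
      have h3 : -e = e := by
        have h4 : (BPt.inf (-e) (by rw [neg_sq, h]) : BPt k) = BPt.inf e h := hb
        exact BPt.inf.inj h4
      have h5 : (2 : k) * e = 0 := by linear_combination -h3
      have h6 : e = 0 := (mul_eq_zero.1 h5).resolve_left two_ne_zero
      rw [h6] at h
      simp at h
  · refine ⟨_, _, isEq_gam hA hp hmq hpi (LE.one fun b' hb' => ?_),
      isEq_gam hA hp hmp hpp (LE.one fun b' hb' => ?_), Or.inl ?_⟩
    · exact hb ((val_unique hA hwi hb'.2).trans (val_unique hA hb'.1 hv))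
    · exact hb ((val_unique hA hvi hb'.2).trans (val_unique hA hb'.1 hv))
    · rw [sub_self]
      exact van_zero _

end Surf

end HB
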