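import Pool.Agent.HB.Pl.RT
import Pool.Agent.HB.Pl.KapB

/-!
# HB-F-DegRT: the fibres of `(x, y)` and `(x, -y)` have the same degree (residue theorem)

`M` function field of one variable, `x, y ∈ M` with `y² = x⁶ + 1`, `x` transcendental over `k`;
`c, d ∈ k` with `d² = c⁶ + 1`, `d ≠ 0`.

PLAN.  `RT` (`HB/Pl/RT.lean`) with `g := x - c` (transcendental; `M / k(g)` finite by
`FF1.finite_adjoin`) and `A := y⁻¹` (`y ≠ 0`).
`h1`: `ow w g ≠ 0`.  If `ow w g > 0`: `ev x = c`, so `x, y ∈ w`, `ev y ^ 2 = c⁶ + 1 = d²`,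
`ev y = ± d ≠ 0`, `y⁻¹ ∈ w`, `ev y⁻¹ = (ev y)⁻¹`.  If `ow w g < 0`: `ow w x < 0`, `2 ow w y = ow w (x⁶ + 1) =
6 ow w x` (`ow_add_of_lt`), so `ow w y < 0`, `y⁻¹ ∈ w` and `ev y⁻¹ = 0`.
`h2`: `ow w (g - c') > 0`, i.e. `ev x = c'' := c + c'`.  If `ev y ≠ 0` then `ow w y⁻¹ = 0`.  If
`ev y = 0` then `c''⁶ = -1`, `y² = x⁶ - c''⁶ = (x - c'') u` with `ev u = 6 c''⁵ ≠ 0`, so
`ow w (x - c'') = 2 ow w y` and `- ow w (x - c'') < - ow w y = ow w y⁻¹` as `ow w y > 0`.
The result is `0 = ∑ w, ow w g * ev A = d⁻¹ (∑_{ev y = d} ow w g - ∑_{ev y = -d} ow w g)` in `k`; the poles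
do not contribute.  `W := ` the `w` in the set of `RT` with `ow w g > 0`.  (Char `0`.)
-/

set_option autoImplicit false

namespace HB.Pl

section

variable {k M : Type} [Field k] [CharZero k] [Field M] [Algebra k M]

private theorem drt_y0 (x y : M) (h : y ^ 2 = x ^ 6 + 1) (hx : Transcendental k x) : y ≠ 0 := by
  rintro rfl
  apply hx
  have h1 : x ^ 6 + 1 = 0 := by rw [← h]; ring
  refine ⟨(Polynomial.X ^ 6 + 1 : Polynomial k), ?_, ?_⟩
  · have h2 : (Polynomial.X ^ 6 + 1 : Polynomial k) =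
        Polynomial.X ^ 6 + Polynomial.C 1 := by simp
    rw [h2]
    exact Polynomial.X_pow_add_C_ne_zero (by norm_num) 1
  · simp only [map_add, map_pow, Polynomial.aeval_X, map_one]
    exact h1

/-- at a finite place -/
private theorem drt_fin {w : ValuationSubring M} (hw : IsPl k w) {x y : M}
    (h : y ^ 2 = x ^ 6 + 1) (hy0 : y ≠ 0) {e : k}
    (hg : x - algebraMap k M e ∈ w.nonunits) :
    x ∈ w ∧ y ∈ w ∧ ev k w x = e ∧ ev k w y ^ 2 = e ^ 6 + 1 := by
  have he : ev k w x = e := ev_unique hw hg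
  have hxw : x ∈ w := by
    have h1 := w.add_mem _ _ (w.nonunits_subset hg) (hw.alg e)
    rwa [sub_add_cancel] at h1
  have h6 : x ^ 6 ∈ w := pow_mem hxw 6
  have h61 : x ^ 6 + 1 ∈ w := w.add_mem _ _ h6 w.one_mem
  have hyw : y ∈ w := by
    rw [mem_iff hw hy0]
    rw [← h, mem_iff hw (pow_ne_zero 2 hy0), ow_pow hw hy0] at h61
    push_cast at h61
    omega
  refine ⟨hxw, hyw, he, ?_⟩
  rw [← ev_pow hw hyw, h, ev_add hw h6 w.one_mem, ev_pow hw hxw, he, ev_one hw]

/-- at an infinite place -/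
private theorem drt_inf {w : ValuationSubring M} (hw : IsPl k w) {x y : M}
    (h : y ^ 2 = x ^ 6 + 1) (hy0 : y ≠ 0) {c : k} (hg0 : x - algebraMap k M c ≠ 0)
    (hg : ow w (x - algebraMap k M c) < 0) :
    y⁻¹ ∈ w ∧ ev k w y⁻¹ = 0 := by
  have h1 : x ≠ 0 ∧ ow w x = ow w (x - algebraMap k M c) := by
    have h2 := ow_add_of_lt hw (a := x - algebraMap k M c) (b := algebraMap k M c) hg0 (by
      by_cases hc : c = 0
      · left
        rw [hc, map_zero]
      · right
        rw [ow_const hw hc]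
        exact hg)
    rwa [sub_add_cancel] at h2
  have h3 := ow_add_of_lt hw (a := x ^ 6) (b := 1) (pow_ne_zero 6 h1.1) (by
    right
    rw [ow_one hw, ow_pow hw h1.1, h1.2]
    push_cast
    omega)
  have h4 := h3.2
  rw [← h, ow_pow hw hy0, ow_pow hw h1.1, h1.2] at h4
  push_cast at h4
  have h5 : y⁻¹ ∈ w.nonunits := by
    rw [nonunit_iff hw (inv_ne_zero hy0), ow_inv hw hy0]
    omega
  have h6 := w.nonunits_subset h5
  exact ⟨h6, (ev_eq_zero_iff hw h6).2 h5⟩

/-- the order of `y` at a zero of `y` -/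
private theorem drt_pole {w : ValuationSubring M} (hw : IsPl k w) {x y : M}
    (h : y ^ 2 = x ^ 6 + 1) (hy0 : y ≠ 0) {e : k} (hx0 : x - algebraMap k M e ≠ 0)
    (hg : 0 < ow w (x - algebraMap k M e)) :
    - ow w (x - algebraMap k M e) < ow w y⁻¹ := by
  obtain ⟨hxw, hyw, he, hye⟩ := drt_fin hw h hy0 ((nonunit_iff hw hx0).2 hg)
  by_cases h0 : ev k w y = 0
  · have h1 : 0 < ow w y := (nonunit_iff hw hy0).1 ((ev_eq_zero_iff hw hyw).1 h0)
    rw [h0] at hye
    have he0 : e ≠ 0 := by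
      rintro rfl
      norm_num at hye
    have hE : algebraMap k M e ∈ w := hw.alg e
    set E := algebraMap k M e with hEd
    have hE6 : E ^ 6 + 1 = 0 := by
      have h2 := congrArg (algebraMap k M) hye
      rw [map_add, map_pow, map_pow, map_zero, map_one, ← hEd] at h2
      linear_combination -h2
    set u : M := x ^ 5 + x ^ 4 * E + x ^ 3 * E ^ 2 + x ^ 2 * E ^ 3 + x * E ^ 4 + E ^ 5 with hu
    have hyu : y ^ 2 = (x - E) * u := by
      rw [h, hu]
      linear_combination (1 - 0) * hE6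
    have hu0 : u ≠ 0 := by
      intro h2
      rw [h2, mul_zero] at hyu
      exact pow_ne_zero 2 hy0 hyu
    have hX : ∀ n : ℕ, x ^ n ∈ w := fun n => pow_mem hxw n
    have hEn : ∀ n : ℕ, E ^ n ∈ w := fun n => pow_mem hE n
    have hEe : ev k w E = e := ev_const hw e
    have huw : u ∈ w := by
      rw [hu]
      exact w.add_mem _ _ (w.add_mem _ _ (w.add_mem _ _ (w.add_mem _ _ (w.add_mem _ _ (hX 5)
        (w.mul_mem _ _ (hX 4) hE)) (w.mul_mem _ _ (hX 3) (hEn 2)))
        (w.mul_mem _ _ (hX 2) (hEn 3))) (w.mul_mem _ _ hxw (hEn 4))) (hEn 5)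
    have hEx : u - algebraMap k M (6 * e ^ 5) ∈ w.nonunits := by
      have h2 : u - algebraMap k M (6 * e ^ 5) = (x - E) *
          (x ^ 4 + 2 * (x ^ 3 * E) + 3 * (x ^ 2 * E ^ 2) + 4 * (x * E ^ 3) + 5 * E ^ 4) := by
        rw [map_mul, map_pow, ← hEd, map_ofNat, hu]
        ring
      rw [h2]
      have hnat : ∀ n : ℕ, (n : M) ∈ w := fun n => by
        have h3 := hw.alg (n : k)
        rwa [map_natCast] at h3
      have h4 : x ^ 4 + 2 * (x ^ 3 * E) + 3 * (x ^ 2 * E ^ 2) + 4 * (x * E ^ 3) + 5 * E ^ 4 ∈ w :=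
        w.add_mem _ _ (w.add_mem _ _ (w.add_mem _ _ (w.add_mem _ _ (hX 4)
          (w.mul_mem _ _ (by exact_mod_cast hnat 2) (w.mul_mem _ _ (hX 3) hE)))
          (w.mul_mem _ _ (by exact_mod_cast hnat 3) (w.mul_mem _ _ (hX 2) (hEn 2))))
          (w.mul_mem _ _ (by exact_mod_cast hnat 4) (w.mul_mem _ _ hxw (hEn 3))))
          (w.mul_mem _ _ (by exact_mod_cast hnat 5) (hEn 4))
      exact nonunits_mul hw ((nonunit_iff hw hx0).2 hg) h4
    have hev : ev k w u = 6 * e ^ 5 := ev_unique hw hEx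
    have hune : ev k w u ≠ 0 := by
      rw [hev]
      exact mul_ne_zero (by norm_num) (pow_ne_zero 5 he0)
    have hou : ow w u = 0 := by
      have h2 : ¬ (0 < ow w u) := by
        rw [← nonunit_iff hw hu0]
        intro h3
        exact hune ((ev_eq_zero_iff hw huw).2 h3)
      have h3 := (mem_iff hw hu0).1 huw
      omega
    have h2 := congrArg (ow w) hyu
    rw [ow_pow hw hy0, ow_mul hw hx0 hu0, hou] at h2
    push_cast at h2
    rw [ow_inv hw hy0]
    omega
  · have h1 : ow w y = 0 := by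
      have h2 : ¬ (0 < ow w y) := by
        rw [← nonunit_iff hw hy0]
        intro h3
        exact h0 ((ev_eq_zero_iff hw hyw).2 h3)
      have h3 := (mem_iff hw hy0).1 hyw
      omega
    rw [ow_inv hw hy0, h1]
    omega

end

open Classical in
theorem rt_deg {k M : Type} [Field k] [IsAlgClosed k] [CharZero k] [Field M] [Algebra k M]
    (hM : FF1 k M) (x y : M) (h : y ^ 2 = x ^ 6 + 1) (hx : Transcendental k x) (c d : k)
    (hcd : d ^ 2 = c ^ 6 + 1) (hd : d ≠ 0) :
    ∃ W : Finset (ValuationSubring M),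
      (∀ w, w ∈ W ↔ IsPl k w ∧ 0 < ow w (x - algebraMap k M c)) ∧
      (∑ w ∈ W, if ev k w y = d then ow w (x - algebraMap k M c) else 0) =
        ∑ w ∈ W, if ev k w y = -d then ow w (x - algebraMap k M c) else 0 := by
  have hy0 := drt_y0 x y h hx
  set g : M := x - algebraMap k M c with hgd
  have hg : Transcendental k g := by
    intro h1
    apply hx
    have h2 := h1.add (isAlgebraic_algebraMap (R := k) (A := M) c)
    rwa [hgd, sub_add_cancel] at h2
  have hg0 : g ≠ 0 := by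
    intro h0
    rw [h0] at hg
    exact hg isAlgebraic_zero
  haveI := hM.finite_adjoin g hg
  have hpos : ∀ w : ValuationSubring M, IsPl k w → 0 < ow w g →
      y ∈ w ∧ y⁻¹ ∈ w ∧ (ev k w y = d ∨ ev k w y = -d) ∧ ev k w y⁻¹ = (ev k w y)⁻¹ := by
    intro w hw hp
    obtain ⟨hxw, hyw, he, hye⟩ := drt_fin hw h hy0 ((nonunit_iff hw hg0).2 hp)
    rw [← hcd] at hye
    have h1 : ev k w y = d ∨ ev k w y = -d := sq_eq_sq_iff_eq_or_eq_neg.1 hye
    have h2 : ev k w y ≠ 0 := by
      rcases h1 with h1 | h1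
      · rw [h1]; exact hd
      · rw [h1]; exact neg_ne_zero.2 hd
    exact ⟨hyw, (ev_inv hw hyw h2).1, h1, (ev_inv hw hyw h2).2⟩
  obtain ⟨W, hW, hs⟩ := RT g hg y⁻¹ (by
    intro w hw h1
    rcases lt_or_gt_of_ne h1 with h2 | h2
    · exact (drt_inf hw h hy0 hg0 h2).1
    · exact (hpos w hw h2).2.1) (by
    intro w hw c' _ h1
    right
    have h2 : g - algebraMap k M c' = x - algebraMap k M (c + c') := by
      rw [hgd, map_add]
      ring
    have h3 : x - algebraMap k M (c + c') ≠ 0 := by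
      intro h0
      apply hx
      rw [sub_eq_zero.1 h0]
      exact isAlgebraic_algebraMap _
    rw [h2] at h1 ⊢
    exact drt_pole hw h hy0 h3 h1)
  refine ⟨W.filter (fun w => 0 < ow w g), ?_, ?_⟩
  · intro w
    rw [Finset.mem_filter, hW]
    constructor
    · rintro ⟨⟨h1, _⟩, h3⟩
      exact ⟨h1, h3⟩
    · rintro ⟨h1, h3⟩
      exact ⟨⟨h1, h3.ne'⟩, h3⟩
  · have hdd : d ≠ -d := by
      intro h1
      apply hd
      have h2 : (2 : k) * d = 0 := by linear_combination h1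
      exact (mul_eq_zero.1 h2).resolve_left (by norm_num)
    have h1 : ∑ w ∈ W, (ow w g : k) * ev k w y⁻¹ =
        ∑ w ∈ W.filter (fun w => 0 < ow w g), (ow w g : k) * ev k w y⁻¹ := by
      rw [Finset.sum_filter]
      refine Finset.sum_congr rfl fun w hw => ?_
      have h2 := (hW w).1 hw
      split_ifs with h3
      · rfl
      · have h4 : ow w g < 0 := lt_of_le_of_ne (not_lt.1 h3) h2.2
        rw [(drt_inf h2.1 h hy0 hg0 h4).2, mul_zero]
    have h2 : ∑ w ∈ W.filter (fun w => 0 < ow w g), (ow w g : k) * ev k w y⁻¹ =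
        d⁻¹ * (∑ w ∈ W.filter (fun w => 0 < ow w g), (((if ev k w y = d then ow w g else 0 : ℤ) : k)
          - ((if ev k w y = -d then ow w g else 0 : ℤ) : k))) := by
      rw [Finset.mul_sum]
      refine Finset.sum_congr rfl fun w hw => ?_
      rw [Finset.mem_filter] at hw
      obtain ⟨_, _, h3, h4⟩ := hpos w ((hW w).1 hw.1).1 hw.2
      rw [h4]
      rcases h3 with h3 | h3
      · rw [h3, if_pos rfl, if_neg hdd]
        push_cast
        ring
      · rw [h3, if_pos rfl, if_neg (Ne.symm hdd), inv_neg]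
        push_cast
        ring
    rw [h1, h2, Finset.sum_sub_distrib] at hs
    have h3 := (mul_eq_zero.1 hs).resolve_left (inv_ne_zero hd)
    have h4 := sub_eq_zero.1 h3
    rw [← Int.cast_sum, ← Int.cast_sum] at h4
    exact_mod_cast h4

end HB.Pl
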