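import Pool.Agent.HB.F.DegPl
import Pool.Agent.HB.F.DegRT
import Pool.Agent.HB.F.Congr

/-!
# HB-F-DegC: the degree of the fibres `{p = b}` on a curve does not depend on `b`

`hA := afacts hS`; `HB/A`: `inter_linEq hS`, `inter_add hS`, `inter_zsmul hS`, `deg_add hS`, `deg_smul hS`.

PLAN.  Put `n b := S.deg (S.inter (S.fib p b) C)`.  From `lin_fib`: `n b + n b.iot = n (ip k) + n (im k)`
for affine `b`; from `lin_inf`: `3 n (ip k) = 3 n (im k)`.  So it is enough that `n b = n b.iot` for all affine
`b` (then `2 n b = 2 n (ip k)`); this is clear if `b.iot = b` (`d = 0`).  (A point `inf e` of `BPt k` is `ip k` or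
`im k`.)
* If `∀ b, S.fib p b C = 0`: `b = aff c d`, `d ≠ 0`: `rt_deg` (`HB/F/DegRT.lean`, with `C.ff1`, `fin_of_nc`)
  and `deg_fib_places` twice (for `b` and `b.iot = aff c (-d)`).
* If `S.fib p b₀ C ≠ 0` for some `b₀`: for `b ≠ b₀`: `S.fib p b C = 0` (`fib_unique`) and
  `S.inter (S.fib p b) C = 0`: e.g. `S.prod (S.fib p b) (Finsupp.single C 1) = 0` by `prod_eq_zero hA`
  (`HB/F/Congr.lean`; if `P` is on `C` and on `C'` with `fib p b C' ≠ 0` then `b` and `b₀` are values of `p`
  at `P`), `prod_single`.  So `n b = 0` for `b ≠ b₀`, and `n b = n b.iot` holds unless `b = b₀` or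
  `b.iot = b₀`, `b₀ ≠ b₀.iot`, `b₀` affine; then `n b₀ + n b₀.iot = n (ip k) + n (im k) = 0` as `ip k, im k ≠ b₀`,
  and `n b₀.iot = 0`, so `n b₀ = 0`.
-/

set_option autoImplicit false

open IsLocalRing

namespace HB

variable {k L : Type} [Field k] [Field L] [Algebra k L]

namespace Surf

variable {S : Surf k L} [CharZero k] [IsAlgClosed k]

theorem deg_inter_fib_iot (hS : S.Smooth) {p : BPt L} (hp : S.Mor p) (hn : NCst k p) (C : S.PD)
    (h0 : ∀ b, S.fib p b C = 0) (c d : k) (h : d ^ 2 = c ^ 6 + 1) :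
    S.deg (S.inter (S.fib p (.aff c d h)) C) =
      S.deg (S.inter (S.fib p (BPt.iot (.aff c d h))) C) := by
  classical
  by_cases hd : d = 0
  · subst hd
    have e : BPt.iot (.aff c 0 h) = .aff c 0 h := by
      simp only [BPt.iot, neg_zero]
    rw [e]
  · obtain ⟨hx, hy, hxy, htr⟩ := fin_of_nc hS hp hn C h0
    obtain ⟨W, hW, hsum⟩ := Pl.rt_deg C.ff1 (C.res p.x) (C.res p.y) hxy htr c d h hd
    have e1 := deg_fib_places hS hp hn C h0 c d h hd W hW
    have e2 := deg_fib_places hS hp hn C h0 c (-d) (by rw [neg_sq, h]) (neg_ne_zero.2 hd) W hW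
    rw [e1]
    refine Eq.trans ?_ e2.symm
    rw [hsum]

private theorem deg_fib_zero (hS : S.Smooth) {p : BPt L} (hp : S.Mor p) (hn : NCst k p) (C : S.PD)
    {b₀ b : BPt k} (h : b ≠ b₀) (h0 : S.fib p b₀ C ≠ 0) :
    S.deg (S.inter (S.fib p b) C) = 0 := by
  have hA := afacts hS
  have h1 : S.prod (S.fib p b) (Finsupp.single C 1) = 0 := by
    refine prod_eq_zero hA _ _ fun P C' C'' hC' hC'' e1 e2 => h ?_
    have hCC : C'' = C := by
      by_contra hne
      exact e2 (Finsupp.single_eq_of_ne hne)
    subst hCC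
    have v1 := (val_iff_of_pos hA hC' hp (mor_map hA b) (hn b) e1 b).2 (val_map hA P b)
    have v2 := (val_iff_of_pos hA hC'' hp (mor_map hA b₀) (hn b₀) h0 b₀).2 (val_map hA P b₀)
    exact val_unique hA v1 v2
  rw [prod_single, Int.cast_one, one_smul] at h1
  rw [h1, deg_zero hS]

theorem deg_inter_fib (hS : S.Smooth) {p : BPt L} (hp : S.Mor p) (hn : NCst k p) (C : S.PD)
    (b b' : BPt k) :
    S.deg (S.inter (S.fib p b) C) = S.deg (S.inter (S.fib p b') C) := by
  set n : BPt k → ℚ := fun b => S.deg (S.inter (S.fib p b) C) with hndef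
  have hsum : ∀ (c d : k) (h : d ^ 2 = c ^ 6 + 1),
      n (.aff c d h) + n (BPt.iot (.aff c d h)) = n (ip k) + n (im k) := by
    intro c d h
    have h1 := inter_linEq hS (lin_fib hS hp hn c d h) C
    unfold infD at h1
    rw [inter_add hS, inter_add hS] at h1
    have h2 := congrArg S.deg h1
    rwa [deg_add hS, deg_add hS] at h2
  have hinf : n (ip k) = n (im k) := by
    have h1 := inter_linEq hS (lin_inf hS hp hn) C
    rw [inter_zsmul hS, inter_zsmul hS] at h1
    have h2 := congrArg S.deg h1
    rw [deg_smul hS, deg_smul hS] at h2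
    have h3 : ((3 : ℤ) : ℚ) ≠ 0 := by norm_num
    exact mul_left_cancel₀ h3 h2
  have hii : ip k ≠ im k := by
    intro h
    have h1 : (1 : k) = -1 := by
      have := congrArg (fun b : BPt k => match b with
        | .aff x _ _ => x
        | .inf e _ => e) h
      exact this
    have h2 : (2 : k) = 0 := by linear_combination h1
    exact two_ne_zero h2
  have hkey : ∀ (c d : k) (h : d ^ 2 = c ^ 6 + 1), n (.aff c d h) = n (ip k) := by
    intro c d h
    have h1 := hsum c d h
    by_cases h0 : ∀ b, S.fib p b C = 0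
    · have h2 : n (.aff c d h) = n (BPt.iot (.aff c d h)) :=
        deg_inter_fib_iot hS hp hn C h0 c d h
      linarith
    · push Not at h0
      obtain ⟨b₀, hb₀⟩ := h0
      have hz : ∀ b, b ≠ b₀ → n b = 0 := fun b hb => deg_fib_zero hS hp hn C hb hb₀
      have hip : n (ip k) = 0 := by
        by_cases hi : ip k = b₀
        · rw [hinf]
          exact hz _ (fun h' => hii (hi.trans h'.symm))
        · exact hz _ hi
      by_cases hb : BPt.aff c d h = b₀
      · by_cases hb' : BPt.iot (.aff c d h) = b₀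
        · rw [hb', ← hb] at h1
          linarith
        · rw [hz _ hb'] at h1
          linarith
      · rw [hz _ hb, hip]
  have hall : ∀ b, n b = n (ip k) := by
    intro b
    match b with
    | .aff c d h => exact hkey c d h
    | .inf e h =>
      have h1 : (e - 1) * (e + 1) = 0 := by linear_combination h
      rcases mul_eq_zero.1 h1 with h2 | h2
      · have he : e = 1 := sub_eq_zero.1 h2
        subst he
        rfl
      · have he : e = -1 := eq_neg_of_add_eq_zero_left h2
        subst he
        exact hinf.symm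
  exact (hall b).trans (hall b').symm

end Surf

end HB
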