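import Pool.Agent.HB.F.DegC
import Pool.Agent.HB.A.DegB

/-!
# HB-F-DegH: the degree of the fibres `{p = b}` with respect to the polarisation

PLAN.
* `degH_fib_const`: `degH_eq_sum hS` (`HB/A/DegA.lean`: `S.degH D = S.hyp.sum (fun C n => n * S.deg (S.inter D C))`)
  and `deg_inter_fib`.
* `degH_fib_pos`: `S.fib p b ≥ 0` (`gam_nonneg`).  If `degH (fib p b) = 0` then for all `b'` also
  `degH (fib p b') = 0`, so `fib p b' = 0` (`degH_pos hS`).  Then `x := p.x` satisfies
  `C.dv.iInf p = C.dv.iB p ∞₊ + C.dv.iB p ∞₋ = 0` for all `C` (`DV.iInf_eq`, `gam_apply`), so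
  `C.ord x ≥ 0`, `x ∈ O_C` for all `C`, so `x` is constant (`hA.proper`), contradiction to `NCst.eq_aff`.
* `exists_fib`: from `degH_fib_pos`: `fib p b ≠ 0`.
-/

set_option autoImplicit false

open IsLocalRing

namespace HB

variable {k L : Type} [Field k] [Field L] [Algebra k L]

open Surf in
theorem degH_fib_const {S : Surf k L} [CharZero k] [IsAlgClosed k] (hS : S.Smooth) {p : BPt L}
    (hp : S.Mor p) (hn : NCst k p) (b b' : BPt k) :
    S.degH (S.fib p b) = S.degH (S.fib p b') := by
  rw [degH_eq_sum hS, degH_eq_sum hS]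
  refine Finsupp.sum_congr fun C _ => ?_
  rw [deg_inter_fib hS hp hn C b b']

private theorem inf_congr' {F : Type} [Field F] {e e' : F} (h : e ^ 2 = 1) (h' : e' ^ 2 = 1)
    (he : e = e') : BPt.inf e h = BPt.inf e' h' := by
  subst he
  rfl

open Surf in
private theorem fib_nonneg {S : Surf k L} [CharZero k] [IsAlgClosed k] (hS : S.Smooth) {p : BPt L}
    (hp : S.Mor p) (hn : NCst k p) (b : BPt k) : 0 ≤ S.fib p b := fun C =>
  gam_nonneg (afacts hS) hp (mor_map (afacts hS) b) (hn b) C

open Surf in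
private theorem degH_zero {S : Surf k L} [CharZero k] [IsAlgClosed k] (hS : S.Smooth) :
    S.degH 0 = 0 := by
  have := degH_zsmul hS 0 (0 : S.Div)
  simpa using this

open Surf in
private theorem fib_ne_zero {S : Surf k L} [CharZero k] [IsAlgClosed k] (hS : S.Smooth)
    {p : BPt L} (hp : S.Mor p) (hn : NCst k p) : ¬ ∀ b : BPt k, S.fib p b = 0 := by
  intro h0
  have hA := afacts hS
  obtain ⟨x, y, h, rfl, hx⟩ := hn.eq_aff
  have hx0 : x ≠ 0 := by
    have := hx 0
    rwa [map_zero] at this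
  have h1 : ∀ (C : S.PD) (b : BPt k), C.dv.iB (.aff x y h) (b.map L) = 0 := by
    intro C b
    rw [← gam_apply hA hp (mor_map hA b) (hn b)]
    have h2 := h0 b
    unfold fib at h2
    rw [h2]
    rfl
  obtain ⟨c, hc⟩ := hA.proper x (fun C => by
    have he : (algebraMap k L 1) ^ 2 = 1 := by rw [map_one, one_pow]
    have h2 := C.dv.iInf_eq h (algebraMap k L 1) he
    have e1 : (ip k).map L = .inf (algebraMap k L 1) he := rfl
    have e2 : (im k).map L = .inf (-(algebraMap k L 1)) (by rw [neg_sq, he]) :=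
      inf_congr' _ _ (map_neg _ _)
    rw [← e1, ← e2, h1, h1, add_zero] at h2
    have h3 : max 0 (-(C.dv.v x)) = 0 := h2
    rw [hA.mem_iff C x hx0, ← C.dv_v]
    have h4 := max_eq_left_iff.mp h3
    omega)
  exact hx c hc

open Surf in
theorem degH_fib_pos {S : Surf k L} [CharZero k] [IsAlgClosed k] (hS : S.Smooth) {p : BPt L}
    (hp : S.Mor p) (hn : NCst k p) (b : BPt k) : 0 < S.degH (S.fib p b) := by
  by_contra hcon
  have h1 : S.degH (S.fib p b) = 0 :=
    le_antisymm (not_lt.mp hcon) (degH_nonneg hS (fib_nonneg hS hp hn b))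
  refine fib_ne_zero hS hp hn fun b' => ?_
  by_contra h2
  have h3 := degH_pos hS (fib_nonneg hS hp hn b') h2
  rw [degH_fib_const hS hp hn b' b, h1] at h3
  exact lt_irrefl _ h3

open Surf in
theorem exists_fib {S : Surf k L} [CharZero k] [IsAlgClosed k] (hS : S.Smooth) {p : BPt L}
    (hp : S.Mor p) (hn : NCst k p) (b : BPt k) : ∃ C : S.PD, 0 < S.fib p b C := by
  by_contra hcon
  push Not at hcon
  have h1 : S.fib p b = 0 := Finsupp.ext fun C =>
    le_antisymm (hcon C) (fib_nonneg hS hp hn b C)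
  have h2 := degH_fib_pos hS hp hn b
  rw [h1, degH_zero hS] at h2
  exact lt_irrefl _ h2

end HB
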