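import Pool.Agent.HB.F.Res

/-!
# HB-F-Sup: intersections of divisors without common components: degrees and functionals

PLAN.
* `exists_cycle`: take `z` from `hA.exInt0`; then `S.IsInt D C z` holds with `r = 1`
  (`hA.ord_one`, `f / 1 = f`), so `S.inter D C = mk z` (`hA.inter_eq`).
  Support: if `z P ≠ 0` then `P` is on `C`; if moreover `D C' = 0` for all `C'` through `P`, then the
  local equation `f` has order `0` along all `C'` through `P`, so `f, f⁻¹ ∈ O_P` (`hA.regular`,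
  `hA.ord_inv`) and `z P = 0` (`hA.loc_res_unit`).
* `inter_eff` (`D` effective): `f ∈ O_P` (`hA.regular`), `C.ord f = D C = 0` so `C.res f ≠ 0`
  (`hA.res_ne_zero_of_ord`) and `z P ≥ 0` (`hA.loc_nonneg`, `res_mem_loc`).  If `P` is on `C'`
  and `D C' ≠ 0`: `C'.ord f > 0`, so `Van C'.1 f` (`hA.van_iff`), `Van P.1 f` (`Van.ofOn`), and
  `z P > 0` (`hA.loc_res_pos`).
* degrees: `S.deg (mk z) = S.deg0 z = ∑ z P` (`hA.deg_mk`, `Surf.deg0`).
* `lam_inter`: `mk z = ∑ z P • mk (single P 1)`, all terms with `z P ≠ 0` have value `a`.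
* `lam_prod`: `S.prod D D' = D'.sum (fun C n => n • S.inter D C)`.
-/

set_option autoImplicit false

open IsLocalRing

namespace HB

variable {k L : Type} [Field k] [Field L] [Algebra k L]

namespace Surf

variable {S : Surf k L}

theorem exists_cycle (hA : AFacts S) (D : S.Div) (C : S.PD) (hD : D C = 0) :
    ∃ z : S.Z0, S.inter D C = Submodule.Quotient.mk z ∧
      (∀ P : S.Pt, On P C → ∃ f : L, S.IsEq D P f ∧ z P = ordS (C.loc P) (C.res f)) ∧
      ∀ P : S.Pt, z P ≠ 0 → On P C ∧ ∃ C' : S.PD, On P C' ∧ D C' ≠ 0 := by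
  obtain ⟨z, h1, h2⟩ := hA.exInt0 D C hD
  refine ⟨z, hA.inter_eq D C z ⟨1, one_ne_zero, ?_, ?_, h2⟩, h1, ?_⟩
  · rw [hA.ord_one C, hD]
  · intro P hP
    obtain ⟨f, hf, hz⟩ := h1 P hP
    exact ⟨f, hf, by rw [div_one]; exact hz⟩
  · intro P hz
    have hP : On P C := by
      by_contra hP
      exact hz (h2 P hP)
    refine ⟨hP, ?_⟩
    by_contra hcon
    push Not at hcon
    obtain ⟨f, ⟨hf0, hf⟩, hzf⟩ := h1 P hP
    apply hz
    rw [hzf]
    have h3 : f ∈ P.1.toSubring := hA.regular P f hf0 fun C' hC' => by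
      rw [hf C' hC', hcon C' hC']
    have h4 : f⁻¹ ∈ P.1.toSubring := hA.regular P _ (inv_ne_zero hf0) fun C' hC' => by
      rw [hA.ord_inv C' hf0, hf C' hC', hcon C' hC', neg_zero]
    rw [hA.loc_res_unit hP hf0 h3 h4, Int.cast_zero]

theorem inter_eff (hA : AFacts S) (D : S.Div) (C : S.PD) (hD : D C = 0)
    (h0 : ∀ C' : S.PD, 0 ≤ D C') :
    ∃ z : S.Z0, S.inter D C = Submodule.Quotient.mk z ∧ (∀ P : S.Pt, 0 ≤ z P) ∧
      ∀ (P : S.Pt) (C' : S.PD), On P C → On P C' → D C' ≠ 0 → 0 < z P := by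
  obtain ⟨z, h1, h2, h3⟩ := exists_cycle hA D C hD
  refine ⟨z, h1, ?_, ?_⟩
  · intro P
    by_cases hz : z P = 0
    · rw [hz]
    obtain ⟨hP, -⟩ := h3 P hz
    obtain ⟨f, ⟨hf0, hf⟩, hzf⟩ := h2 P hP
    have h4 : f ∈ P.1.toSubring := hA.regular P f hf0 fun C' hC' => by
      rw [hf C' hC']
      exact h0 C'
    rw [hzf]
    exact_mod_cast hA.loc_nonneg C P hP _
      (hA.res_ne_zero_of_ord hf0 (by rw [hf C hP, hD])) (res_mem_loc hP h4)
  · intro P C' hP hC' hne
    obtain ⟨f, ⟨hf0, hf⟩, hzf⟩ := h2 P hP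
    have h4 : f ∈ P.1.toSubring := hA.regular P f hf0 fun C' hC' => by
      rw [hf C' hC']
      exact h0 C'
    have h5 : Van C'.1 f := by
      rw [hA.van_iff C' hf0, hf C' hC']
      exact lt_of_le_of_ne (h0 C') (Ne.symm hne)
    have h6 : Van P.1 f := Van.ofOn hC' h5 h4
    rw [hzf]
    exact_mod_cast hA.loc_res_pos hP h6 (hA.res_ne_zero_of_ord hf0 (by rw [hf C hP, hD]))

private theorem sup_deg0 (z : S.Z0) : S.deg0 z = z.sum fun _ c => c := by
  unfold deg0
  rw [Finsupp.lsum_apply]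
  rfl

theorem degF_nonneg (hA : AFacts S) (D : S.Div) (C : S.PD) (hD : D C = 0)
    (h0 : ∀ C' : S.PD, 0 ≤ D C') : 0 ≤ S.deg (S.inter D C) := by
  obtain ⟨z, h1, h2, -⟩ := inter_eff hA D C hD h0
  rw [h1, hA.deg_mk, sup_deg0]
  exact Finset.sum_nonneg fun P _ => h2 P

theorem degF_pos (hA : AFacts S) (D : S.Div) (C : S.PD) (hD : D C = 0)
    (h0 : ∀ C' : S.PD, 0 ≤ D C') {P : S.Pt} {C' : S.PD} (h1 : On P C) (h2 : On P C')
    (h3 : D C' ≠ 0) : 0 < S.deg (S.inter D C) := by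
  obtain ⟨z, e, h4, h5⟩ := inter_eff hA D C hD h0
  rw [e, hA.deg_mk, sup_deg0]
  have h6 := h5 P C' h1 h2 h3
  exact Finset.sum_pos' (fun P _ => h4 P) ⟨P, Finsupp.mem_support_iff.2 h6.ne', h6⟩

theorem degF_smul_add (hA : AFacts S) (a b : ℚ) (x y : S.CH0) :
    S.deg (a • x + b • y) = a * S.deg x + b * S.deg y := by
  obtain ⟨z, rfl⟩ := Submodule.Quotient.mk_surjective _ x
  obtain ⟨w, rfl⟩ := Submodule.Quotient.mk_surjective _ y
  rw [← Submodule.Quotient.mk_smul, ← Submodule.Quotient.mk_smul, ← Submodule.Quotient.mk_add,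
    hA.deg_mk, hA.deg_mk, hA.deg_mk, map_add, map_smul, map_smul, smul_eq_mul, smul_eq_mul]

theorem lam_inter {A : Type} [AddCommGroup A] [Module ℚ A] (hA : AFacts S)
    (lam : S.CH0 →ₗ[ℚ] A) (a : A) (D : S.Div) (C : S.PD) (hD : D C = 0)
    (h : ∀ (P : S.Pt) (C' : S.PD), On P C → On P C' → D C' ≠ 0 →
      lam (Submodule.Quotient.mk (Finsupp.single P 1)) = a) :
    lam (S.inter D C) = S.deg (S.inter D C) • a := by
  obtain ⟨z, h1, -, h3⟩ := exists_cycle hA D C hD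
  rw [h1, hA.deg_mk, sup_deg0]
  let ℓ : S.Z0 →ₗ[ℚ] A := lam ∘ₗ S.rat.mkQ
  have e1 : lam (Submodule.Quotient.mk z) = ℓ z := rfl
  have e2 : ℓ z = z.sum fun P c => ℓ (Finsupp.single P c) := by
    conv_lhs => rw [← Finsupp.sum_single z]
    rw [map_finsuppSum]
  rw [e1, e2, Finsupp.sum, Finsupp.sum, Finset.sum_smul]
  apply Finset.sum_congr rfl
  intro P hP
  obtain ⟨hPC, C', hPC', hne⟩ := h3 P (Finsupp.mem_support_iff.1 hP)
  have e3 : (Finsupp.single P (z P) : S.Z0) = z P • Finsupp.single P 1 := by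
    rw [Finsupp.smul_single, smul_eq_mul, mul_one]
  rw [e3, map_smul]
  congr 1
  exact h P C' hPC hPC' hne

theorem lam_prod {A : Type} [AddCommGroup A] [Module ℚ A] (hA : AFacts S)
    (lam : S.CH0 →ₗ[ℚ] A) (a : A) (D D' : S.Div) (hD : ∀ C : S.PD, D' C ≠ 0 → D C = 0)
    (h : ∀ (P : S.Pt) (C C' : S.PD), On P C → On P C' → D C ≠ 0 → D' C' ≠ 0 →
      lam (Submodule.Quotient.mk (Finsupp.single P 1)) = a) :
    lam (S.prod D D') = S.deg (S.prod D D') • a := by
  let δ : S.CH0 →ₗ[ℚ] ℚ :=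
    { toFun := S.deg
      map_add' := fun x y => by
        have := degF_smul_add hA 1 1 x y
        rwa [one_smul, one_smul, one_mul, one_mul] at this
      map_smul' := fun c x => by
        have := degF_smul_add hA c 0 x 0
        rwa [zero_smul, add_zero, zero_mul, add_zero] at this }
  have e1 : S.deg (S.prod D D') = D'.sum fun C n => δ ((n : ℚ) • S.inter D C) := by
    change δ (S.prod D D') = _
    unfold prod
    rw [map_finsuppSum]
  have e2 : lam (S.prod D D') = D'.sum fun C n => lam ((n : ℚ) • S.inter D C) := by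
    unfold prod
    rw [map_finsuppSum]
  rw [e1, e2, Finsupp.sum, Finsupp.sum, Finset.sum_smul]
  apply Finset.sum_congr rfl
  intro C hC
  have hne := Finsupp.mem_support_iff.1 hC
  rw [map_smul, map_smul, lam_inter hA lam a D C (hD C hne) (fun P C' hP hP' hC' =>
    h P C' C hP' hP hC' hne), smul_assoc]
  rfl

end Surf

end HB
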