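import Pool.Agent.HB.F.SumPl
import Pool.Agent.HB.F.NC
import Pool.Agent.HB.F.Sup

/-!
# HB-F-DegPl: the degree of a fibre `{p = b}` on a curve `C` on which `p` is not constant

`h0 : ∀ b, S.fib p b C = 0`.  `hA := afacts hS`.
PLAN.
* `fin_of_nc`: `p = aff x y h` (`NCst.eq_aff`).  `x ∈ O_C`: `DV.iInf_eq` (`HB/B/B5.lean`, `e = 1`),
  `gam_apply hA` and `h0` for the two points at infinity give `iInf = 0`, i.e. `C.ord x ≥ 0`
  (or `x = 0`).  `y ∈ O_C`: `y² = x⁶ + 1` (`C.dv.ge_of_pow`).
  Transcendental: otherwise `C.res x = algebraMap c` (`Pl.const_of_algebraic`), `= C.res (algebraMap k L c)`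
  (`PD.res_algebraMap`), so `Van C.1 (x - c)` (`res_eq_zero`), and `y² - d² = x⁶ - c⁶` for `d² = c⁶ + 1`
  shows `Van C.1 (y - d)` or `Van C.1 (y + d)` (`van_of_mul`); so
  `iB p ((aff c (±d)).map L) = dmin (x - c) (y ∓ d) ≥ 1` (`D.le_dmin`), contradiction to `h0`.
* `deg_fib_places`: `exists_cycle hA` (`HB/F/Sup.lean`), `hA.deg_mk`, `sum_places` with
  `m w := if 0 < ow w (x̄ - c) ∧ ev k w ȳ = d then ow w (x̄ - c) else 0`, `x̄ = C.res p.x`, `ȳ = C.res p.y`.
  For `P` on `C` take the standard local equation `f` of `fib p b` at `P` (`exists_LE`, `isEq_gam`); by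
  `hA.isEq_unit` and `hA.loc_res_unit` the order of the restriction of any local equation is the
  same, so `z P = ordS (C.loc P) (C.res f)`, and `g := C.res f ≠ 0`.  `w` dominates `C.loc P`, so:
  an element `u` of the maximal ideal of `O_P` has `C.res u ∈ w.nonunits` (`res_mem_loc`,
  `res_inv_not_mem_loc`, or `C.res u = 0`).  If `p` has the value `b` at `P`: `f = x - c` and `m w =
  ow w (x̄ - c)` (`ow w > 0`, `ev k w ȳ = d` by `ev_unique`).  Otherwise `f = 1`, `ow w 1 = 0` and `m w = 0`: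
  `0 < ow w (x̄ - c)` and `ev k w ȳ = d` would imply: if the value of `p` at `P` is `aff c' d'` then
  `ev x̄ = c'`, `ev ȳ = d'`, so `c' = c`, `d' = d`; if it is `inf e` then `x⁻¹` is in the maximal ideal of
  `O_P`, so `C.res x⁻¹ = x̄⁻¹ ∈ w.nonunits`, contradiction to `x̄ ∈ w`.
-/

set_option autoImplicit false

open IsLocalRing

namespace HB

variable {k L : Type} [Field k] [Field L] [Algebra k L]

namespace Surf

variable {S : Surf k L} [CharZero k] [IsAlgClosed k]

private theorem dp_inf_congr {F : Type} [Field F] {e e' : F} (h : e ^ 2 = 1) (h' : e' ^ 2 = 1)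
    (he : e = e') : BPt.inf e h = BPt.inf e' h' := by
  subst he
  rfl

private theorem dp_res_pow (C : S.PD) {f : L} (hf : f ∈ C.1.toSubring) (n : ℕ) :
    C.res (f ^ n) = C.res f ^ n := by
  induction n with
  | zero => rw [pow_zero, pow_zero, PD.res_one]
  | succ n ih => rw [pow_succ, pow_succ, C.res_mul (C.1.toSubring.pow_mem hf n) hf, ih]

private theorem dp_algmem (hA : AFacts S) (C : S.PD) (c : k) : algebraMap k L c ∈ C.1.toSubring :=
  hA.algMem C c

omit [CharZero k] [IsAlgClosed k] in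
private theorem dp_nonunit {C : S.PD} {P : S.Pt} (hP : On P C) {w : ValuationSubring C.kap}
    (hd : Pl.Domi w (C.loc P)) {u : L} (hu : Van P.1 u) : C.res u ∈ w.nonunits := by
  by_cases h0 : C.res u = 0
  · rw [h0]
    exact w.nonunits.zero_mem
  · exact hd.2 _ (res_mem_loc hP hu.mem) (res_inv_not_mem_loc hP hu h0)

private theorem dp_ev {C : S.PD} {P : S.Pt} (hP : On P C) {w : ValuationSubring C.kap}
    (hA : AFacts S) (hw : Pl.IsPl k w)
    (hd : Pl.Domi w (C.loc P)) {u : L} (hm : u ∈ C.1.toSubring) {c : k}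
    (hu : Van P.1 (u - algebraMap k L c)) :
    C.res u - algebraMap k C.kap c ∈ w.nonunits ∧ Pl.ev k w (C.res u) = c := by
  have h1 := dp_nonunit hP hd hu
  rw [C.res_sub hm (hA.algMem C c), C.res_algebraMap] at h1
  exact ⟨h1, Pl.ev_unique hw h1⟩

theorem fin_of_nc (hS : S.Smooth) {p : BPt L} (hp : S.Mor p) (hn : NCst k p) (C : S.PD)
    (h0 : ∀ b, S.fib p b C = 0) :
    p.x ∈ C.1.toSubring ∧ p.y ∈ C.1.toSubring ∧ (C.res p.y) ^ 2 = (C.res p.x) ^ 6 + 1 ∧
      Transcendental k (C.res p.x) := by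
  have hA := afacts hS
  obtain ⟨x, y, h, rfl, hx⟩ := hn.eq_aff
  change x ∈ C.1.toSubring ∧ y ∈ C.1.toSubring ∧ C.res y ^ 2 = C.res x ^ 6 + 1 ∧
    Transcendental k (C.res x)
  have hfib : ∀ b : BPt k, C.dv.iB (.aff x y h) (b.map L) = 0 := by
    intro b
    rw [← gam_apply hA hp (mor_map hA b) (hn b) C]
    exact h0 b
  have hgx : C.dv.ge 0 x := by
    by_contra hc
    obtain ⟨hx0, hv, hi⟩ := C.dv.iInf_not_fin h hc
    have h1 := C.dv.iInf_eq h 1 (one_pow 2)
    have e1 : (ip k).map L = .inf 1 (one_pow 2) := dp_inf_congr _ _ (map_one _)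
    have e2 : (im k).map L = .inf (-1) (by rw [neg_sq, one_pow]) :=
      dp_inf_congr _ _ (by rw [map_neg, map_one])
    have h2 := hfib (ip k)
    have h3 := hfib (im k)
    rw [e1] at h2
    rw [e2] at h3
    rw [h2, h3, hi] at h1
    omega
  have hgy : C.dv.ge 0 y := C.dv.ge_y_aff h hgx
  have hmx : x ∈ C.1.toSubring := (C.dv_ge_zero x).1 hgx
  have hmy : y ∈ C.1.toSubring := (C.dv_ge_zero y).1 hgy
  refine ⟨hmx, hmy, ?_, ?_⟩
  · rw [← dp_res_pow C hmy, ← dp_res_pow C hmx, h,
      C.res_add (C.1.toSubring.pow_mem hmx 6) C.1.toSubring.one_mem, C.res_one]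
  · intro halg
    obtain ⟨c, hc⟩ := Pl.const_of_algebraic (k := k) halg
    have hmc := hA.algMem C c
    have hvx : Van C.1 (x - algebraMap k L c) := by
      rw [← res_eq_zero (C.1.toSubring.sub_mem hmx hmc), C.res_sub hmx hmc, C.res_algebraMap, hc,
        sub_self]
    obtain ⟨d, hd⟩ := IsAlgClosed.exists_pow_nat_eq (c ^ 6 + 1) (n := 2) (by norm_num)
    have hmd := hA.algMem C d
    have key : ∀ d' : k, d' ^ 2 = c ^ 6 + 1 → ¬ Van C.1 (y - algebraMap k L d') := by
      intro d' hd' hv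
      have h1 := hfib (.aff c d' hd')
      have hgc : C.dv.ge 0 (algebraMap k L c) := C.dv.ge_const c
      have e1 : (BPt.aff c d' hd').map L = .aff (algebraMap k L c) (algebraMap k L d')
        (by rw [← map_pow, hd', map_add, map_pow, map_one]) := rfl
      rw [e1, C.dv.iB_aff_fin h _ hgx hgc] at h1
      have h2 : (1 : ℤ) ≤ C.dv.dmin (x - algebraMap k L c) (y - algebraMap k L d') := by
        rw [C.dv.le_dmin (Or.inl (sub_ne_zero.2 (hx c)))]
        exact ⟨(hA.van_iff_ge C _).1 hvx, (hA.van_iff_ge C _).1 hv⟩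
      omega
    have h1 : Van C.1 ((y - algebraMap k L d) * (y + algebraMap k L d)) := by
      have e1 : (y - algebraMap k L d) * (y + algebraMap k L d) = (x - algebraMap k L c) *
          (x ^ 5 + x ^ 4 * algebraMap k L c + x ^ 3 * algebraMap k L c ^ 2 +
            x ^ 2 * algebraMap k L c ^ 3 + x * algebraMap k L c ^ 4 + algebraMap k L c ^ 5) := by
        have e2 : algebraMap k L d ^ 2 = algebraMap k L c ^ 6 + 1 := by
          rw [← map_pow, hd, map_add, map_pow, map_one]
        linear_combination h - e2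
      rw [e1]
      refine hvx.mul_right ?_
      exact add_mem (add_mem (add_mem (add_mem (add_mem (pow_mem hmx 5)
        (mul_mem (pow_mem hmx 4) hmc)) (mul_mem (pow_mem hmx 3) (pow_mem hmc 2)))
        (mul_mem (pow_mem hmx 2) (pow_mem hmc 3))) (mul_mem hmx (pow_mem hmc 4))) (pow_mem hmc 5)
    rcases van_of_mul (C.1.toSubring.sub_mem hmy hmd) (C.1.toSubring.add_mem hmy hmd) h1 with h2 | h2
    · exact key d hd h2
    · refine key (-d) (by rw [neg_sq, hd]) ?_
      rw [map_neg, sub_neg_eq_add]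
      exact h2

open Classical in
theorem deg_fib_places (hS : S.Smooth) {p : BPt L} (hp : S.Mor p) (hn : NCst k p) (C : S.PD)
    (h0 : ∀ b, S.fib p b C = 0) (c d : k) (h : d ^ 2 = c ^ 6 + 1) (hd : d ≠ 0)
    (W : Finset (ValuationSubring C.kap))
    (hW : ∀ w, w ∈ W ↔ Pl.IsPl k w ∧ 0 < Pl.ow w (C.res p.x - algebraMap k C.kap c)) :
    S.deg (S.inter (S.fib p (.aff c d h)) C) =
      ((∑ w ∈ W, if Pl.ev k w (C.res p.y) = d then
        Pl.ow w (C.res p.x - algebraMap k C.kap c) else 0 : ℤ) : ℚ) := by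
  have hA := afacts hS
  obtain ⟨hmx, hmy, heq, htr⟩ := fin_of_nc hS hp hn C h0
  obtain ⟨x, y, hxy, rfl, hx⟩ := hn.eq_aff
  change x ∈ C.1.toSubring at hmx
  change y ∈ C.1.toSubring at hmy
  change Transcendental k (C.res x) at htr
  change S.deg (S.inter (S.fib (.aff x y hxy) (.aff c d h)) C) =
      ((∑ w ∈ W, if Pl.ev k w (C.res y) = d then
        Pl.ow w (C.res x - algebraMap k C.kap c) else 0 : ℤ) : ℚ)
  change ∀ w, w ∈ W ↔ Pl.IsPl k w ∧ 0 < Pl.ow w (C.res x - algebraMap k C.kap c) at hW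
  obtain ⟨z, hz1, hz2, hz3⟩ := exists_cycle hA (S.fib (.aff x y hxy) (.aff c d h)) C (h0 _)
  rw [hz1, hA.deg_mk]
  have hxc : C.res x - algebraMap k C.kap c ≠ 0 := by
    intro h1
    apply htr
    rw [sub_eq_zero.1 h1]
    exact isAlgebraic_algebraMap c
  have hsum : (∑ w ∈ W, if Pl.ev k w (C.res y) = d then
        Pl.ow w (C.res x - algebraMap k C.kap c) else 0 : ℤ) =
      ∑ w ∈ W, (if 0 < Pl.ow w (C.res x - algebraMap k C.kap c) ∧ Pl.ev k w (C.res y) = d then
        Pl.ow w (C.res x - algebraMap k C.kap c) else 0) := by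
    refine Finset.sum_congr rfl fun w hw => ?_
    have h1 := ((hW w).1 hw).2
    by_cases h2 : Pl.ev k w (C.res y) = d
    · rw [if_pos h2, if_pos ⟨h1, h2⟩]
    · rw [if_neg h2, if_neg fun h3 => h2 h3.2]
  rw [hsum]
  refine sum_places C z (fun w => if 0 < Pl.ow w (C.res x - algebraMap k C.kap c) ∧
    Pl.ev k w (C.res y) = d then Pl.ow w (C.res x - algebraMap k C.kap c) else 0) W
    (fun w hw => ((hW w).1 hw).1) ?_ ?_ ?_
  · intro w hw hm
    rw [hW]
    refine ⟨hw, ?_⟩
    by_contra h1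
    exact hm (if_neg fun h2 => h1 h2.1)
  · intro P hP
    obtain ⟨f, hf, hzf⟩ := hz2 P hP
    obtain ⟨f', hLE⟩ := exists_LE P (.aff x y hxy) ((BPt.aff c d h).map L)
    have hf' := isEq_gam hA hp (mor_map hA _) (hn _) hLE
    obtain ⟨hu1, hu2⟩ := hA.isEq_unit hf hf'
    have hfne : f ≠ 0 := hf.1
    have hfne' : f' ≠ 0 := hf'.1
    have hu0 : f / f' ≠ 0 := div_ne_zero hfne hfne'
    have hof' : C.ord f' = 0 := by
      rw [hf'.2 C hP]
      exact h0 _
    have hofu : C.ord (f / f') = 0 := hA.ord_eq_zero_of_unit C hP hu1 hu2 hu0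
    have hrf' : C.res f' ≠ 0 := hA.res_ne_zero_of_ord hfne' hof'
    have hru : C.res (f / f') ≠ 0 := hA.res_ne_zero_of_ord hu0 hofu
    have hmem' : f' ∈ P.1.toSubring := hLE.mem hA
    refine ⟨C.res f', hrf', ?_, ?_⟩
    · rw [hzf]
      have e1 : f = f / f' * f' := by rw [div_mul_cancel₀ _ hfne']
      rw [e1, C.res_mul (hP hu1) (hP hmem'), hA.loc_mul C P hP _ _ hru hrf',
        hA.loc_res_unit hP hu0 hu1 hu2, zero_add]
    · intro w hw hd'
      cases hLE with
      | x c' d' h' hd0 hv1 hv2 =>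
        have e1 := (val_map_iff hA P _ _).1 hv2
        injection e1 with e2 e3
        subst e2
        subst e3
        have hv1' : Van P.1 (x - algebraMap k L c') ∧ Van P.1 (y - algebraMap k L d') := hv1
        have e4 : C.res ((BPt.aff x y hxy).x - ((BPt.aff c' d' h).map L).x) =
            C.res x - algebraMap k C.kap c' := by
          change C.res (x - algebraMap k L c') = _
          rw [C.res_sub hmx (hA.algMem C c'), C.res_algebraMap]
        have h5 := (dp_ev hP hA hw hd' hmx hv1'.1).1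
        rw [Pl.nonunit_iff hw hxc] at h5
        rw [e4, if_pos ⟨h5, (dp_ev hP hA hw hd' hmy hv1'.2).2⟩]
      | y c' d' h' hd0 hv1 hv2 =>
        have e1 := (val_map_iff hA P _ _).1 hv2
        injection e1 with e2 e3
        exact absurd (e3.symm.trans hd0) hd
      | i e h' hv1 hv2 =>
        have e1 := (val_map_iff hA P _ _).1 hv2
        cases e1
      | one hno =>
        rw [C.res_one, Pl.ow_one hw, if_neg]
        rintro ⟨h1, h2⟩
        have hnu : C.res x - algebraMap k C.kap c ∈ w.nonunits := (Pl.nonunit_iff hw hxc).2 h1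
        have hevx : Pl.ev k w (C.res x) = c := Pl.ev_unique hw hnu
        have hxw : C.res x ∈ w := by
          have h3 := w.add_mem _ _ (w.nonunits_subset hnu) (hw.alg c)
          rwa [sub_add_cancel] at h3
        obtain ⟨b, hb⟩ := val_exists hA hp P
        cases b with
        | aff c' d' h' =>
          have hb' : Van P.1 (x - algebraMap k L c') ∧ Van P.1 (y - algebraMap k L d') := hb
          have e1 := (dp_ev hP hA hw hd' hmx hb'.1).2
          have e2 := (dp_ev hP hA hw hd' hmy hb'.2).2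
          rw [hevx] at e1
          rw [h2] at e2
          subst e1
          subst e2
          exact hno _ ⟨hb, val_map hA P _⟩
        | inf e h' =>
          have hx0 : x ≠ 0 := (Val.inf_mem hA hb).2.2.2 x y hxy rfl
          have hb' : Van P.1 x⁻¹ := hb.1
          have h3 := dp_nonunit hP hd' hb'
          have h4 : C.res x⁻¹ * C.res x = 1 := by
            rw [← C.res_mul (hP hb'.mem) hmx, inv_mul_cancel₀ hx0, C.res_one]
          have h5 := Pl.nonunits_mul hw h3 hxw
          rw [h4, Pl.nonunit_iff hw one_ne_zero, Pl.ow_one hw] at h5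
          exact lt_irrefl _ h5
  · intro P hP
    by_contra hne
    exact hP (hz3 P hne).1

end Surf

end HB
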