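import Pool.Agent.HB.F.NC
import Pool.Agent.HB.F.Coin

/-!
# HB-F-Pair: intersection numbers on the coincidence divisor of two points of `B`

`Pair S p q`: `p`, `q` are morphisms from the surface to the curve `B`, not constant, `p ≠ q, q.iot`, and
not both constant on a curve.  `D` is a divisor with `3 D = gam p q`.
`hA := afacts hS`.  Part A (`HB/A/IntC.lean`): `prod_comm hS`, `prod_add_left hS`, `prod_add_right`,
`prod_zsmul_left hS`, `prod_zsmul_right hS`, `prod_linEq hS`, `linEq_refl`, `prod_congr_left`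
(`(∀ C, E C ≠ 0 → S.inter D C = S.inter D' C) → S.prod D E = S.prod D' E`).

PLAN.
* `Pair.not_fib`: if `gam p q C ≠ 0` then `fib p b C = 0` and `fib q b C = 0` for all `b`
  (`cst_of_gam`, `gam_comm`, `Pair.nc`).
* `Pair.not_gam`: if `fib p b C ≠ 0` then `gam p q C = 0` (previous) and `fib q b' C = 0` for all `b'`.
* `prod_fib_D`: `prod_congr_left`: for `C` with `D C ≠ 0` we have `gam p q C = 3 * D C ≠ 0`; use
  `inter_fib_coin` and `Pair.not_fib`.
* `three_prod_fib_D`: `3 • prod (fib p b) D = prod (fib p b) (3 • D) = prod (fib p b) (gam p q)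
  = prod (gam p q) (fib p b) = prod (fib q b) (fib p b)` (the last step by `prod_congr_left`,
  `inter_gam_fib`, `Pair.not_gam`).
* `three_prod_D_D`: `3 • prod D D = prod (gam p q) D`.  `lin_iot` (`prod_linEq`):
  `prod (gam p q) D + prod (gam p q.iot) D = prod (infD p) D + prod (infD q) D`; `prod (infD q) D =
  prod (infD p) D` by `prod_fib_D`; on `C` with `D C ≠ 0`: `inter (gam p q.iot) C =
  inter (gam p p.iot) C` (`inter_iot_coin`; `gam p p.iot C = 0` by `cst_of_iot` and `Pair.not_fib`;
  `gam p q.iot C = 0`: otherwise `gam q q.iot C ≠ 0` by `gam_trans`, and `q` is constant on `C` by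
  `cst_of_iot`), so `prod (gam p q.iot) D = prod (gam p p.iot) D = 3 • prod (infD p) D`
  (`lin_self`).  Hence `3 • prod D D = (1 + 1 - 3) • prod (infD p) D`.
-/

set_option autoImplicit false

open IsLocalRing

namespace HB

variable {k L : Type} [Field k] [Field L] [Algebra k L]

namespace Surf

/-- Two independent morphisms to `B`. -/
structure Pair (S : Surf k L) [CharZero k] [IsAlgClosed k] (p q : BPt L) : Prop where
  hp : S.Mor p
  hq : S.Mor q
  np : NCst k p
  nq : NCst k q
  ne : p ≠ q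
  ni : p ≠ q.iot
  nc : ∀ (C : S.PD) (b b' : BPt k), S.fib p b C ≠ 0 → S.fib q b' C ≠ 0 → False

variable {S : Surf k L} [CharZero k] [IsAlgClosed k]

private theorem iot_iot' (p : BPt L) : p.iot.iot = p := by
  cases p with
  | aff x y h => simp only [BPt.iot, neg_neg]
  | inf e h => simp only [BPt.iot, neg_neg]

theorem Pair.symm {p q : BPt L} (h : S.Pair p q) : S.Pair q p where
  hp := h.hq
  hq := h.hp
  np := h.nq
  nq := h.np
  ne := h.ne.symm
  ni := by
    intro h1
    apply h.ni
    rw [h1, iot_iot']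
  nc := fun C b b' h1 h2 => h.nc C b' b h2 h1

theorem Pair.not_fib (hS : S.Smooth) {p q : BPt L} (h : S.Pair p q) {C : S.PD}
    (hC : S.gam p q C ≠ 0) (b : BPt k) : S.fib p b C = 0 ∧ S.fib q b C = 0 := by
  constructor
  · by_contra h1
    exact h.nc C b b h1 (cst_of_gam hS h.hp h.hq h.np h.nq h.ne hC h1)
  · by_contra h1
    have hC' : S.gam q p C ≠ 0 := by
      rw [gam_comm]
      exact hC
    exact h.nc C b b (cst_of_gam hS h.hq h.hp h.nq h.np h.ne.symm hC' h1) h1

theorem Pair.not_gam (hS : S.Smooth) {p q : BPt L} (h : S.Pair p q) {C : S.PD} {b : BPt k}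
    (hC : S.fib p b C ≠ 0) : S.gam p q C = 0 ∧ ∀ b' : BPt k, S.fib q b' C = 0 := by
  constructor
  · by_contra h1
    exact hC (h.not_fib hS h1 b).1
  · intro b'
    by_contra h1
    exact h.nc C b b' hC h1

private theorem gam_ne {p q : BPt L} {D : S.Div} (hD : (3 : ℤ) • D = S.gam p q) {C : S.PD}
    (hC : D C ≠ 0) : S.gam p q C ≠ 0 := by
  rw [← hD, Finsupp.smul_apply, smul_eq_mul]
  exact mul_ne_zero three_ne_zero hC

theorem prod_fib_D (hS : S.Smooth) {p q : BPt L} (h : S.Pair p q) (D : S.Div)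
    (hD : (3 : ℤ) • D = S.gam p q) (b : BPt k) :
    S.prod (S.fib p b) D = S.prod (S.fib q b) D := by
  refine prod_congr_left fun C hC => ?_
  have hC' := gam_ne hD hC
  exact inter_fib_coin (afacts hS) h.hp h.hq h.ne hC' (h.np b) (h.nq b) (h.not_fib hS hC' b).1
    (h.not_fib hS hC' b).2

theorem three_prod_fib_D (hS : S.Smooth) {p q : BPt L} (h : S.Pair p q) (D : S.Div)
    (hD : (3 : ℤ) • D = S.gam p q) (b : BPt k) :
    (3 : ℚ) • S.prod (S.fib p b) D = S.prod (S.fib p b) (S.fib q b) := by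
  have h1 : S.prod (S.fib p b) ((3 : ℤ) • D) = (3 : ℚ) • S.prod (S.fib p b) D := by
    rw [prod_zsmul_right hS]
    norm_num
  have h2 : S.prod (S.gam p q) (S.fib p b) = S.prod (S.fib q b) (S.fib p b) := by
    refine prod_congr_left fun C hC => ?_
    have h3 := h.not_gam hS hC
    exact inter_gam_fib (afacts hS) h.hp h.hq h.ne (h.np b) (h.nq b) hC h3.1 (h3.2 b)
  rw [← h1, hD, prod_comm hS, h2, prod_comm hS]

theorem three_prod_D_D (hS : S.Smooth) {p q : BPt L} (h : S.Pair p q) (D : S.Div)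
    (hD : (3 : ℤ) • D = S.gam p q) :
    (3 : ℚ) • S.prod D D = - S.prod (S.infD p) D := by
  have h1 : S.prod ((3 : ℤ) • D) D = (3 : ℚ) • S.prod D D := by
    rw [prod_zsmul_left hS]
    norm_num
  have h2 : S.prod (S.infD q) D = S.prod (S.infD p) D := by
    unfold infD
    rw [prod_add_left hS, prod_add_left hS, prod_fib_D hS h D hD, prod_fib_D hS h D hD]
  have h3 := prod_linEq hS (lin_iot hS h.hp h.np h.hq h.nq h.ne h.ni) (linEq_refl D)
  rw [prod_add_left hS, prod_add_left hS, h2] at h3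
  have h4 : S.prod (S.gam p q.iot) D = S.prod (S.gam p p.iot) D := by
    refine prod_congr_left fun C hC => ?_
    have hC' := gam_ne hD hC
    refine inter_iot_coin (afacts hS) h.hp h.hq h.ne hC' h.ni h.np.ne_iot ?_ ?_
    · by_contra h5
      have h6 : S.gam q p C ≠ 0 := by
        rw [gam_comm]
        exact hC'
      have h7 := gam_trans hS h.hq h.hp (mor_iot h.hq) h.ne.symm h.ni h.nq.ne_iot h6 h5
      obtain ⟨b, hb⟩ := cst_of_iot hS h.hq h.nq h7
      exact hb (h.not_fib hS hC' b).2
    · by_contra h5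
      obtain ⟨b, hb⟩ := cst_of_iot hS h.hp h.np h5
      exact hb (h.not_fib hS hC' b).1
  have h5 : S.prod (S.gam p p.iot) D = (3 : ℚ) • S.prod (S.infD p) D := by
    rw [prod_linEq hS (lin_self hS h.hp h.np) (linEq_refl D), prod_zsmul_left hS]
    norm_num
  rw [h4, h5, ← hD, h1] at h3
  have h6 : (3 : ℚ) • S.prod D D
      = (S.prod (S.infD p) D + S.prod (S.infD p) D) - (3 : ℚ) • S.prod (S.infD p) D := by
    rw [← h3]
    abel
  rw [h6]
  module

end Surf

end HB
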