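import Pool.Agent.HB.F.DegH
import Pool.Agent.HB.F.Pair

/-!
# HB-F-DegPos: the intersection numbers of fibres of two independent morphisms to `B`

`hA := afacts hS`.
PLAN.
* `deg_prod_pos`: choose `C` with `S.fib q b' C > 0` (`exists_fib hS h.hq h.nq b'`).  `p` is not constant on
  `C` (`h.nc`).  Let `P` be on `C` (`hA.exPt`) and `b₀` the value of `p` at `P` (`val_exists hA`);
  `exists_pos_of_val` (`HB/F/Vals.lean`, with `q := b₀.map L`, `val_map`) gives `C'` through `P` with
  `S.fib p b₀ C' ≠ 0`; `degF_pos hA` (`HB/F/Sup.lean`): `0 < S.deg (S.inter (S.fib p b₀) C)`, so by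
  `deg_inter_fib` also for `b`.  `S.prod (fib p b) (fib q b') = (fib q b').sum ..`: all terms are `≥ 0`
  (`degF_nonneg hA`, `fib p b C'' = 0` for the components `C''` of `fib q b'` by `h.nc`), the term of `C` is
  positive; `deg_add hS`, `deg_smul hS` (or `deg` as a linear map).
* `deg_prod_const`: `N := deg (prod (fib p (ip k)) (fib q (ip k)))`.  Independence of `b`: `prod` is a
  sum over the components of the second divisor, `deg_inter_fib`.  Independence of `b'`: `prod_comm hS`.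
* `phi_prod`: `lam_prod hA` (`HB/F/Sup.lean`) with `D := fib p b`, `D' := fib q b'`; `hD` by `h.nc`; for `P` on
  `C`, `C'` with `fib p b C ≠ 0`, `fib q b' C' ≠ 0`: `Val P p b`, `Val P q b'` (`val_iff_of_pos`, `val_map`).
-/

set_option autoImplicit false

open IsLocalRing

namespace HB

variable {k L : Type} [Field k] [Field L] [Algebra k L]

namespace Surf

variable {S : Surf k L} [CharZero k] [IsAlgClosed k]

private theorem dp_nonneg (hS : S.Smooth) {p : BPt L} (hp : S.Mor p) (hn : NCst k p) (b : BPt k)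
    (C : S.PD) : 0 ≤ S.fib p b C :=
  gam_nonneg (afacts hS) hp (mor_map (afacts hS) b) (hn b) C

private theorem dp_zero (_hS : S.Smooth) {p q : BPt L} (h : S.Pair p q) (b b' : BPt k) {C : S.PD}
    (hC : S.fib q b' C ≠ 0) : S.fib p b C = 0 := by
  by_contra h1
  exact h.nc C b b' h1 hC

private theorem dp_term (hS : S.Smooth) {p q : BPt L} (h : S.Pair p q) (b b' : BPt k) {C : S.PD}
    (hC : S.fib q b' C ≠ 0) : 0 < S.deg (S.inter (S.fib p b) C) := by
  have hA := afacts hS
  obtain ⟨P, hP⟩ := hA.exPt C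
  obtain ⟨b₀, hb₀⟩ := val_exists hA h.hp P
  obtain ⟨C', hC', hne⟩ := exists_pos_of_val hA h.hp (mor_map hA b₀) (h.np b₀) hb₀ (val_map hA P b₀)
  have h1 : 0 < S.deg (S.inter (S.fib p b₀) C) :=
    degF_pos hA _ C (dp_zero hS h b₀ b' hC) (dp_nonneg hS h.hp h.np b₀) hP hC' hne
  rwa [deg_inter_fib hS h.hp h.np C b b₀]

private theorem dp_sum (hS : S.Smooth) (D D' : S.Div) :
    S.deg (S.prod D D') = ∑ C ∈ D'.support, (D' C : ℚ) * S.deg (S.inter D C) := by
  let δ : S.CH0 →+ ℚ :=
    { toFun := S.deg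
      map_zero' := deg_zero hS
      map_add' := deg_add hS }
  change δ (S.prod D D') = _
  unfold prod
  rw [map_finsuppSum, Finsupp.sum]
  refine Finset.sum_congr rfl fun C _ => ?_
  exact deg_smul hS _ _

theorem deg_prod_pos (hS : S.Smooth) {p q : BPt L} (h : S.Pair p q) (b b' : BPt k) :
    0 < S.deg (S.prod (S.fib p b) (S.fib q b')) := by
  rw [dp_sum hS]
  obtain ⟨C, hC⟩ := exists_fib hS h.hq h.nq b'
  refine Finset.sum_pos (fun C' hC' => ?_) ⟨C, Finsupp.mem_support_iff.2 hC.ne'⟩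
  have h1 := Finsupp.mem_support_iff.1 hC'
  have h2 := lt_of_le_of_ne (dp_nonneg hS h.hq h.nq b' C') h1.symm
  exact mul_pos (by exact_mod_cast h2) (dp_term hS h b b' h1)

private theorem dp_left (hS : S.Smooth) {p : BPt L} (hp : S.Mor p) (hn : NCst k p) (D : S.Div)
    (b b' : BPt k) : S.deg (S.prod (S.fib p b) D) = S.deg (S.prod (S.fib p b') D) := by
  rw [dp_sum hS, dp_sum hS]
  refine Finset.sum_congr rfl fun C _ => ?_
  rw [deg_inter_fib hS hp hn C b b']

theorem deg_prod_const (hS : S.Smooth) {p q : BPt L} (h : S.Pair p q) :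
    ∃ N : ℚ, 0 < N ∧ ∀ b b' : BPt k, S.deg (S.prod (S.fib p b) (S.fib q b')) = N := by
  refine ⟨S.deg (S.prod (S.fib p (ip k)) (S.fib q (ip k))), deg_prod_pos hS h _ _, fun b b' => ?_⟩
  rw [dp_left hS h.hp h.np _ b (ip k), prod_comm hS, dp_left hS h.hq h.nq _ b' (ip k), prod_comm hS]

theorem phi_prod {A : Type} [AddCommGroup A] [Module ℚ A] (hS : S.Smooth)
    (lam : S.CH0 →ₗ[ℚ] A) {p q : BPt L} (h : S.Pair p q) (b b' : BPt k) (a : A)
    (ha : ∀ P : S.Pt, Val P p b → Val P q b' →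
      lam (Submodule.Quotient.mk (Finsupp.single P 1)) = a) :
    lam (S.prod (S.fib p b) (S.fib q b')) = S.deg (S.prod (S.fib p b) (S.fib q b')) • a := by
  have hA := afacts hS
  refine lam_prod hA lam a _ _ (fun C hC => dp_zero hS h b b' hC) ?_
  intro P C C' hC hC' h1 h2
  refine ha P ?_ ?_
  · exact (val_iff_of_pos hA hC h.hp (mor_map hA b) (h.np b) h1 b).2 (val_map hA P b)
  · exact (val_iff_of_pos hA hC' h.hq (mor_map hA b') (h.nq b') h2 b').2 (val_map hA P b')

end Surf

end HB
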