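import Pool.Agent.HB.F.Chern
import Pool.Agent.HB.F.DegPos

/-!
# HB-F-DegZ: degrees of the products of the divisors `Zd a`

PLAN.  `prod (Zd a) (Zd 1) = prod (fib p) (fib p) - prod (fib p) (fib q) - prod (fib q) (fib p) +
prod (fib q) (fib q)` (`prod_add_left hX`, `prod_neg_left hX`, ...: `Zd` is a difference), `deg` is additive
(`HB/A/DegA.lean`: `deg_add hX`, `deg_neg hX`), and all four degrees are equal by
`deg_prod_const hX (G.pair0 hX)`, `deg_prod_const hX (G.pair2 hX)`.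
-/

set_option autoImplicit false

open IsLocalRing

namespace HB

variable {k K : Type} [Field k] [Field K] [Algebra k K] [CharZero k] [IsAlgClosed k] [CharZero K]

namespace Geo

variable {X : Surf k K} {G : Geo X} {Z : ZPair k}

/-- bilinear expansion -/
theorem prod_Zd (hX : X.Smooth) (a b : Fin 5) : X.prod (G.Zd Z a) (G.Zd Z b) =
    X.prod (X.fib (G.pt a) Z.p) (X.fib (G.pt b) Z.p) -
      X.prod (X.fib (G.pt a) Z.p) (X.fib (G.pt b) Z.q) -
      X.prod (X.fib (G.pt a) Z.q) (X.fib (G.pt b) Z.p) +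
      X.prod (X.fib (G.pt a) Z.q) (X.fib (G.pt b) Z.q) := by
  unfold Zd
  rw [sub_eq_add_neg, sub_eq_add_neg, Surf.prod_add_left hX, Surf.prod_add_right,
    Surf.prod_add_right, Surf.prod_neg_right hX, Surf.prod_neg_left hX, Surf.prod_neg_left hX,
    Surf.prod_neg_right hX]
  abel

private theorem deg_Zd_aux (hX : X.Smooth) {a b : Fin 5} (h : X.Pair (G.pt a) (G.pt b)) :
    X.deg (X.prod (G.Zd Z a) (G.Zd Z b)) = 0 := by
  obtain ⟨N, -, hN⟩ := Surf.deg_prod_const hX h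
  rw [prod_Zd hX, sub_eq_add_neg, sub_eq_add_neg, Surf.deg_add hX, Surf.deg_add hX,
    Surf.deg_add hX, Surf.deg_neg hX, Surf.deg_neg hX, hN, hN, hN, hN]
  ring

theorem deg_Zd0 (hX : X.Smooth) : X.deg (X.prod (G.Zd Z 0) (G.Zd Z 1)) = 0 :=
  deg_Zd_aux hX (G.pair0 hX)

theorem deg_Zd2 (hX : X.Smooth) : X.deg (X.prod (G.Zd Z 2) (G.Zd Z 1)) = 0 :=
  deg_Zd_aux hX (G.pair2 hX)

end Geo

end HB
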