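import Pool.Agent.HB.F.GeoP

/-!
# HB-F-Dvs: the divisors of the class relations and of the flag of the bundle

`RFive G Z ρ`: the class relations (R5), for every valuation of the function field.
`G.ND Z i`, `G.WD`: the divisors with coefficients `G.NN Z C.dv i`, `G.VV C.dv` (`HB/D/Defs.lean`);
`G.D01`, `G.D21`: one third of the coincidence divisors; `G.flagD Z`: the divisors of the flag.

PLAN.  `mkDiv f` has the coefficients `f C` if `f` has finite support (`HB/F/Defs.lean`, unfold `mkDiv`,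
`dif_pos`).
* `WD_apply`: `VV C.dv` is a combination of `iInf (pt a)` (`max 0 (-(v x))`) and `iE (s b)`, `iE (s' b)`
  (`max 0 (-(v (eX s)))/2`): zero if the orders of the functions `x a`, `eX (s b)`, `eX (s' b)` along `C`
  are zero (or the function is `0`): finite by `(afacts hX).finite`.
* `ND_apply`: by `RFive` `3 * NN` is a combination of the `iB (pt a) (pt b)`, `iB (pt a) (Z.p.map K)`, ... (which
  have finite support: `gam_apply` and `Finsupp` of `gam`; `G.pt 3 = (ip k).map K`, `G.mor`, `NCst`),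
  `VV` and `v (ρ i)`.
* `D01_apply`, `D21_apply`: `G.div01 hX`: `3 • D = gam (pt 0) (pt 1)`, so `iB / 3 = D C`.
-/

set_option autoImplicit false

open IsLocalRing

namespace HB

variable {k K : Type} [Field k] [Field K] [Algebra k K] [CharZero k] [IsAlgClosed k] [CharZero K]

/-- The class relations. -/
structure RFive {X : Surf k K} (G : Geo X) (Z : ZPair k) (ρ : Fin 5 → K) : Prop where
  ne : ∀ i, ρ i ≠ 0
  rel0 : ∀ D : DV k K, 3 * G.NN Z D 0 =
    3 * (D.iB (G.pt 0) (Z.p.map K) - D.iB (G.pt 0) (Z.q.map K)) + D.iB (G.pt 0) (G.pt 3) +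
      D.iB (G.pt 0) (G.pt 4) + 2 * D.iB (G.pt 0) (G.pt 1) + G.VV D - D.v (ρ 0)
  rel1 : ∀ D : DV k K, 3 * G.NN Z D 1 =
    3 * (D.iB (G.pt 1) (Z.p.map K) - D.iB (G.pt 1) (Z.q.map K)) + D.iB (G.pt 1) (G.pt 3) +
      D.iB (G.pt 1) (G.pt 4) + 2 * (D.iB (G.pt 0) (G.pt 1) + D.iB (G.pt 2) (G.pt 1)) + G.VV D -
        D.v (ρ 1)
  rel2 : ∀ D : DV k K, 3 * G.NN Z D 2 =
    3 * (D.iB (G.pt 2) (Z.p.map K) - D.iB (G.pt 2) (Z.q.map K)) + D.iB (G.pt 2) (G.pt 3) +
      D.iB (G.pt 2) (G.pt 4) + 2 * D.iB (G.pt 2) (G.pt 1) + G.VV D - D.v (ρ 2)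
  rel3 : ∀ D : DV k K, 3 * G.NN Z D 3 =
    2 * (D.iB (G.pt 0) (G.pt 3) + D.iB (G.pt 1) (G.pt 3) + D.iB (G.pt 2) (G.pt 3)) + G.VV D -
      D.v (ρ 3)
  rel4 : ∀ D : DV k K, 3 * G.NN Z D 4 =
    2 * (D.iB (G.pt 0) (G.pt 4) + D.iB (G.pt 1) (G.pt 4) + D.iB (G.pt 2) (G.pt 4)) + G.VV D -
      D.v (ρ 4)

namespace Geo

variable {X : Surf k K} (G : Geo X) (Z : ZPair k)

/-- The divisor of the line bundle `N` at the mark `i`. -/
noncomputable def ND (i : Fin 5) : X.Div := X.mkDiv fun C => G.NN Z C.dv i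

/-- The common divisor of the class relations. -/
noncomputable def WD : X.Div := X.mkDiv fun C => G.VV C.dv

/-- The divisor `D_01`, with `3 D_01 = gam (pt 0) (pt 1)`. -/
noncomputable def D01 : X.Div := X.mkDiv fun C => C.dv.iB (G.pt 0) (G.pt 1) / 3

/-- The divisor `D_21`, with `3 D_21 = gam (pt 2) (pt 1)`. -/
noncomputable def D21 : X.Div := X.mkDiv fun C => C.dv.iB (G.pt 2) (G.pt 1) / 3

/-- The divisors of the line bundle quotients of the flag. -/
noncomputable def flagD : Fin 5 → X.Div :=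
  ![G.ND Z 3 - (X.gam (G.pt 0) (G.pt 3) + X.gam (G.pt 1) (G.pt 3) + X.gam (G.pt 2) (G.pt 3)),
    G.ND Z 4 - (X.gam (G.pt 0) (G.pt 4) + X.gam (G.pt 1) (G.pt 4) + X.gam (G.pt 2) (G.pt 4)),
    G.ND Z 1 - X.gam (G.pt 0) (G.pt 1) - X.gam (G.pt 2) (G.pt 1),
    G.ND Z 0 - G.D01, G.ND Z 2 - G.D21]

variable {G Z}

section aux

private def FS (f : X.PD → ℤ) : Prop := (Function.support f).Finite

omit [CharZero k] [IsAlgClosed k] [CharZero K] in
private theorem fs_of {f g : X.PD → ℤ} (hg : FS g) (h : ∀ C, f C ≠ 0 → g C ≠ 0) : FS f :=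
  Set.Finite.subset hg fun C hC => h C hC

omit [CharZero k] [IsAlgClosed k] [CharZero K] in
private theorem fs_add {f g : X.PD → ℤ} (hf : FS f) (hg : FS g) : FS (fun C => f C + g C) :=
  Set.Finite.subset (Set.Finite.union hf hg) (Function.support_add f g)

omit [CharZero k] [IsAlgClosed k] [CharZero K] in
private theorem fs_sub {f g : X.PD → ℤ} (hf : FS f) (hg : FS g) : FS (fun C => f C - g C) :=
  Set.Finite.subset (Set.Finite.union hf hg) (Function.support_sub f g)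

omit [CharZero k] [IsAlgClosed k] [CharZero K] in
private theorem fs_mul (c : ℤ) {f : X.PD → ℤ} (hf : FS f) : FS (fun C => c * f C) :=
  fs_of hf fun _ hC h0 => hC (by rw [h0, mul_zero])

omit [CharZero k] [IsAlgClosed k] [CharZero K] in
private theorem mkDiv_app {f : X.PD → ℤ} (h : FS f) (C : X.PD) : X.mkDiv f C = f C := by
  unfold Surf.mkDiv
  rw [dif_pos (show (Function.support f).Finite from h)]
  rfl

omit [CharZero K] in
private theorem fs_iB (hX : X.Smooth) {p q : BPt K} (hp : X.Mor p) (hq : X.Mor q) (hpq : p ≠ q) :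
    FS (fun C : X.PD => C.dv.iB p q) := by
  have h : (fun C : X.PD => C.dv.iB p q) = fun C : X.PD => X.gam p q C := by
    funext C
    rw [Surf.gam_apply (Surf.afacts hX) hp hq hpq]
  rw [h]
  exact Finsupp.hasFiniteSupport _

omit [CharZero K] in
private theorem fs_v (hX : X.Smooth) (f : K) : FS (fun C : X.PD => C.dv.v f) := by
  by_cases hf : f = 0
  · subst hf
    have h : (fun C : X.PD => C.dv.v (0 : K)) = fun _ => 0 := by
      funext C
      exact C.dv.zero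
    unfold FS
    rw [h, Function.support_fun_zero]
    exact Set.finite_empty
  · exact (Surf.afacts hX).finite f hf

omit [CharZero K] in
private theorem fs_iInf (hX : X.Smooth) (p : BPt K) : FS (fun C : X.PD => C.dv.iInf p) :=
  fs_of (fs_v hX p.x) fun C hC h0 => hC (by unfold DV.iInf; rw [h0]; simp)

omit [CharZero K] in
private theorem fs_iE (hX : X.Smooth) (P : EPt K) : FS (fun C : X.PD => C.dv.iE P) :=
  fs_of (fs_v hX (eX P)) fun C hC h0 => hC (by unfold DV.iE; rw [h0]; simp)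

private theorem fs_VV (hX : X.Smooth) : FS (fun C : X.PD => G.VV C.dv) := by
  have h : (fun C : X.PD => G.VV C.dv) = fun C : X.PD =>
      C.dv.iInf (G.pt 0) + C.dv.iInf (G.pt 1) + C.dv.iInf (G.pt 2) -
        6 * ((C.dv.iE (G.s 0) + C.dv.iE (G.s' 0)) + (C.dv.iE (G.s 1) + C.dv.iE (G.s' 1)) +
          (C.dv.iE (G.s 2) + C.dv.iE (G.s' 2))) := by
    funext C
    unfold Geo.VV
    rw [Fin.sum_univ_three]
  rw [h]
  exact fs_sub (fs_add (fs_add (fs_iInf hX _) (fs_iInf hX _)) (fs_iInf hX _))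
    (fs_mul 6 (fs_add (fs_add (fs_add (fs_iE hX _) (fs_iE hX _))
      (fs_add (fs_iE hX _) (fs_iE hX _))) (fs_add (fs_iE hX _) (fs_iE hX _))))

private theorem pt_ne_lt (hX : X.Smooth) (a b : Fin 5) (hab : a < b) : G.pt a ≠ G.pt b := by
  have h3 : ∀ a : Fin 5, a < 3 → G.pt a ≠ G.pt 3 := fun a ha => by
    rw [G.pt_three]
    exact G.ncst a ha _
  have h4 : ∀ a : Fin 5, a < 3 → G.pt a ≠ G.pt 4 := fun a ha => by
    rw [G.pt_four]
    exact G.ncst a ha _
  have h34 : G.pt 3 ≠ G.pt 4 := by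
    rw [G.pt3, G.pt4]
    intro h
    injection h with h
    have h2 : (2 : K) = 0 := by linear_combination h
    exact two_ne_zero h2
  have h02 : G.pt 0 ≠ G.pt 2 := by
    intro h
    have h1 : G.x 0 = G.x 2 := congrArg BPt.x h
    rw [G.x2] at h1
    have h2 : (algebraMap k K G.ζ - 1) * G.x 0 = 0 := by linear_combination -h1
    rcases mul_eq_zero.1 h2 with h5 | h5
    · have h6 : G.ζ = 1 := by
        apply (algebraMap k K).injective
        rw [map_one]
        linear_combination h5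
      have h7 := G.hζ
      rw [h6] at h7
      norm_num at h7
    · exact G.x_ne_zero 0 h5
  have h01 := (G.pair0 hX).ne
  have h12 := (G.pair2 hX).ne.symm
  fin_cases a <;> fin_cases b <;>
    first
    | exact absurd hab (by decide)
    | exact h01
    | exact h02
    | exact h12
    | exact h34
    | exact h3 _ (by decide)
    | exact h4 _ (by decide)

private theorem pt_ne' (hX : X.Smooth) (a b : Fin 5) (hab : a ≠ b) : G.pt a ≠ G.pt b := by
  rcases lt_or_gt_of_ne hab with h | h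
  · exact pt_ne_lt hX a b h
  · exact (pt_ne_lt hX b a h).symm

private theorem fs_pt (hX : X.Smooth) (a b : Fin 5) (hab : a ≠ b) :
    FS (fun C : X.PD => C.dv.iB (G.pt a) (G.pt b)) :=
  fs_iB hX (G.mor a) (G.mor b) (pt_ne' hX a b hab)

private theorem fs_cst (hX : X.Smooth) (a : Fin 5) (ha : a < 3) (b : BPt k) :
    FS (fun C : X.PD => C.dv.iB (G.pt a) (b.map K)) :=
  fs_iB hX (G.mor a) (Surf.mor_map (Surf.afacts hX) b) (G.ncst a ha b)

private theorem fs_NN (hX : X.Smooth) {ρ : Fin 5 → K} (hR : RFive G Z ρ) (i : Fin 5) :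
    FS (fun C : X.PD => G.NN Z C.dv i) := by
  have key : FS (fun C : X.PD => 3 * G.NN Z C.dv i) := by
    fin_cases i
    · change FS (fun C : X.PD => 3 * G.NN Z C.dv 0)
      rw [funext fun C : X.PD => hR.rel0 C.dv]
      exact fs_sub (fs_add (fs_add (fs_add (fs_add (fs_mul 3 (fs_sub (fs_cst hX 0 (by decide) _)
        (fs_cst hX 0 (by decide) _))) (fs_pt hX 0 3 (by decide))) (fs_pt hX 0 4 (by decide)))
        (fs_mul 2 (fs_pt hX 0 1 (by decide)))) (fs_VV hX)) (fs_v hX _)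
    · change FS (fun C : X.PD => 3 * G.NN Z C.dv 1)
      rw [funext fun C : X.PD => hR.rel1 C.dv]
      exact fs_sub (fs_add (fs_add (fs_add (fs_add (fs_mul 3 (fs_sub (fs_cst hX 1 (by decide) _)
        (fs_cst hX 1 (by decide) _))) (fs_pt hX 1 3 (by decide))) (fs_pt hX 1 4 (by decide)))
        (fs_mul 2 (fs_add (fs_pt hX 0 1 (by decide)) (fs_pt hX 2 1 (by decide))))) (fs_VV hX))
        (fs_v hX _)
    · change FS (fun C : X.PD => 3 * G.NN Z C.dv 2)
      rw [funext fun C : X.PD => hR.rel2 C.dv]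
      exact fs_sub (fs_add (fs_add (fs_add (fs_add (fs_mul 3 (fs_sub (fs_cst hX 2 (by decide) _)
        (fs_cst hX 2 (by decide) _))) (fs_pt hX 2 3 (by decide))) (fs_pt hX 2 4 (by decide)))
        (fs_mul 2 (fs_pt hX 2 1 (by decide)))) (fs_VV hX)) (fs_v hX _)
    · change FS (fun C : X.PD => 3 * G.NN Z C.dv 3)
      rw [funext fun C : X.PD => hR.rel3 C.dv]
      exact fs_sub (fs_add (fs_mul 2 (fs_add (fs_add (fs_pt hX 0 3 (by decide))
        (fs_pt hX 1 3 (by decide))) (fs_pt hX 2 3 (by decide)))) (fs_VV hX)) (fs_v hX _)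
    · change FS (fun C : X.PD => 3 * G.NN Z C.dv 4)
      rw [funext fun C : X.PD => hR.rel4 C.dv]
      exact fs_sub (fs_add (fs_mul 2 (fs_add (fs_add (fs_pt hX 0 4 (by decide))
        (fs_pt hX 1 4 (by decide))) (fs_pt hX 2 4 (by decide)))) (fs_VV hX)) (fs_v hX _)
  exact fs_of key fun C hC h0 => hC (by omega)

end aux

theorem WD_apply (hX : X.Smooth) (C : X.PD) : G.WD C = G.VV C.dv := by
  exact mkDiv_app (fs_VV hX) C

theorem ND_apply (hX : X.Smooth) {ρ : Fin 5 → K} (hR : RFive G Z ρ) (i : Fin 5) (C : X.PD) :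
    G.ND Z i C = G.NN Z C.dv i := by
  exact mkDiv_app (fs_NN hX hR i) C

theorem D01_apply (hX : X.Smooth) (C : X.PD) : 3 * G.D01 C = C.dv.iB (G.pt 0) (G.pt 1) := by
  have h1 : G.D01 C = C.dv.iB (G.pt 0) (G.pt 1) / 3 :=
    mkDiv_app (fs_of (fs_pt hX 0 1 (by decide)) fun C hC h0 => hC (by rw [h0]; rfl)) C
  obtain ⟨D, hD⟩ := G.div01 hX
  have h2 : 3 * D C = X.gam (G.pt 0) (G.pt 1) C := by
    rw [← hD, Finsupp.smul_apply, smul_eq_mul]
  rw [Surf.gam_apply (Surf.afacts hX) (G.mor 0) (G.mor 1) (pt_ne' hX 0 1 (by decide))] at h2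
  rw [h1, ← h2]
  omega

theorem D21_apply (hX : X.Smooth) (C : X.PD) : 3 * G.D21 C = C.dv.iB (G.pt 2) (G.pt 1) := by
  have h1 : G.D21 C = C.dv.iB (G.pt 2) (G.pt 1) / 3 :=
    mkDiv_app (fs_of (fs_pt hX 2 1 (by decide)) fun C hC h0 => hC (by rw [h0]; rfl)) C
  obtain ⟨D, hD⟩ := G.div21 hX
  have h2 : 3 * D C = X.gam (G.pt 2) (G.pt 1) C := by
    rw [← hD, Finsupp.smul_apply, smul_eq_mul]
  rw [Surf.gam_apply (Surf.afacts hX) (G.mor 2) (G.mor 1) (pt_ne' hX 2 1 (by decide))] at h2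
  rw [h1, ← h2]
  omega

theorem three_D01 (hX : X.Smooth) : (3 : ℤ) • G.D01 = X.gam (G.pt 0) (G.pt 1) := by
  apply Finsupp.ext
  intro C
  rw [Finsupp.smul_apply, smul_eq_mul, D01_apply hX,
    Surf.gam_apply (Surf.afacts hX) (G.mor 0) (G.mor 1) (pt_ne' hX 0 1 (by decide))]

theorem three_D21 (hX : X.Smooth) : (3 : ℤ) • G.D21 = X.gam (G.pt 2) (G.pt 1) := by
  apply Finsupp.ext
  intro C
  rw [Finsupp.smul_apply, smul_eq_mul, D21_apply hX,
    Surf.gam_apply (Surf.afacts hX) (G.mor 2) (G.mor 1) (pt_ne' hX 2 1 (by decide))]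

/-- the coefficients of the coincidence divisors of different marks -/
theorem gam_pt_apply (hX : X.Smooth) (a b : Fin 5) (hab : a ≠ b) (C : X.PD) :
    X.gam (G.pt a) (G.pt b) C = C.dv.iB (G.pt a) (G.pt b) := by
  exact Surf.gam_apply (Surf.afacts hX) (G.mor a) (G.mor b) (pt_ne' hX a b hab) C

/-- the coefficients of the divisors of the flag -/
theorem flagD_apply (hX : X.Smooth) {ρ : Fin 5 → K} (hR : RFive G Z ρ) (C : X.PD) :
    G.flagD Z 0 C = G.NN Z C.dv 3 - (C.dv.iB (G.pt 0) (G.pt 3) + C.dv.iB (G.pt 1) (G.pt 3) +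
        C.dv.iB (G.pt 2) (G.pt 3)) ∧
      G.flagD Z 1 C = G.NN Z C.dv 4 - (C.dv.iB (G.pt 0) (G.pt 4) + C.dv.iB (G.pt 1) (G.pt 4) +
        C.dv.iB (G.pt 2) (G.pt 4)) ∧
      G.flagD Z 2 C = G.NN Z C.dv 1 - C.dv.iB (G.pt 0) (G.pt 1) - C.dv.iB (G.pt 2) (G.pt 1) ∧
      3 * G.flagD Z 3 C = 3 * G.NN Z C.dv 0 - C.dv.iB (G.pt 0) (G.pt 1) ∧
      3 * G.flagD Z 4 C = 3 * G.NN Z C.dv 2 - C.dv.iB (G.pt 2) (G.pt 1) := by
  have e0 : G.flagD Z 0 C = G.ND Z 3 C - (X.gam (G.pt 0) (G.pt 3) C + X.gam (G.pt 1) (G.pt 3) C +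
      X.gam (G.pt 2) (G.pt 3) C) := rfl
  have e1 : G.flagD Z 1 C = G.ND Z 4 C - (X.gam (G.pt 0) (G.pt 4) C + X.gam (G.pt 1) (G.pt 4) C +
      X.gam (G.pt 2) (G.pt 4) C) := rfl
  have e2 : G.flagD Z 2 C = G.ND Z 1 C - X.gam (G.pt 0) (G.pt 1) C - X.gam (G.pt 2) (G.pt 1) C :=
    rfl
  have e3 : G.flagD Z 3 C = G.ND Z 0 C - G.D01 C := rfl
  have e4 : G.flagD Z 4 C = G.ND Z 2 C - G.D21 C := rfl
  refine ⟨?_, ?_, ?_, ?_, ?_⟩
  · rw [e0, ND_apply hX hR, gam_pt_apply hX 0 3 (by decide), gam_pt_apply hX 1 3 (by decide),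
      gam_pt_apply hX 2 3 (by decide)]
  · rw [e1, ND_apply hX hR, gam_pt_apply hX 0 4 (by decide), gam_pt_apply hX 1 4 (by decide),
      gam_pt_apply hX 2 4 (by decide)]
  · rw [e2, ND_apply hX hR, gam_pt_apply hX 0 1 (by decide), gam_pt_apply hX 2 1 (by decide)]
  · rw [e3, ND_apply hX hR, mul_sub, D01_apply hX]
  · rw [e4, ND_apply hX hR, mul_sub, D21_apply hX]

end Geo

end HB
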