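import Pool.Agent.HB.D.Defs
import Pool.Agent.HB.Z.Mor
import Pool.Agent.HB.F.Alp
import Pool.Agent.HB.F.Pair
import Pool.Agent.HB.B.Bridge

/-!
# HB-F-GeoP: the marked points of `Geo X` as points of `B`

`g : Geo X` (`HB/Geo.lean`), `g.pt a = (x a, y a)`.
PLAN.
* `mor_of_quad`: `P.exists_chart` (`HB/A/LocC.lean`) gives `l ∈ {1, s, t}` with `S.chart l ≤ O_P`;
  `S.chart l` is the integral closure of `S.base l ∋ m / l` (`m ∈ {1, s, t}`; `S.mem_chart`,
  `S.div_mem_base`).  `l = 1`: `x² - s x + t = 0` shows `x ∈ S.chart 1`.  `l = t`: `z = x⁻¹` (`x ≠ 0` since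
  `t ≠ 0`; `t ≠ 0` by `S.indep`) satisfies `z² - (s/t) z + 1/t = 0`, so `x⁻¹ ∈ S.chart t`.  `l = s`:
  `z = x / s` satisfies `z² - z + (t/s) (1/s) = 0`, so `z ∈ O_P`, `z (1 - z) = (t/s)(1/s)`; `O_P` is local so
  `z⁻¹ ∈ O_P` (then `x⁻¹ = z⁻¹ (1/s) ∈ O_P`) or `(1 - z)⁻¹ ∈ O_P` (then `x = s z = (t/s)/(1 - z) ∈ O_P`)
  (`van_or_inv_mem` from `HB/F/Van.lean`: if `Van z` and `Van (1 - z)` then `Van 1`).
* `indep` facts: a nonzero polynomial relation between `S.s` and `S.t` over `k` is impossible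
  (`S.indep : AlgebraicIndependent k ![S.s, S.t]`): `x 0 = c` gives `t = c s - c²`; `x 0 = x 1` gives
  `s² = 4 t`; `ζ x 0 = x 1` gives `ζ s² = (1 + ζ)² t`, and `(1 + ζ)² = ζ`.
* `Geo.ncst`: for `a = 0, 1`; `a = 2` by `NCst.alp`.
* `Geo.pair0`, `Geo.pair2`: `nc` by `nc_of_st hS` (`HB/F/NC.lean`), for `pair2`: `b = b'.alp`
  (`BPt.alp_surj`) and `fib_alp`.
* `Geo.div01`: `iB_bridge` (`HB/B/Bridge.lean`, with `D := C.dv`, `C.dv_v`, `C.dv_ge_zero`) and `g.three01`:
  `C.dv.iB (pt 0) (pt 1) = 3 n(C)`, `gam_apply`; `D := Finsupp` with values `n(C)`: support contained in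
  the support of `gam`.
-/

set_option autoImplicit false

open IsLocalRing

namespace HB

variable {k L : Type} [Field k] [Field L] [Algebra k L]

private theorem int_of_quad (R : Subring L) {x a b : L} (ha : a ∈ R) (hb : b ∈ R)
    (h : x ^ 2 - a * x + b = 0) : IsIntegral R x := by
  refine ⟨Polynomial.X ^ 2 - Polynomial.C (⟨a, ha⟩ : R) * Polynomial.X +
    Polynomial.C (⟨b, hb⟩ : R), ?_, ?_⟩
  · monicity!
  · simp only [Polynomial.eval₂_add, Polynomial.eval₂_sub, Polynomial.eval₂_mul,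
      Polynomial.eval₂_pow, Polynomial.eval₂_X, Polynomial.eval₂_C]
    exact h

private theorem aff_congr' {F : Type} [Field F] {x y x' y' : F} (h : y ^ 2 = x ^ 6 + 1)
    (h' : y' ^ 2 = x' ^ 6 + 1) (hx : x = x') (hy : y = y') :
    BPt.aff x y h = BPt.aff x' y' h' := by
  subst hx
  subst hy
  rfl

theorem Surf.mor_of_quad {S : Surf k L} {x : L} (h : x ^ 2 - S.s * x + S.t = 0) (P : S.Pt) :
    x ∈ P.1.toSubring ∨ x⁻¹ ∈ P.1.toSubring := by
  have hs0 : S.s ≠ 0 := by
    have := S.indep.ne_zero 0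
    simpa using this
  have ht0 : S.t ≠ 0 := by
    have := S.indep.ne_zero 1
    simpa using this
  obtain ⟨O, l, hl, h0, p, hp, hm, rfl⟩ := P
  rcases S.exists_chart_le hl h0 p with hc | hc | hc
  · left
    apply hc
    rw [S.mem_chart]
    have e1 : S.s / 1 ∈ S.base 1 := S.div_mem_base S.s_mem_V
    have e2 : S.t / 1 ∈ S.base 1 := S.div_mem_base S.t_mem_V
    rw [div_one] at e1 e2
    exact int_of_quad _ e1 e2 h
  · have hz : x / S.s ∈ S.chart S.s := by
      rw [S.mem_chart]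
      have e1 : (1 : L) ∈ S.base S.s := one_mem _
      have e2 : S.t / S.s * (1 / S.s) ∈ S.base S.s :=
        mul_mem (S.div_mem_base S.t_mem_V) (S.div_mem_base S.one_mem_V)
      refine int_of_quad _ e1 e2 ?_
      field_simp
      linear_combination h
    have hinv : 1 / S.s ∈ (LocalSubring.ofPrime (S.chart l) p).toSubring :=
      hc (S.base_le_chart _ (S.div_mem_base S.one_mem_V))
    have htS : S.t / S.s ∈ (LocalSubring.ofPrime (S.chart l) p).toSubring :=
      hc (S.base_le_chart _ (S.div_mem_base S.t_mem_V))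
    rcases van_or_inv_mem (hc hz) with hv | hv
    · left
      have h1 : 1 - x / S.s ∈ (LocalSubring.ofPrime (S.chart l) p).toSubring :=
        sub_mem (one_mem _) (hc hz)
      have h2 : (1 - x / S.s)⁻¹ ∈ (LocalSubring.ofPrime (S.chart l) p).toSubring := by
        rcases van_or_inv_mem h1 with h3 | h3
        · exfalso
          apply not_van_one (LocalSubring.ofPrime (S.chart l) p)
          have := h3.add hv
          simpa using this
        · exact h3
      have h3 : 1 - x / S.s ≠ 0 := by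
        intro h4
        have h5 := hv
        have h6 : x / S.s = 1 := by linear_combination -h4
        rw [h6] at h5
        exact not_van_one _ h5
      have h4 : x = S.t / S.s * (1 - x / S.s)⁻¹ := by
        rw [eq_mul_inv_iff_mul_eq₀ h3]
        field_simp
        linear_combination -h
      rw [h4]
      exact mul_mem htS h2
    · right
      have h4 : x⁻¹ = (x / S.s)⁻¹ * (1 / S.s) := by
        rw [inv_div]
        by_cases hx : x = 0
        · rw [hx, inv_zero, div_zero, zero_mul]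
        · field_simp
      rw [h4]
      exact mul_mem hv hinv
  · right
    apply hc
    rw [S.mem_chart]
    have hx : x ≠ 0 := by
      rintro rfl
      apply ht0
      linear_combination h
    have e1 : S.s / S.t ∈ S.base S.t := S.div_mem_base S.s_mem_V
    have e2 : 1 / S.t ∈ S.base S.t := S.div_mem_base S.one_mem_V
    refine int_of_quad _ e1 e2 ?_
    field_simp
    linear_combination h

namespace Geo

variable {X : Surf k L} (g : Geo X)

theorem pt_two : g.pt 2 = (g.pt 0).alp (algebraMap k L g.ζ) (alpz L g.hζ) := by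
  exact aff_congr' _ _ g.x2 g.y2

private theorem quad0 : g.x 0 ^ 2 - X.s * g.x 0 + X.t = 0 := by
  rw [g.hs, g.ht]
  ring

private theorem quad1 : g.x 1 ^ 2 - X.s * g.x 1 + X.t = 0 := by
  rw [g.hs, g.ht]
  ring

theorem pt_three : g.pt 3 = (ip k).map L := by
  change BPt.inf (1 : L) _ = BPt.inf (algebraMap k L 1) _
  congr 1
  exact (map_one _).symm

theorem pt_four : g.pt 4 = (im k).map L := by
  change BPt.inf (-1 : L) _ = BPt.inf (algebraMap k L (-1)) _
  congr 1
  rw [map_neg, map_one]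

variable [CharZero k] [IsAlgClosed k]

omit [CharZero k] [IsAlgClosed k] in
private theorem no_rel {X : Surf k L} (p : MvPolynomial (Fin 2) k) (a b : k)
    (hp : MvPolynomial.eval ![a, b] p ≠ 0) : MvPolynomial.aeval ![X.s, X.t] p ≠ 0 := by
  intro h
  apply hp
  rw [(algebraicIndependent_iff.1 X.indep) p h, map_zero]

omit [CharZero k] [IsAlgClosed k] in
private theorem ncst_aux {X : Surf k L} {x y : L} (h : y ^ 2 = x ^ 6 + 1)
    (hq : x ^ 2 - X.s * x + X.t = 0) : NCst k (BPt.aff x y h) := by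
  intro b hb
  cases b with
  | inf e he => exact absurd hb (by simp [BPt.map])
  | aff c d hd =>
    have hx : x = algebraMap k L c := congrArg BPt.x hb
    have h1 := no_rel (X := X) (MvPolynomial.X 1 - MvPolynomial.C c * MvPolynomial.X 0 +
      MvPolynomial.C (c ^ 2)) 0 (1 - c ^ 2) (by simp)
    apply h1
    simp only [map_add, map_sub, map_mul, MvPolynomial.aeval_X, MvPolynomial.aeval_C,
      Matrix.cons_val_zero, Matrix.cons_val_one]
    rw [hx] at hq
    rw [map_pow]
    linear_combination hq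

theorem ncst0 : NCst k (g.pt 0) := ncst_aux (g.curve 0) g.quad0

theorem ncst1 : NCst k (g.pt 1) := ncst_aux (g.curve 1) g.quad1

theorem ncst2 : NCst k (g.pt 2) := by
  have h := NCst.alp g.hζ (ncst_aux (g.curve 0) g.quad0)
  have e : g.pt 2 = (g.pt 0).alp (algebraMap k L g.ζ) (alpz L g.hζ) := g.pt_two
  rw [e]
  exact h

theorem ncst (a : Fin 5) (ha : a < 3) : NCst k (g.pt a) := by
  fin_cases a
  · exact g.ncst0
  · exact g.ncst1
  · exact g.ncst2
  · exact absurd ha (by decide)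
  · exact absurd ha (by decide)

private theorem x01 : g.x 0 ≠ g.x 1 := by
  intro h
  have h1 := no_rel (X := X) (MvPolynomial.X 0 ^ 2 - MvPolynomial.C 4 * MvPolynomial.X 1) 1 0
    (by simp)
  apply h1
  simp only [map_sub, map_mul, map_pow, MvPolynomial.aeval_X, MvPolynomial.aeval_C,
    Matrix.cons_val_zero, Matrix.cons_val_one, map_ofNat]
  rw [g.hs, g.ht, h]
  ring

private theorem x21 : g.x 2 ≠ g.x 1 := by
  intro h
  rw [g.x2] at h
  have hz : g.ζ ≠ 0 := by
    intro h0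
    have := g.hζ
    rw [h0] at this
    simp at this
  have h1 := no_rel (X := X) (MvPolynomial.C g.ζ * MvPolynomial.X 0 ^ 2 -
    MvPolynomial.C ((1 + g.ζ) ^ 2) * MvPolynomial.X 1) 1 0 (by simpa using hz)
  apply h1
  simp only [map_sub, map_mul, map_pow, map_add, map_one, MvPolynomial.aeval_X,
    MvPolynomial.aeval_C, Matrix.cons_val_zero, Matrix.cons_val_one]
  rw [g.hs, g.ht, ← h]
  ring

theorem pair0 (hX : X.Smooth) : X.Pair (g.pt 0) (g.pt 1) := by
  refine ⟨g.mor 0, g.mor 1, g.ncst0, g.ncst1, ?_, ?_, ?_⟩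
  · intro h
    exact g.x01 (congrArg BPt.x h)
  · intro h
    exact g.x01 (congrArg BPt.x h)
  · exact fun C b b' h1 h2 => Surf.nc_of_st hX (g.mor 0) (g.mor 1) (g.ncst0) (g.ncst1) g.hs g.ht
      C b b' h1 h2

theorem pair2 (hX : X.Smooth) : X.Pair (g.pt 2) (g.pt 1) := by
  refine ⟨g.mor 2, g.mor 1, g.ncst2, g.ncst1, ?_, ?_, ?_⟩
  · intro h
    exact g.x21 (congrArg BPt.x h)
  · intro h
    exact g.x21 (congrArg BPt.x h)
  · intro C b b' h1 h2
    obtain ⟨c, rfl⟩ := BPt.alp_surj g.hζ b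
    rw [g.pt_two, Surf.fib_alp] at h1
    exact Surf.nc_of_st hX (g.mor 0) (g.mor 1) (g.ncst0) (g.ncst1) g.hs g.ht C c b' h1 h2

private theorem div_aux (hX : X.Smooth) {x y x' y' : L} (h : y ^ 2 = x ^ 6 + 1)
    (h' : y' ^ 2 = x' ^ 6 + 1) (hp : X.Mor (.aff x y h)) (hq : X.Mor (.aff x' y' h'))
    (hne : x ≠ x')
    (h3 : ∀ C : X.PD, ∃ n : ℤ, iB C.1.toSubring (x, y) (x', y') = ((3 * n : ℤ) : WithTop ℤ)) :
    ∃ D : X.Div, (3 : ℤ) • D = X.gam (.aff x y h) (.aff x' y' h') := by
  have hA := Surf.afacts hX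
  have hpq : BPt.aff x y h ≠ BPt.aff x' y' h' := fun he => hne (congrArg BPt.x he)
  refine ⟨(X.gam (.aff x y h) (.aff x' y' h')).mapRange (fun z => z / 3) (by simp), ?_⟩
  apply Finsupp.ext
  intro C
  rw [Finsupp.smul_apply, Finsupp.mapRange_apply, smul_eq_mul]
  obtain ⟨n, hn⟩ := h3 C
  have h4 := iB_bridge C.1.toSubring C.dv (fun f _ => C.dv_v f)
    (fun f => (C.dv_ge_zero f).symm) h h' (fun hh => hne hh.1)
  rw [hn] at h4
  have h5 : 3 * n = C.dv.iB (.aff x y h) (.aff x' y' h') := by exact_mod_cast h4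
  rw [Surf.gam_apply hA hp hq hpq, ← h5]
  omega

theorem div01 (hX : X.Smooth) : ∃ D : X.Div, (3 : ℤ) • D = X.gam (g.pt 0) (g.pt 1) := by
  exact div_aux hX (g.curve 0) (g.curve 1) (g.mor 0) (g.mor 1) g.x01 g.three01

theorem div21 (hX : X.Smooth) : ∃ D : X.Div, (3 : ℤ) • D = X.gam (g.pt 2) (g.pt 1) := by
  exact div_aux hX (g.curve 2) (g.curve 1) (g.mor 2) (g.mor 1) g.x21 g.three21

end Geo

end HB
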