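import Pool.Agent.HB.F.LEx

/-!
# HB-F-LEone: points with different values at `P` do not meet on the curves through `P`

`P` a closed point, `C` a curve through `P` (so `O_P ⊆ O_C`), `D := C.dv`, and `Van.ofOn`: an
element of `O_P` in the maximal ideal of `O_C` is in the maximal ideal of `O_P`
(`hA.van_iff_ge : Van C.1 f ↔ D.ge 1 f`).

PLAN of `iB_eq_zero_of_LE_one`.  Let `b`, `b'` be the values of `p`, `q` (`val_exists`), `b ≠ b'`.
First: `0 ≤ iB` and if `iB ≥ 1` then `D.ge 1` of both differences (`D.le_dmin`, as `p ≠ q`).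
* both `IsFin`: `p = aff x y`, `q = aff x' y'`, `x, x' ∈ O_C`, hence `y, y' ∈ O_C` (`y² = x⁶ + 1`);
  so `iB = dmin (x - x') (y - y') ≥ 0`; assume `≥ 1`: `Van C.1 (x - x')`, `Van C.1 (y - y')`.
  - `b, b'` both affine: `x - x', y - y' ∈ O_P` (`Val.aff_mem`), so they are in the maximal ideal of
    `O_P` and `b` is a value of `q`: contradiction.
  - `b` infinite, `b'` affine: `a := p.xh = 1/x` in the maximal ideal of `O_P`, so `a * x'` too;
    `a * x' - 1 = - a * (x - x')` is in `O_P` and in the maximal ideal of `O_C`, hence in that of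
    `O_P`, so `Van P.1 1`: contradiction (`not_van_one`).  Symmetric case too.
  - both infinite: `x`, `x'` are units of `O_C`; `u = y/x³`, `w = y'/x'³ ∈ O_P` and
    `u - w = (y * x'³ - y' * x³)/(x³ x'³)` is in the maximal ideal of `O_C`, hence in the one of
    `O_P`; so the value `inf e` of `p` is also the value of `q`: contradiction.
* both not `IsFin`: then `b` and `b'` are infinite (affine value gives `x ∈ O_P ⊆ O_C`);
  `iB = dmin (p.xh - q.xh) (p.yh - q.yh) ≥ 0` (all four in `O_P`), `≥ 1` gives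
  `Van P.1 (p.yh - q.yh)`: contradiction.
* mixed: `iB = 0` by definition.
-/

set_option autoImplicit false

open IsLocalRing

namespace HB

variable {k L : Type} [Field k] [Field L] [Algebra k L]

namespace Surf

variable {S : Surf k L}

private theorem dmin_eq_zero (D : DV k L) {a b : L} (h : a ≠ 0 ∨ b ≠ 0) (ha : D.ge 0 a)
    (hb : D.ge 0 b) (hn : ¬ (D.ge 1 a ∧ D.ge 1 b)) : D.dmin a b = 0 := by
  have h1 : 0 ≤ D.dmin a b := (D.le_dmin h 0).2 ⟨ha, hb⟩
  have h2 : ¬ 1 ≤ D.dmin a b := fun h3 => hn ((D.le_dmin h 1).1 h3)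
  omega

private theorem y_mem (hA : AFacts S) {C : S.PD} {x y : L} (h : y ^ 2 = x ^ 6 + 1)
    (hx : x ∈ C.1.toSubring) : y ∈ C.1.toSubring := by
  by_cases h0 : y = 0
  · rw [h0]
    exact C.1.toSubring.zero_mem
  · rw [hA.mem_iff C y h0]
    have h1 : y ^ 2 ∈ C.1.toSubring := by
      rw [h]
      exact C.1.toSubring.add_mem (C.1.toSubring.pow_mem hx 6) C.1.toSubring.one_mem
    rw [hA.mem_iff C _ (pow_ne_zero 2 h0), hA.ord_pow C h0] at h1
    push_cast at h1
    omega

/-- an infinite and a finite value -/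
private theorem mixed_false {P : S.Pt} {C : S.PD} (hC : On P C) {x x' : L} (hx0 : x ≠ 0)
    (hx : Van P.1 x⁻¹) (hx' : x' ∈ P.1.toSubring) (h : Van C.1 (x - x')) : False := by
  have h1 : Van P.1 (x⁻¹ * x') := hx.mul_right hx'
  have h2 : x⁻¹ * x' - 1 = (-x⁻¹) * (x - x') := by
    field_simp
    ring
  have h3 : Van C.1 (x⁻¹ * x' - 1) := by
    rw [h2]
    exact h.mul_left (hC (P.1.toSubring.neg_mem hx.mem))
  have h4 : Van P.1 (x⁻¹ * x' - 1) :=
    Van.ofOn hC h3 (P.1.toSubring.sub_mem h1.mem P.1.toSubring.one_mem)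
  have h5 := h1.sub h4
  rw [sub_sub_cancel] at h5
  exact not_van_one _ h5

private theorem xh_yh_inj {p q : BPt L} (hp : ∀ (x y : L) (h' : y ^ 2 = x ^ 6 + 1), p = .aff x y h' → x ≠ 0)
    (hq : ∀ (x y : L) (h' : y ^ 2 = x ^ 6 + 1), q = .aff x y h' → x ≠ 0) (h1 : p.xh = q.xh)
    (h2 : p.yh = q.yh) : p = q := by
  match p, q, hp, hq, h1, h2 with
  | .aff x y h, .aff x' y' h', hp, hq, h1, h2 =>
    have e0 := hp x y h rfl
    have e0' := hq x' y' h' rfl
    simp only [BPt.xh, BPt.yh] at h1 h2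
    have e1 : x = x' := inv_injective h1
    subst e1
    have e2 : y = y' := by
      have h3 : x ^ 3 ≠ 0 := pow_ne_zero 3 e0
      field_simp at h2
      exact h2
    subst e2
    rfl
  | .aff x y h, .inf e h', hp, hq, h1, h2 =>
    have e0 := hp x y h rfl
    simp only [BPt.xh] at h1
    exact absurd h1 (inv_ne_zero e0)
  | .inf e h, .aff x y h', hp, hq, h1, h2 =>
    have e0 := hq x y h' rfl
    simp only [BPt.xh] at h1
    exact absurd h1.symm (inv_ne_zero e0)
  | .inf e h, .inf e' h', hp, hq, h1, h2 =>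
    simp only [BPt.yh] at h2
    subst h2
    rfl

theorem iB_eq_zero_of_one (hA : AFacts S) [CharZero k] [IsAlgClosed k] {P : S.Pt} {C : S.PD}
    (hC : On P C) {p q : BPt L} (hp : S.Mor p) (hq : S.Mor q) (hpq : p ≠ q)
    (h : ∀ b, ¬ (Val P p b ∧ Val P q b)) :
    C.dv.iB p q = 0 := by
  obtain ⟨b, hb⟩ := val_exists hA hp P
  obtain ⟨b', hb'⟩ := val_exists hA hq P
  unfold DV.iB
  split_ifs with hf hn
  · -- both finite
    obtain ⟨hfp, hfq⟩ := hf
    match p, q, hfp, hfq, hp, hq, hpq, h, hb, hb' with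
    | .aff x y e1, .aff x' y' e2, hfp, hfq, hp, hq, hpq, h, hb, hb' =>
      have hx : x ∈ C.1.toSubring := (hA.ge_zero_iff C x).1 hfp
      have hx' : x' ∈ C.1.toSubring := (hA.ge_zero_iff C x').1 hfq
      have hy : y ∈ C.1.toSubring := y_mem hA e1 hx
      have hy' : y' ∈ C.1.toSubring := y_mem hA e2 hx'
      refine dmin_eq_zero _ ?_ ?_ ?_ ?_
      · by_contra hcon
        rw [not_or, not_not, not_not] at hcon
        apply hpq
        have c1 : x = x' := sub_eq_zero.1 hcon.1
        have c2 : y = y' := sub_eq_zero.1 hcon.2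
        subst c1
        subst c2
        rfl
      · exact (hA.ge_zero_iff C _).2 (C.1.toSubring.sub_mem hx hx')
      · exact (hA.ge_zero_iff C _).2 (C.1.toSubring.sub_mem hy hy')
      · rintro ⟨g1, g2⟩
        rw [← hA.van_iff_ge C] at g1 g2
        simp only [BPt.x, BPt.y] at g1 g2
        match b, b', hb, hb' with
        | .aff c d e3, .aff c' d' e4, hb, hb' =>
          obtain ⟨x1, y1, e5, hp1, hx1, hy1⟩ := hb.aff_mem hA
          obtain ⟨x2, y2, e6, hp2, hx2, hy2⟩ := hb'.aff_mem hA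
          cases hp1
          cases hp2
          have v1 := Van.ofOn hC g1 (P.1.toSubring.sub_mem hx1 hx2)
          have v2 := Van.ofOn hC g2 (P.1.toSubring.sub_mem hy1 hy2)
          refine h _ ⟨hb, ?_⟩
          refine ⟨?_, ?_⟩
          · have w1 := hb.1.sub v1
            simp only [BPt.x] at w1 ⊢
            convert w1 using 1
            ring
          · have w2 := hb.2.sub v2
            simp only [BPt.y] at w2 ⊢
            convert w2 using 1
            ring
        | .inf e e3, .aff c' d' e4, hb, hb' =>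
          obtain ⟨i1, i2, i3, i4⟩ := hb.inf_mem hA
          obtain ⟨x2, y2, e6, hp2, hx2, hy2⟩ := hb'.aff_mem hA
          cases hp2
          exact mixed_false hC (i4 x y e1 rfl) hb.1 hx2 g1
        | .aff c d e3, .inf e' e4, hb, hb' =>
          obtain ⟨i1, i2, i3, i4⟩ := hb'.inf_mem hA
          obtain ⟨x2, y2, e6, hp2, hx2, hy2⟩ := hb.aff_mem hA
          cases hp2
          have g3 := g1.neg
          rw [neg_sub] at g3
          exact mixed_false hC (i4 x' y' e2 rfl) hb'.1 hx2 g3
        | .inf e e3, .inf e' e4, hb, hb' =>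
          obtain ⟨i1, i2, i3, i4⟩ := hb.inf_mem hA
          obtain ⟨j1, j2, j3, j4⟩ := hb'.inf_mem hA
          have x0 := i4 x y e1 rfl
          have x0' := j4 x' y' e2 rfl
          have a1 : x⁻¹ ∈ C.1.toSubring := hC i1
          have a2 : x'⁻¹ ∈ C.1.toSubring := hC j1
          have v1 : Van C.1 (x⁻¹ - x'⁻¹) := by
            have c1 : x⁻¹ - x'⁻¹ = (-(x⁻¹ * x'⁻¹)) * (x - x') := by
              field_simp
              ring
            rw [c1]
            exact g1.mul_left (C.1.toSubring.neg_mem (C.1.toSubring.mul_mem a1 a2))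
          have v2 : Van C.1 (y / x ^ 3 - y' / x' ^ 3) := by
            have c1 : y / x ^ 3 - y' / x' ^ 3 = x⁻¹ ^ 3 * (y - y') +
                (y' * (x⁻¹ ^ 2 + x⁻¹ * x'⁻¹ + x'⁻¹ ^ 2)) * (x⁻¹ - x'⁻¹) := by
              rw [div_eq_mul_inv, div_eq_mul_inv, ← inv_pow, ← inv_pow]
              ring
            rw [c1]
            refine (g2.mul_left (C.1.toSubring.pow_mem a1 3)).add (v1.mul_left ?_)
            exact C.1.toSubring.mul_mem hy' (C.1.toSubring.add_mem (C.1.toSubring.add_mem
              (C.1.toSubring.pow_mem a1 2) (C.1.toSubring.mul_mem a1 a2)) (C.1.toSubring.pow_mem a2 2))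
          have v3 : Van P.1 (y / x ^ 3 - y' / x' ^ 3) :=
            Van.ofOn hC v2 (P.1.toSubring.sub_mem i2 j2)
          refine h _ ⟨hb, hb'.1, ?_⟩
          have w2 := hb.2.sub v3
          simp only [BPt.yh] at w2 ⊢
          convert w2 using 1
          ring
  · -- both infinite
    obtain ⟨hfp, hfq⟩ := hn
    match b, b', hb, hb' with
    | .aff c d e3, b', hb, hb' =>
      obtain ⟨x1, y1, e5, hp1, hx1, hy1⟩ := hb.aff_mem hA
      exfalso
      apply hfp
      rw [hp1]
      exact hA.ge_of_mem C hC hx1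
    | .inf e e3, .aff c' d' e4, hb, hb' =>
      obtain ⟨x1, y1, e5, hp1, hx1, hy1⟩ := hb'.aff_mem hA
      exfalso
      apply hfq
      rw [hp1]
      exact hA.ge_of_mem C hC hx1
    | .inf e e3, .inf e' e4, hb, hb' =>
      obtain ⟨i1, i2, i3, i4⟩ := hb.inf_mem hA
      obtain ⟨j1, j2, j3, j4⟩ := hb'.inf_mem hA
      refine dmin_eq_zero _ ?_ ?_ ?_ ?_
      · by_contra hcon
        rw [not_or, not_not, not_not] at hcon
        exact hpq (xh_yh_inj i4 j4 (sub_eq_zero.1 hcon.1) (sub_eq_zero.1 hcon.2))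
      · exact hA.ge_of_mem C hC (P.1.toSubring.sub_mem i1 j1)
      · exact hA.ge_of_mem C hC (P.1.toSubring.sub_mem i2 j2)
      · rintro ⟨g1, g2⟩
        rw [← hA.van_iff_ge C] at g2
        have v3 := Van.ofOn hC g2 (P.1.toSubring.sub_mem i2 j2)
        refine h _ ⟨hb, hb'.1, ?_⟩
        have w2 := hb.2.sub v3
        convert w2 using 1
        ring
  · rfl

end Surf

end HB
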