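import Pool.Agent.HB.F.LEi
import Pool.Agent.HB.F.LEone

/-!
# HB-F-LE: the standard local equations

PLAN.
* `iB_eq_of_LE`: cases of `LE`: `iB_eq_x`, `iB_eq_y`, `iB_eq_i`, `iB_eq_zero_of_one`
  (`hA.ord_one`).
* `LE.ne_zero`: case `x`: if `p.x = q.x` then `y² = y'²`; `y = -y'` is impossible since `y + y'` has
  value `2 d ≠ 0` at `P`; so `p = q`.  Case `y`: if `y = y'` then `(x - x') * s = 0`,
  `s = x⁵ + ... + x'⁵` has value `6 c⁵ ≠ 0` (`c⁶ = -1`), so `x = x'`.
  Case `i`: if `p.xh = q.xh` then `p.yh² = q.yh²` and `p.yh + q.yh` has value `2 e ≠ 0`, so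
  `p.yh = q.yh` and `p = q` (`Val.inf_mem`: in the affine case `x ≠ 0`).  Case `one`: clear.
* `LE.mem`: `Val.aff_mem`, `Val.inf_mem`.
* `LE.van_iff`: in the first three cases `f` is the difference of two elements with the same value
  at `P` (`Van.sub`); in the last case `¬ Van P.1 1` (`not_van_one`) and there is no common value.
* `exists_LE`: `by_cases` on the existence of a common value `b`; cases of `b`, and `d = 0` or not.
-/

set_option autoImplicit false

open IsLocalRing

namespace HB

variable {k L : Type} [Field k] [Field L] [Algebra k L]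

section vanaux

variable {R : LocalSubring L} {f g u v : L}

private theorem van_mul_congr (hf : Van R (f - u)) (hg : Van R (g - v)) (hg' : g ∈ R.toSubring)
    (hu : u ∈ R.toSubring) : Van R (f * g - u * v) := by
  have h := (hf.mul_right hg').add (hg.mul_left hu)
  have e : (f - u) * g + u * (g - v) = f * g - u * v := by ring
  rwa [e] at h

private theorem van_pow_congr (hf : Van R (f - u)) (hf' : f ∈ R.toSubring) (hu : u ∈ R.toSubring)
    (n : ℕ) : Van R (f ^ n - u ^ n) := by
  induction n with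
  | zero => simpa using van_zero R
  | succ n ih =>
    rw [pow_succ, pow_succ]
    exact van_mul_congr ih hf hf' (R.toSubring.pow_mem hu n)

end vanaux

namespace Surf

variable {S : Surf k L}

theorem iB_eq_of_LE (hA : AFacts S) [CharZero k] [IsAlgClosed k] {P : S.Pt} {C : S.PD}
    (hC : On P C) {p q : BPt L} (hp : S.Mor p) (hq : S.Mor q) (hpq : p ≠ q) {f : L}
    (h : LE P p q f) : C.dv.iB p q = C.ord f := by
  cases h with
  | x c d h hd h1 h2 => exact (iB_eq_x hA hC hpq hd h1 h2).2
  | y c d h hd h1 h2 => exact (iB_eq_y hA hC hpq hd h1 h2).2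
  | i e h h1 h2 => exact (iB_eq_i hA hC hpq h1 h2).2
  | one h => rw [iB_eq_zero_of_one hA hC hp hq hpq h, hA.ord_one C]

theorem LE.ne_zero (hA : AFacts S) [CharZero k] {P : S.Pt} {p q : BPt L} (hpq : p ≠ q) {f : L}
    (h : LE P p q f) : f ≠ 0 := by
  cases h with
  | x c d h hd h1 h2 =>
    intro h0
    obtain ⟨x, y, hxy, rfl, hx, hy⟩ := Val.aff_mem hA h1
    obtain ⟨x', y', hxy', rfl, hx', hy'⟩ := Val.aff_mem hA h2
    have e1 : x = x' := sub_eq_zero.mp h0
    subst e1
    have e2 : y ^ 2 = y' ^ 2 := by rw [hxy, hxy']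
    rcases sq_eq_sq_iff_eq_or_eq_neg.mp e2 with e3 | e3
    · subst e3
      exact hpq rfl
    · have h3 : Van P.1 (y - algebraMap k L d) := h1.2
      have h4 : Van P.1 (y' - algebraMap k L d) := h2.2
      have h5 := (h3.add h4).neg
      have e4 : -(y - algebraMap k L d + (y' - algebraMap k L d)) = algebraMap k L (2 * d) := by
        rw [e3, map_mul, map_ofNat]; ring
      rw [e4, hA.algebraMap_van] at h5
      rcases mul_eq_zero.mp h5 with h6 | h6
      · exact two_ne_zero h6
      · exact hd h6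
  | y c d h hd h1 h2 =>
    intro h0
    obtain ⟨x, y, hxy, rfl, hx, hy⟩ := Val.aff_mem hA h1
    obtain ⟨x', y', hxy', rfl, hx', hy'⟩ := Val.aff_mem hA h2
    have e1 : y = y' := sub_eq_zero.mp h0
    subst e1
    have e2 : (x - x') * (x ^ 5 + x ^ 4 * x' + x ^ 3 * x' ^ 2 + x ^ 2 * x' ^ 3 + x * x' ^ 4 +
        x' ^ 5) = 0 := by linear_combination hxy' - hxy
    rcases mul_eq_zero.mp e2 with e3 | e3
    · have e4 : x = x' := sub_eq_zero.mp e3
      subst e4
      exact hpq rfl
    · have h3 : Van P.1 (x - algebraMap k L c) := h1.1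
      have h4 : Van P.1 (x' - algebraMap k L c) := h2.1
      have hc : algebraMap k L c ∈ P.1.toSubring := hA.algMemP P c
      have t5 := van_pow_congr h3 hx hc 5
      have t4 := van_mul_congr (van_pow_congr h3 hx hc 4) h4 hx' (P.1.toSubring.pow_mem hc 4)
      have t3 := van_mul_congr (van_pow_congr h3 hx hc 3) (van_pow_congr h4 hx' hc 2)
        (P.1.toSubring.pow_mem hx' 2) (P.1.toSubring.pow_mem hc 3)
      have t2 := van_mul_congr (van_pow_congr h3 hx hc 2) (van_pow_congr h4 hx' hc 3)
        (P.1.toSubring.pow_mem hx' 3) (P.1.toSubring.pow_mem hc 2)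
      have t1 := van_mul_congr h3 (van_pow_congr h4 hx' hc 4)
        (P.1.toSubring.pow_mem hx' 4) hc
      have t0 := van_pow_congr h4 hx' hc 5
      have h5 := (((((t5.add t4).add t3).add t2).add t1).add t0).neg
      have e4 : -(x ^ 5 - algebraMap k L c ^ 5 +
          (x ^ 4 * x' - algebraMap k L c ^ 4 * algebraMap k L c) +
          (x ^ 3 * x' ^ 2 - algebraMap k L c ^ 3 * algebraMap k L c ^ 2) +
          (x ^ 2 * x' ^ 3 - algebraMap k L c ^ 2 * algebraMap k L c ^ 3) +
          (x * x' ^ 4 - algebraMap k L c * algebraMap k L c ^ 4) +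
          (x' ^ 5 - algebraMap k L c ^ 5)) = algebraMap k L (6 * c ^ 5) := by
        rw [map_mul, map_ofNat, map_pow]
        linear_combination -e3
      rw [e4, hA.algebraMap_van] at h5
      rcases mul_eq_zero.mp h5 with h6 | h6
      · norm_num at h6
      · have h7 : c = 0 := pow_eq_zero_iff (by norm_num) |>.mp h6
        rw [h7, hd] at h
        norm_num at h
  | i e h h1 h2 =>
    intro h0
    obtain ⟨ha, hu, hau, hx⟩ := Val.inf_mem hA h1
    obtain ⟨hb, hw, hbw, hx'⟩ := Val.inf_mem hA h2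
    have e1 : p.xh = q.xh := sub_eq_zero.mp h0
    have e2 : p.yh ^ 2 = q.yh ^ 2 := by rw [hau, hbw, e1]
    have e3 : p.yh = q.yh := by
      rcases sq_eq_sq_iff_eq_or_eq_neg.mp e2 with e3 | e3
      · exact e3
      · exfalso
        have h5 := (h1.2.add h2.2).neg
        have e4 : -(p.yh - algebraMap k L e + (q.yh - algebraMap k L e)) =
            algebraMap k L (2 * e) := by
          rw [e3, map_mul, map_ofNat]; ring
        rw [e4, hA.algebraMap_van] at h5
        rcases mul_eq_zero.mp h5 with h6 | h6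
        · exact two_ne_zero h6
        · rw [h6] at h
          norm_num at h
    apply hpq
    cases p with
    | aff x y hxy =>
      have hx0 : x ≠ 0 := hx x y hxy rfl
      cases q with
      | aff x' y' hxy' =>
        have hx0' : x' ≠ 0 := hx' x' y' hxy' rfl
        have e4 : x⁻¹ = x'⁻¹ := e1
        have e5 : x = x' := inv_injective e4
        subst e5
        have e6 : y / x ^ 3 = y' / x ^ 3 := e3
        have e7 : y = y' := (div_left_inj' (pow_ne_zero 3 hx0)).mp e6
        subst e7
        rfl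
      | inf e' he' =>
        have e4 : x⁻¹ = 0 := e1
        exact absurd (inv_eq_zero.mp e4) hx0
    | inf e1' he1 =>
      cases q with
      | aff x' y' hxy' =>
        have hx0' : x' ≠ 0 := hx' x' y' hxy' rfl
        have e4 : 0 = x'⁻¹ := e1
        exact absurd (inv_eq_zero.mp e4.symm) hx0'
      | inf e' he' =>
        have e4 : e1' = e' := e3
        subst e4
        rfl
  | one h => exact one_ne_zero

theorem LE.mem (hA : AFacts S) {P : S.Pt} {p q : BPt L} {f : L}
    (h : LE P p q f) : f ∈ P.1.toSubring := by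
  cases h with
  | x c d h hd h1 h2 =>
    obtain ⟨x, y, hxy, rfl, hx, hy⟩ := Val.aff_mem hA h1
    obtain ⟨x', y', hxy', rfl, hx', hy'⟩ := Val.aff_mem hA h2
    exact P.1.toSubring.sub_mem hx hx'
  | y c d h hd h1 h2 =>
    obtain ⟨x, y, hxy, rfl, hx, hy⟩ := Val.aff_mem hA h1
    obtain ⟨x', y', hxy', rfl, hx', hy'⟩ := Val.aff_mem hA h2
    exact P.1.toSubring.sub_mem hy hy'
  | i e h h1 h2 =>
    exact P.1.toSubring.sub_mem (Val.inf_mem hA h1).1 (Val.inf_mem hA h2).1
  | one h => exact P.1.toSubring.one_mem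

/-- the standard local equation is in the maximal ideal iff the values agree -/
theorem LE.van_iff (hA : AFacts S) {P : S.Pt} {p q : BPt L} {f : L}
    (h : LE P p q f) : Van P.1 f ↔ ∃ b, Val P p b ∧ Val P q b := by
  cases h with
  | x c d h hd h1 h2 =>
    refine ⟨fun _ => ⟨_, h1, h2⟩, fun _ => ?_⟩
    have := h1.1.sub h2.1
    rwa [sub_sub_sub_cancel_right] at this
  | y c d h hd h1 h2 =>
    refine ⟨fun _ => ⟨_, h1, h2⟩, fun _ => ?_⟩
    have := h1.2.sub h2.2
    rwa [sub_sub_sub_cancel_right] at this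
  | i e h h1 h2 => exact ⟨fun _ => ⟨_, h1, h2⟩, fun _ => h1.1.sub h2.1⟩
  | one h =>
    exact ⟨fun hv => absurd hv (not_van_one _), fun ⟨b, hb⟩ => absurd hb (h b)⟩

theorem exists_LE (P : S.Pt) (p q : BPt L) : ∃ f, LE P p q f := by
  by_cases h : ∃ b, Val P p b ∧ Val P q b
  · obtain ⟨b, h1, h2⟩ := h
    cases b with
    | aff c d h =>
      by_cases hd : d = 0
      · exact ⟨_, LE.y c d h hd h1 h2⟩
      · exact ⟨_, LE.x c d h hd h1 h2⟩
    | inf e h => exact ⟨_, LE.i e h h1 h2⟩
  · exact ⟨1, LE.one fun b hb => h ⟨b, hb⟩⟩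

end Surf

end HB
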