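import Pool.Agent.HB.F.LEx

/-!
# HB-F-LEi: the standard local equation at a point where both values are `inf e`

`D := C.dv`, `P` on `C`.  `a = p.xh`, `b = q.xh`, `u = p.yh`, `w = q.yh` are in `O_P ⊆ O_C`
(`Val.inf_mem`) with `u² = a⁶ + 1`, `w² = b⁶ + 1`, and
`(u - w) * (u + w) = (a - b) * s`, `s = a⁵ + a⁴ b + ... + b⁵ ∈ O_P`; `u + w - 2 e` is in the maximal
ideal of `O_P`, so `u + w` is a unit of `O_P` and `u - w = (a - b) * (s/(u+w))`,
`D.ge (D.v (a - b)) (u - w)` (and `a ≠ b`: if `a = b` then `u = w`, and then `p = q`: for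
`p = aff x y`, `q = aff x' y'`: `x = x'`, `y = y'`; `p = aff x y`, `q = inf _`: `x⁻¹ = 0`,
contradiction to `x ≠ 0`; `inf`, `inf`: clear).
Cases (`IsFin D (aff x y h) = D.ge 0 x`, `IsFin (inf _) = False`):
* both `IsFin`: `p = aff x y`, `q = aff x' y'`, `x`, `x'` are units of `O_C` (`D.v = 0`:
  `x ∈ O_C`, `1/x = a ∈ O_C`), `x - x' = - (a - b) * x * x'`, so `D.v (x - x') = D.v (a - b)`;
  `y - y' = (u - w) * x ^ 3 + w * (x ^ 3 - x' ^ 3)` satisfies `D.ge (D.v (a - b))`: `dmin_eq_left`.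
* one `IsFin` (say `p`), the other not: `iB = 0` and `D.v (a - b) = 0` since `D.v a = 0` and
  `D.ge 1 b` (`q = inf`: `b = 0`; `q = aff x' y'`, not `D.ge 0 x'`: `D.v x' < 0`): `D.add_eq_left`.
* both not `IsFin`: `iB = dmin (a - b) (u - w) = D.v (a - b)`.
-/

set_option autoImplicit false

open IsLocalRing

namespace HB

variable {k L : Type} [Field k] [Field L] [Algebra k L]

namespace Surf

variable {S : Surf k L}

private theorem lei_fin (hA : AFacts S) [CharZero k] [IsAlgClosed k] {P : S.Pt} {C : S.PD}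
    (hC : On P C) {p : BPt L} {e : k} {h : e ^ 2 = 1} (h1 : Val P p (.inf e h))
    (hf : p.IsFin C.dv) : ∃ (x y : L) (h' : y ^ 2 = x ^ 6 + 1), p = .aff x y h' ∧ x ≠ 0 ∧
      C.dv.v x = 0 ∧ p.xh = x⁻¹ ∧ p.yh = y / x ^ 3 ∧ C.dv.v p.xh = 0 ∧ p.xh ≠ 0 := by
  obtain ⟨m1, _, _, m4⟩ := h1.inf_mem hA
  cases p with
  | aff x y h' =>
    have hx := m4 x y h' rfl
    have g1 : 0 ≤ C.dv.v x := C.dv.le_of_ge hx hf
    have g2 : 0 ≤ C.dv.v x⁻¹ := C.dv.le_of_ge (inv_ne_zero hx) (hA.ge_of_mem C hC m1)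
    rw [C.dv.inv hx] at g2
    have g3 : C.dv.v x = 0 := by omega
    refine ⟨x, y, h', rfl, hx, g3, rfl, rfl, ?_, inv_ne_zero hx⟩
    change C.dv.v x⁻¹ = 0
    rw [C.dv.inv hx, g3, neg_zero]
  | inf e' h' => exact hf.elim

private theorem lei_nfin (hA : AFacts S) [CharZero k] [IsAlgClosed k] {P : S.Pt} {C : S.PD}
    {p : BPt L} {e : k} {h : e ^ 2 = 1} (h1 : Val P p (.inf e h))
    (hf : ¬ p.IsFin C.dv) : C.dv.ge 1 p.xh := by
  obtain ⟨_, _, _, m4⟩ := h1.inf_mem hA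
  cases p with
  | aff x y h' =>
    have hx := m4 x y h' rfl
    right
    change 1 ≤ C.dv.v x⁻¹
    rw [C.dv.inv hx]
    have g1 : ¬ (0 ≤ C.dv.v x) := fun g => hf (Or.inr g)
    omega
  | inf e' h' => exact Or.inl rfl

private theorem lei_ord (hA : AFacts S) [CharZero k] [IsAlgClosed k] {P : S.Pt} {C : S.PD}
    (hC : On P C) {p q : BPt L} {e : k} {h : e ^ 2 = 1}
    (h1 : Val P p (.inf e h)) (h2 : Val P q (.inf e h)) (hp : p.IsFin C.dv)
    (hq : ¬ q.IsFin C.dv) : C.dv.v (p.xh - q.xh) = 0 := by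
  obtain ⟨x, y, h', _, hx, hx0, _, _, g1, g2⟩ := lei_fin hA hC h1 hp
  have g3 := lei_nfin hA h2 hq
  have g4 := C.dv.add_eq_left g2 (y := -q.xh) (by
    rw [g1, zero_add]
    exact C.dv.ge_neg g3)
  rw [← sub_eq_add_neg] at g4
  rw [g4.2, g1]

theorem iB_eq_i (hA : AFacts S) [CharZero k] [IsAlgClosed k] {P : S.Pt} {C : S.PD}
    (hC : On P C) {p q : BPt L} (hpq : p ≠ q) {e : k} {h : e ^ 2 = 1}
    (h1 : Val P p (.inf e h)) (h2 : Val P q (.inf e h)) :
    p.xh - q.xh ≠ 0 ∧ C.dv.iB p q = C.ord (p.xh - q.xh) := by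
  obtain ⟨a1, a2, a3, a4⟩ := h1.inf_mem hA
  obtain ⟨b1, b2, b3, b4⟩ := h2.inf_mem hA
  -- the sum of the `y`-coordinates is a unit
  have he : e ≠ 0 := by
    rintro rfl
    simp at h
  have hnv : ¬ Van P.1 (p.yh + q.yh) := by
    intro hv
    have g1 : Van P.1 ((p.yh - algebraMap k L e) + (q.yh - algebraMap k L e)) := h1.2.add h2.2
    have g2 := hv.sub g1
    have g3 : p.yh + q.yh - ((p.yh - algebraMap k L e) + (q.yh - algebraMap k L e)) =
        algebraMap k L (2 * e) := by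
      rw [map_mul, map_ofNat]
      ring
    rw [g3, hA.algebraMap_van] at g2
    exact he (by simpa using g2)
  have hsum : p.yh + q.yh ∈ P.1.toSubring := P.1.toSubring.add_mem a2 b2
  have hne : p.yh + q.yh ≠ 0 := fun h0 => hnv (h0 ▸ van_zero _)
  have hinv : (p.yh + q.yh)⁻¹ ∈ P.1.toSubring := (van_or_inv_mem hsum).resolve_left hnv
  obtain ⟨s, hs, hsm⟩ : ∃ s, s = p.xh ^ 5 + p.xh ^ 4 * q.xh + p.xh ^ 3 * q.xh ^ 2 +
      p.xh ^ 2 * q.xh ^ 3 + p.xh * q.xh ^ 4 + q.xh ^ 5 ∧ s ∈ P.1.toSubring := by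
    refine ⟨_, rfl, ?_⟩
    have ma := fun n : ℕ => P.1.toSubring.pow_mem a1 n
    have mb := fun n : ℕ => P.1.toSubring.pow_mem b1 n
    exact P.1.toSubring.add_mem (P.1.toSubring.add_mem (P.1.toSubring.add_mem
      (P.1.toSubring.add_mem (P.1.toSubring.add_mem (ma 5) (P.1.toSubring.mul_mem (ma 4) b1))
      (P.1.toSubring.mul_mem (ma 3) (mb 2))) (P.1.toSubring.mul_mem (ma 2) (mb 3)))
      (P.1.toSubring.mul_mem a1 (mb 4))) (mb 5)
  have hmul : (p.yh - q.yh) * (p.yh + q.yh) = (p.xh - q.xh) * s := by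
    rw [hs]
    linear_combination a3 - b3
  have hdiff : p.yh - q.yh = (p.xh - q.xh) * (s * (p.yh + q.yh)⁻¹) := by
    rw [← mul_assoc, ← hmul, mul_assoc, mul_inv_cancel₀ hne, mul_one]
  have hab : p.xh - q.xh ≠ 0 := by
    intro h0
    have h3 : p.yh - q.yh = 0 := by rw [hdiff, h0, zero_mul]
    apply hpq
    cases p with
    | aff x y h' =>
      have hx := a4 x y h' rfl
      cases q with
      | aff x' y' h'' =>
        have hx' := b4 x' y' h'' rfl
        have e1 : x⁻¹ = x'⁻¹ := sub_eq_zero.1 h0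
        have e2 : x = x' := inv_injective e1
        subst e2
        have e3 : y / x ^ 3 = y' / x ^ 3 := sub_eq_zero.1 h3
        have e4 : y = y' := by
          rw [div_left_inj' (pow_ne_zero 3 hx)] at e3
          exact e3
        subst e4
        rfl
      | inf e' h'' =>
        have e1 : x⁻¹ = 0 := sub_eq_zero.1 h0
        exact absurd (inv_eq_zero.1 e1) hx
    | inf e' h' =>
      cases q with
      | aff x' y' h'' =>
        have hx' := b4 x' y' h'' rfl
        have e1 : (0 : L) = x'⁻¹ := sub_eq_zero.1 h0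
        exact absurd (inv_eq_zero.1 e1.symm) hx'
      | inf e'' h'' =>
        have e3 : e' = e'' := sub_eq_zero.1 h3
        subst e3
        rfl
  refine ⟨hab, ?_⟩
  change C.dv.iB p q = C.dv.v (p.xh - q.xh)
  have hge : C.dv.ge (C.dv.v (p.xh - q.xh)) (p.yh - q.yh) := by
    rw [hdiff]
    have := C.dv.ge_mul (C.dv.ge_of_le (x := p.xh - q.xh) le_rfl)
      (hA.ge_of_mem C hC (P.1.toSubring.mul_mem hsm hinv))
    rwa [add_zero] at this
  unfold DV.iB
  by_cases hp : p.IsFin C.dv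
  · by_cases hq : q.IsFin C.dv
    · rw [if_pos ⟨hp, hq⟩]
      obtain ⟨x, y, h', rfl, hx, hx0, k1, k2, _, _⟩ := lei_fin hA hC h1 hp
      obtain ⟨x', y', h'', rfl, hx', hx0', l1, l2, _, _⟩ := lei_fin hA hC h2 hq
      change C.dv.dmin (x - x') (y - y') = _
      rw [k1, l1] at hab hge ⊢
      rw [k2, l2] at hge
      have e1 : x - x' = -((x⁻¹ - x'⁻¹) * (x * x')) := by
        field_simp
        ring
      have e2 : C.dv.v (x - x') = C.dv.v (x⁻¹ - x'⁻¹) := by
        rw [e1, C.dv.neg, C.dv.mul hab (mul_ne_zero hx hx'), C.dv.mul hx hx', hx0, hx0']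
        ring
      have e3 : x - x' ≠ 0 := by
        rw [e1]
        exact neg_ne_zero.2 (mul_ne_zero hab (mul_ne_zero hx hx'))
      have gx : C.dv.ge 0 x := Or.inr hx0.ge
      have gx' : C.dv.ge 0 x' := Or.inr hx0'.ge
      have gw : C.dv.ge 0 (y' / x' ^ 3) := by
        have := hA.ge_of_mem C hC b2
        rwa [l2] at this
      have e4 : y - y' = (y / x ^ 3 - y' / x' ^ 3) * x ^ 3 +
          (x - x') * (y' / x' ^ 3 * (x ^ 2 + x * x' + x' ^ 2)) := by
        field_simp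
        ring
      rw [C.dv.dmin_eq_left e3, e2]
      rw [e4, e2]
      refine C.dv.ge_add ?_ ?_
      · have := C.dv.ge_mul hge (C.dv.ge_pow gx 3)
        rwa [add_zero] at this
      · have g5 : C.dv.ge 0 (y' / x' ^ 3 * (x ^ 2 + x * x' + x' ^ 2)) := by
          have g6 : C.dv.ge 0 (x ^ 2 + x * x' + x' ^ 2) := by
            refine C.dv.ge_add (C.dv.ge_add (C.dv.ge_pow gx 2) ?_) (C.dv.ge_pow gx' 2)
            simpa using C.dv.ge_mul gx gx'
          simpa using C.dv.ge_mul gw g6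
        have := C.dv.ge_mul (C.dv.ge_of_le (x := x - x') le_rfl) g5
        rw [add_zero, e2] at this
        exact this
    · rw [if_neg (fun hh => hq hh.2), if_neg (fun hh => hh.1 hp), lei_ord hA hC h1 h2 hp hq]
  · by_cases hq : q.IsFin C.dv
    · rw [if_neg (fun hh => hp hh.1), if_neg (fun hh => hh.2 hq)]
      have := lei_ord hA hC h2 h1 hq hp
      rw [← C.dv.neg, neg_sub] at this
      exact this.symm
    · rw [if_neg (fun hh => hp hh.1), if_pos ⟨hp, hq⟩]
      exact C.dv.dmin_eq_left hab hge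

end Surf

end HB
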