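import Pool.Agent.HB.F.Val

/-!
# HB-F-LEx: the standard local equations, affine values

`P` is a closed point, `C` a curve through `P`, `D := C.dv : DV k L` (see `HB/DV.lean`),
`D.v f = C.ord f` (`C.dv_v`, by `rfl`), elements of `O_P` are in `O_C`: `hA.ge_of_mem`; units of
`O_P` have order `0`: `hA.ord_eq_zero_of_unit`.

PLAN.
* `dmin_eq_left`: unfold `DV.dmin`, cases.  `dmin_eq_right` by `dmin_comm`.
* By `Val.aff_mem`: `p = aff x y h₁`, `q = aff x' y' h₂` with coordinates in `O_P`, so both `IsFin`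
  and `iB = dmin (x - x') (y - y')` (unfold `DV.iB`, `if_pos`; `BPt.x`, `BPt.y` by `simp`).
  Put `s = x⁵ + x⁴ x' + ... + x'⁵ ∈ O_P`; then `(y - y') * (y + y') = (x - x') * s`.
* `iB_eq_x` (`d ≠ 0`): `y + y' - 2 d` is in the maximal ideal of `O_P`, so `y + y'` is a unit of
  `O_P` (char 0).  So `y - y' = (x - x') * (s / (y + y'))`: `x - x' ≠ 0` (otherwise
  `y = y'` and `p = q`) and `D.ge (D.v (x - x')) (y - y')`: `dmin_eq_left`.
* `iB_eq_y` (`d = 0`): then `c⁶ = -1`, `c ≠ 0`, and `s - 6 c⁵` is in the maximal ideal, so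
  `s` is a unit; `x - x' = (y - y') * ((y + y') / s)`, same argument with `dmin_eq_right`.
-/

set_option autoImplicit false

open IsLocalRing

namespace HB

variable {k L : Type} [Field k] [Field L] [Algebra k L]

theorem DV.dmin_eq_left (D : DV k L) {a b : L} (ha : a ≠ 0) (hb : D.ge (D.v a) b) :
    D.dmin a b = D.v a := by
  unfold DV.dmin
  rw [if_neg ha]
  by_cases h : b = 0
  · rw [if_pos h]
  · rw [if_neg h]
    exact min_eq_left (D.le_of_ge h hb)

theorem DV.dmin_eq_right (D : DV k L) {a b : L} (hb : b ≠ 0) (ha : D.ge (D.v b) a) :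
    D.dmin a b = D.v b := by
  rw [DV.dmin_comm]
  exact D.dmin_eq_left hb ha

namespace Surf

variable {S : Surf k L}

private theorem iB_aff (hA : AFacts S) [CharZero k] [IsAlgClosed k] {P : S.Pt} {C : S.PD}
    (hC : On P C) {x y x' y' : L} {h : y ^ 2 = x ^ 6 + 1} {h' : y' ^ 2 = x' ^ 6 + 1}
    (hx : x ∈ P.1.toSubring) (hx' : x' ∈ P.1.toSubring) :
    C.dv.iB (.aff x y h) (.aff x' y' h') = C.dv.dmin (x - x') (y - y') := by
  unfold DV.iB
  rw [if_pos ⟨hA.ge_of_mem C hC hx, hA.ge_of_mem C hC hx'⟩]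
  rfl

private theorem ge_factor (hA : AFacts S) [CharZero k] [IsAlgClosed k] {P : S.Pt} {C : S.PD}
    (hC : On P C) {a b t : L} (ht : t ∈ P.1.toSubring) (e : b = a * t) :
    C.dv.ge (C.dv.v a) b := by
  have h1 := C.dv.ge_mul (C.dv.ge_of_le (le_refl (C.dv.v a))) (hA.ge_of_mem C hC ht)
  rw [add_zero, ← e] at h1
  exact h1

theorem iB_eq_x (hA : AFacts S) [CharZero k] [IsAlgClosed k] {P : S.Pt} {C : S.PD}
    (hC : On P C) {p q : BPt L} (hpq : p ≠ q) {c d : k} {h : d ^ 2 = c ^ 6 + 1} (hd : d ≠ 0)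
    (h1 : Val P p (.aff c d h)) (h2 : Val P q (.aff c d h)) :
    p.x - q.x ≠ 0 ∧ C.dv.iB p q = C.ord (p.x - q.x) := by
  obtain ⟨x, y, hxy, rfl, hx, hy⟩ := Val.aff_mem hA h1
  obtain ⟨x', y', hxy', rfl, hx', hy'⟩ := Val.aff_mem hA h2
  obtain ⟨h1x, h1y⟩ := h1
  obtain ⟨h2x, h2y⟩ := h2
  change Van P.1 (y - algebraMap k L d) at h1y
  change Van P.1 (y' - algebraMap k L d) at h2y
  change x - x' ≠ 0 ∧ C.dv.iB _ _ = C.ord (x - x')
  rw [iB_aff hA hC hx hx', ← PD.dv_v]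
  have hV : Van P.1 (algebraMap k L (2 * d) - (y + y')) := by
    have h3 := (h1y.add h2y).neg
    have h4 : -(y - algebraMap k L d + (y' - algebraMap k L d)) =
        algebraMap k L (2 * d) - (y + y') := by
      rw [map_mul, map_ofNat]
      ring
    rwa [h4] at h3
  have hn : ¬ Van P.1 (y + y') := not_van_of_sub hV (by
    rw [hA.algebraMap_van P]
    exact mul_ne_zero two_ne_zero hd)
  have hinv : (y + y')⁻¹ ∈ P.1.toSubring :=
    (van_or_inv_mem (P.1.toSubring.add_mem hy hy')).resolve_left hn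
  have hne : y + y' ≠ 0 := by
    intro h0
    rw [h0] at hn
    exact hn (van_zero _)
  have hs : x ^ 5 + x ^ 4 * x' + x ^ 3 * x' ^ 2 + x ^ 2 * x' ^ 3 + x * x' ^ 4 + x' ^ 5 ∈
      P.1.toSubring := by
    repeat' (first | assumption | apply Subring.add_mem | apply Subring.mul_mem |
      apply Subring.pow_mem)
  have he : y - y' = (x - x') *
      ((x ^ 5 + x ^ 4 * x' + x ^ 3 * x' ^ 2 + x ^ 2 * x' ^ 3 + x * x' ^ 4 + x' ^ 5) *
        (y + y')⁻¹) := by
    field_simp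
    linear_combination hxy - hxy'
  have hx0 : x - x' ≠ 0 := by
    intro h0
    rw [h0, zero_mul] at he
    apply hpq
    have h5 := sub_eq_zero.1 h0
    have h6 := sub_eq_zero.1 he
    subst h5
    subst h6
    rfl
  exact ⟨hx0, C.dv.dmin_eq_left hx0
    (ge_factor hA hC (P.1.toSubring.mul_mem hs hinv) he)⟩

theorem iB_eq_y (hA : AFacts S) [CharZero k] [IsAlgClosed k] {P : S.Pt} {C : S.PD}
    (hC : On P C) {p q : BPt L} (hpq : p ≠ q) {c d : k} {h : d ^ 2 = c ^ 6 + 1} (hd : d = 0)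
    (h1 : Val P p (.aff c d h)) (h2 : Val P q (.aff c d h)) :
    p.y - q.y ≠ 0 ∧ C.dv.iB p q = C.ord (p.y - q.y) := by
  obtain ⟨x, y, hxy, rfl, hx, hy⟩ := Val.aff_mem hA h1
  obtain ⟨x', y', hxy', rfl, hx', hy'⟩ := Val.aff_mem hA h2
  obtain ⟨h1x, h1y⟩ := h1
  obtain ⟨h2x, h2y⟩ := h2
  change Van P.1 (x - algebraMap k L c) at h1x
  change Van P.1 (x' - algebraMap k L c) at h2x
  change y - y' ≠ 0 ∧ C.dv.iB _ _ = C.ord (y - y')
  rw [iB_aff hA hC hx hx', ← PD.dv_v]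
  have hc : c ≠ 0 := by
    rintro rfl
    rw [hd] at h
    norm_num at h
  have hcm : algebraMap k L c ∈ P.1.toSubring := hA.algMemP P c
  have hV : Van P.1 (algebraMap k L (6 * c ^ 5) -
      (x ^ 5 + x ^ 4 * x' + x ^ 3 * x' ^ 2 + x ^ 2 * x' ^ 3 + x * x' ^ 4 + x' ^ 5)) := by
    have hA1 : (x ^ 4 + x ^ 3 * algebraMap k L c + x ^ 2 * algebraMap k L c ^ 2 +
        x * algebraMap k L c ^ 3 + algebraMap k L c ^ 4) +
        x' * (x ^ 3 + x ^ 2 * algebraMap k L c + x * algebraMap k L c ^ 2 +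
          algebraMap k L c ^ 3) +
        x' ^ 2 * (x ^ 2 + x * algebraMap k L c + algebraMap k L c ^ 2) +
        x' ^ 3 * (x + algebraMap k L c) + x' ^ 4 ∈ P.1.toSubring := by
      repeat' (first | assumption | apply Subring.add_mem | apply Subring.mul_mem |
      apply Subring.pow_mem)
    have hA2 : algebraMap k L c ^ 4 + algebraMap k L c ^ 3 * (x' + algebraMap k L c) +
        algebraMap k L c ^ 2 * (x' ^ 2 + x' * algebraMap k L c + algebraMap k L c ^ 2) +
        algebraMap k L c * (x' ^ 3 + x' ^ 2 * algebraMap k L c + x' * algebraMap k L c ^ 2 +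
          algebraMap k L c ^ 3) +
        (x' ^ 4 + x' ^ 3 * algebraMap k L c + x' ^ 2 * algebraMap k L c ^ 2 +
          x' * algebraMap k L c ^ 3 + algebraMap k L c ^ 4) ∈ P.1.toSubring := by
      repeat' (first | assumption | apply Subring.add_mem | apply Subring.mul_mem |
      apply Subring.pow_mem)
    have h3 := ((h1x.mul_left hA1).add (h2x.mul_left hA2)).neg
    convert h3 using 1
    rw [map_mul, map_pow, map_ofNat]
    ring
  have hn : ¬ Van P.1 (x ^ 5 + x ^ 4 * x' + x ^ 3 * x' ^ 2 + x ^ 2 * x' ^ 3 + x * x' ^ 4 +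
      x' ^ 5) := not_van_of_sub hV (by
    rw [hA.algebraMap_van P]
    exact mul_ne_zero (by norm_num) (pow_ne_zero _ hc))
  have hs : x ^ 5 + x ^ 4 * x' + x ^ 3 * x' ^ 2 + x ^ 2 * x' ^ 3 + x * x' ^ 4 + x' ^ 5 ∈
      P.1.toSubring := by
    repeat' (first | assumption | apply Subring.add_mem | apply Subring.mul_mem |
      apply Subring.pow_mem)
  have hinv := (van_or_inv_mem hs).resolve_left hn
  have hne : x ^ 5 + x ^ 4 * x' + x ^ 3 * x' ^ 2 + x ^ 2 * x' ^ 3 + x * x' ^ 4 + x' ^ 5 ≠ 0 := by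
    intro h0
    rw [h0] at hn
    exact hn (van_zero _)
  have he : x - x' = (y - y') * ((y + y') *
      (x ^ 5 + x ^ 4 * x' + x ^ 3 * x' ^ 2 + x ^ 2 * x' ^ 3 + x * x' ^ 4 + x' ^ 5)⁻¹) := by
    rw [← mul_assoc, eq_mul_inv_iff_mul_eq₀ hne]
    linear_combination hxy' - hxy
  have hy0 : y - y' ≠ 0 := by
    intro h0
    rw [h0, zero_mul] at he
    apply hpq
    have h5 := sub_eq_zero.1 h0
    have h6 := sub_eq_zero.1 he
    subst h5
    subst h6
    rfl
  exact ⟨hy0, C.dv.dmin_eq_right hy0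
    (ge_factor hA hC (P.1.toSubring.mul_mem (P.1.toSubring.add_mem hy hy') hinv) he)⟩

end Surf

end HB
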