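import Pool.Agent.HB.F.Gam
import Pool.Agent.HB.F.AF
import Pool.Agent.HB.B.B5

/-!
# HB-F-Lin: linear equivalences between coincidence divisors

`NCst p`: the point `p` of `B` with values in the function field is not constant.
`ip k`, `im k`: the two points at infinity of `B`.  `infD p`: the fibre of the two points at
infinity.

The valuations are in `HB/B/B5.lean` (`D := C.dv`, `D.v f = C.ord f` by `C.dv_v`): `DV.v_x_sub`,
`DV.v_y`, `DV.iInf_eq` (with `e = 1`), `DV.v_y_sub` (with `e = 1`); `iot`, `map` are explicit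
(`HB/Curve.lean`).  `hA := afacts hS` and `gam_apply hA` (`HB/F/Gam.lean`) for the coefficients.

PLAN.
* `NCst.eq_aff`: `p = aff x y h` with `x` not in the image of `k`: if `p = inf e h` then `e = ± 1` and
  `p = (ip k).map L` or `(im k).map L`; if `x = algebraMap c` then `y² = algebraMap (c⁶ + 1)` and
  `y = ± algebraMap d` with `d² = c⁶ + 1` (`IsAlgClosed`), so `p` is constant.
* `lin_fib`: `f = x - c`, `D.v_x_sub h h'` with `x' = algebraMap c` (`x ≠ x'`), `iInf (b.map L) = 0`
  (`D.const`).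
* `lin_iot`: `f = p.x - q.x`; nonzero: if `x = x'` then `y' = ± y` and `q = p` or `p = q.iot`.
* `lin_self`: `f = y` (`y ≠ 0` since `p ≠ p.iot`), `D.v_y`, `D.iInf_eq`.
* `lin_inf`: `f = y - x³`, nonzero as `(y - x³)(y + x³) = 1`; `D.v_y_sub h 1`.
-/

set_option autoImplicit false

open IsLocalRing

namespace HB

/-- the point `∞₊` of `B` -/
def ip (k : Type) [Field k] : BPt k := .inf 1 (one_pow 2)

/-- the point `∞₋` of `B` -/
def im (k : Type) [Field k] : BPt k := .inf (-1) (by rw [neg_sq, one_pow])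

variable {k L : Type} [Field k] [Field L] [Algebra k L]

private theorem inf_congr {F : Type} [Field F] {e e' : F} (h : e ^ 2 = 1) (h' : e' ^ 2 = 1)
    (he : e = e') : BPt.inf e h = BPt.inf e' h' := by
  subst he
  rfl

private theorem aff_congr {F : Type} [Field F] {x y x' y' : F} (h : y ^ 2 = x ^ 6 + 1)
    (h' : y' ^ 2 = x' ^ 6 + 1) (hx : x = x') (hy : y = y') :
    BPt.aff x y h = BPt.aff x' y' h' := by
  subst hx
  subst hy
  rfl

private theorem one_sq' (F : Type) [Field F] : (1 : F) ^ 2 = 1 := one_pow 2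

private theorem neg_one_sq' (F : Type) [Field F] : (-1 : F) ^ 2 = 1 := by
  rw [neg_sq, one_pow]

private theorem ip_map : (ip k).map L = .inf 1 (one_sq' L) :=
  inf_congr _ _ (map_one _)

private theorem im_map : (im k).map L = .inf (-1) (neg_one_sq' L) :=
  inf_congr _ _ (by rw [map_neg, map_one])

private theorem iot_iot' (p : BPt L) : p.iot.iot = p := by
  cases p with
  | aff x y h => exact aff_congr _ _ rfl (neg_neg y)
  | inf e h => exact inf_congr _ _ (neg_neg e)

/-- the point `p` of `B` is not constant -/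
def NCst (k : Type) {L : Type} [Field k] [Field L] [Algebra k L] (p : BPt L) : Prop :=
  ∀ b : BPt k, p ≠ b.map L

theorem NCst.eq_aff [IsAlgClosed k] {p : BPt L} (hp : NCst k p) :
    ∃ (x y : L) (h : y ^ 2 = x ^ 6 + 1), p = .aff x y h ∧ ∀ c : k, x ≠ algebraMap k L c := by
  cases p with
  | inf e h =>
    exfalso
    rcases sq_eq_sq_iff_eq_or_eq_neg.1 (h.trans (one_sq' L).symm) with h1 | h1
    · apply hp (ip k)
      rw [ip_map]
      exact inf_congr _ _ h1
    · apply hp (im k)
      rw [im_map]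
      exact inf_congr _ _ h1
  | aff x y h =>
    refine ⟨x, y, h, rfl, ?_⟩
    intro c hc
    obtain ⟨d, hd⟩ := IsAlgClosed.exists_pow_nat_eq (c ^ 6 + 1) (n := 2) (by norm_num)
    have h1 : y ^ 2 = (algebraMap k L d) ^ 2 := by
      rw [h, hc, ← map_pow, ← map_pow, hd, map_add, map_one]
    rcases sq_eq_sq_iff_eq_or_eq_neg.1 h1 with h2 | h2
    · exact hp (.aff c d hd) (aff_congr _ _ hc h2)
    · exact hp (.aff c (-d) (by rw [neg_sq, hd])) (aff_congr _ _ hc (by rw [map_neg]; exact h2))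

theorem NCst.iot {p : BPt L} (hp : NCst k p) : NCst k p.iot := by
  intro b hb
  apply hp b.iot
  rw [← iot_iot' p, hb]
  cases b with
  | aff x y h => exact aff_congr _ _ rfl (by rw [map_neg])
  | inf e h => exact inf_congr _ _ (by rw [map_neg])

theorem NCst.ne_iot [CharZero k] [IsAlgClosed k] {p : BPt L} (hp : NCst k p) : p ≠ p.iot := by
  have hL : CharZero L := charZero_of_injective_algebraMap (algebraMap k L).injective
  obtain ⟨x, y, h, rfl, hx⟩ := hp.eq_aff
  intro he
  have h1 : y = -y := congrArg BPt.y he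
  have h2 : y = 0 := self_eq_neg.1 h1
  have h3 : x ^ 6 + 1 = 0 := by rw [← h, h2]; ring
  have hi : IsIntegral k x := by
    refine ⟨Polynomial.X ^ 6 + Polynomial.C 1, ?_, ?_⟩
    · exact Polynomial.monic_X_pow_add_C _ (by norm_num)
    · simp [h3]
  have h4 : (minpoly k x).degree = 1 :=
    IsAlgClosed.degree_eq_one_of_irreducible k (minpoly.irreducible hi)
  obtain ⟨c, hc⟩ := minpoly.mem_range_of_degree_eq_one k x h4
  exact hx c hc.symm

theorem BPt.map_iot (b : BPt k) : b.iot.map L = (b.map L).iot := by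
  cases b with
  | aff x y h => exact aff_congr _ _ rfl (map_neg _ _)
  | inf e h => exact inf_congr _ _ (map_neg _ _)

namespace Surf

variable (S : Surf k L)

/-- the fibre of the two points at infinity -/
noncomputable def infD [CharZero k] [IsAlgClosed k] (p : BPt L) : S.Div :=
  S.fib p (ip k) + S.fib p (im k)

variable {S}

variable [CharZero k] [IsAlgClosed k]

private theorem infD_apply (hS : S.Smooth) {x y : L} (h : y ^ 2 = x ^ 6 + 1)
    (hp : S.Mor (.aff x y h)) (hn : NCst k (.aff x y h)) (C : S.PD) :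
    S.infD (.aff x y h) C = C.dv.iInf (.aff x y h) := by
  have hA := afacts hS
  have e1 : C.dv.iInf (.aff x y h) = C.dv.iB (.aff x y h) ((ip k).map L) +
      C.dv.iB (.aff x y h) ((im k).map L) := by
    rw [ip_map, im_map]
    exact C.dv.iInf_eq h 1 (one_sq' L)
  unfold infD fib
  rw [Finsupp.add_apply, gam_apply hA hp (mor_map hA _) (hn _), gam_apply hA hp (mor_map hA _) (hn _),
    e1]

private theorem isDiv_sub {f : L} {D D' : S.Div} (h0 : f ≠ 0)
    (h : ∀ C : S.PD, C.dv.v f = D C - D' C) : S.LinEq D D' :=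
  ⟨f, h0, fun C => by rw [Finsupp.sub_apply, ← C.dv_v, h]⟩

theorem lin_fib (hS : S.Smooth) {p : BPt L} (hp : S.Mor p) (hn : NCst k p) (c d : k)
    (h : d ^ 2 = c ^ 6 + 1) :
    S.LinEq (S.fib p (.aff c d h) + S.fib p (BPt.iot (.aff c d h))) (S.infD p) := by
  have hA := afacts hS
  obtain ⟨x, y, hxy, rfl, hx⟩ := hn.eq_aff
  have hne : x ≠ algebraMap k L c := hx c
  have h' : (algebraMap k L d) ^ 2 = (algebraMap k L c) ^ 6 + 1 := by
    rw [← map_pow, h, map_add, map_pow, map_one]
  refine isDiv_sub (f := x - algebraMap k L c) (sub_ne_zero.2 hne) fun C => ?_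
  have h0 : C.dv.iInf (.aff (algebraMap k L c) (algebraMap k L d) h') = 0 := by
    change max 0 (-(C.dv.v (algebraMap k L c))) = 0
    rw [C.dv.const, neg_zero, max_self]
  have e1 : (BPt.aff c d h).map L = .aff (algebraMap k L c) (algebraMap k L d) h' := rfl
  rw [C.dv.v_x_sub hxy h' hne, h0, sub_zero, infD_apply hS hxy hp hn, Finsupp.add_apply]
  unfold fib
  rw [gam_apply hA hp (mor_map hA _) (hn _), gam_apply hA hp (mor_map hA _) (hn _),
    BPt.map_iot, e1]

theorem lin_iot (hS : S.Smooth) {p q : BPt L} (hp : S.Mor p) (hn : NCst k p) (hq : S.Mor q)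
    (hn' : NCst k q) (hpq : p ≠ q) (hpi : p ≠ q.iot) :
    S.LinEq (S.gam p q + S.gam p q.iot) (S.infD p + S.infD q) := by
  have hA := afacts hS
  obtain ⟨x, y, h, rfl, hx⟩ := hn.eq_aff
  obtain ⟨x', y', h', rfl, hx'⟩ := hn'.eq_aff
  have hne : x ≠ x' := by
    intro he
    have h1 : y ^ 2 = y' ^ 2 := by rw [h, h', he]
    rcases sq_eq_sq_iff_eq_or_eq_neg.1 h1 with h2 | h2
    · exact hpq (aff_congr _ _ he h2)
    · exact hpi (aff_congr _ _ he h2)
  refine isDiv_sub (f := x - x') (sub_ne_zero.2 hne) fun C => ?_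
  rw [C.dv.v_x_sub h h' hne, Finsupp.add_apply, Finsupp.add_apply, infD_apply hS h hp hn,
    infD_apply hS h' hq hn', gam_apply hA hp hq hpq, gam_apply hA hp (mor_iot hq) hpi]
  ring

theorem lin_self (hS : S.Smooth) {p : BPt L} (hp : S.Mor p) (hn : NCst k p) :
    S.LinEq (S.gam p p.iot) ((3 : ℤ) • S.infD p) := by
  have hA := afacts hS
  have hni := hn.ne_iot
  obtain ⟨x, y, h, rfl, hx⟩ := hn.eq_aff
  have hy : y ≠ 0 := by
    intro h0
    exact hni (aff_congr _ _ rfl (by rw [h0, neg_zero]))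
  refine isDiv_sub (f := y) hy fun C => ?_
  rw [C.dv.v_y h hy, gam_apply hA hp (mor_iot hp) hni, Finsupp.smul_apply,
    infD_apply hS h hp hn, smul_eq_mul]

theorem lin_inf (hS : S.Smooth) {p : BPt L} (hp : S.Mor p) (hn : NCst k p) :
    S.LinEq ((3 : ℤ) • S.fib p (ip k)) ((3 : ℤ) • S.fib p (im k)) := by
  have hA := afacts hS
  obtain ⟨x, y, h, rfl, hx⟩ := hn.eq_aff
  have hf : y - 1 * x ^ 3 ≠ 0 := by
    intro h0
    have h1 : (y - 1 * x ^ 3) * (y + x ^ 3) = 1 := by linear_combination h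
    rw [h0, zero_mul] at h1
    exact zero_ne_one h1
  refine isDiv_sub (f := y - 1 * x ^ 3) hf fun C => ?_
  have e1 : C.dv.v (y - 1 * x ^ 3) = 3 * C.dv.iB (.aff x y h) ((ip k).map L) -
      3 * C.dv.iB (.aff x y h) ((im k).map L) := by
    rw [ip_map, im_map]
    exact C.dv.v_y_sub h 1 (one_sq' L)
  rw [e1, Finsupp.smul_apply, Finsupp.smul_apply]
  unfold fib
  rw [gam_apply hA hp (mor_map hA _) (hn _), gam_apply hA hp (mor_map hA _) (hn _), smul_eq_mul,
    smul_eq_mul]

end Surf

end HB
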