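import Pool.Agent.HB.F.GeoP
import Pool.Agent.HB.F.DegPos
import Pool.Agent.HB.Pl.Phi

/-!
# HB-F-PhiPt: the linear form `Phi` and products of fibres of the marks

`HB/Pl/Phi.lean`: `Surf.Mk`, `Mk.Phi D₁ D₂ : CH0 →ₗ[ℚ] k`, `Mk.Phi_single`, `Pt.phi`, `Pt.fP`, `Pt.val`.
PLAN.
* `Geo.maps`: `eq` from `G.curve`, `reg` from `G.mor 0`, `G.mor 1` (`HB/F/GeoP.lean`; `(G.pt 0).x = G.x 0` by `rfl`).
* `phi_val`: `Val P (G.pt 0) (aff c d)` means `Van P.1 (x 0 - c)`, `Van P.1 (y 0 - d)`; so `x 0, y 0 ∈ O_P` and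
  `P.val (x 0) = c`, `P.val (y 0) = d` (`Pt.val_of_mem`, `Pt.ev_eq_iff` in `HB/A/LocB.lean`); the same for `1`.
  `Phi_single`, unfold `Pt.phi`, `Pt.fP`.
* `phi_fib0`: `phi_prod hX (G.maps.Phi D₁ D₂) (G.pair0 hX)` with `phi_val`.
* `phi_fib2`: `pt 2 = (pt 0).alp` (`pt_two`), `(c, d) = (c₀, d₀).alp` for `c₀ = ζ⁻¹ c`, `d₀ = -d`, so
  `fib (pt 2) (aff c d) = fib (pt 0) (aff c₀ d₀)` (`fib_alp`), `phi_fib0`.
-/

set_option autoImplicit false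

open IsLocalRing

namespace HB

variable {k K : Type} [Field k] [Field K] [Algebra k K] [CharZero k] [IsAlgClosed k]

/-- The value of the 2-form at the pair of points with coordinates `(c,d)`, `(c',d')`. -/
def w2 (D₁ D₂ : k → k) (c d c' d' : k) : k :=
  (D₁ c / d) * (c' * D₂ c' / d') - (D₂ c / d) * (c' * D₁ c' / d')

namespace Geo

variable {X : Surf k K} (G : Geo X)

/-- The marks `0`, `1` as two maps to the curve. -/
noncomputable def maps : X.Mk where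
  x := ![G.x 0, G.x 1]
  y := ![G.y 0, G.y 1]
  eq := by
    intro j
    fin_cases j
    · exact G.curve 0
    · exact G.curve 1
  reg := by
    intro j P
    fin_cases j
    · exact G.mor 0 P
    · exact G.mor 1 P

variable {G}

private theorem val_of_van {P : X.Pt} {f : K} {c : k} (h : Van P.1 (f - algebraMap k K c)) :
    f ∈ P.1.toSubring ∧ P.val f = c := by
  have hc : algebraMap k K c ∈ P.1.toSubring := P.algebraMap_mem c
  have hf : f ∈ P.1.toSubring := by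
    have := add_mem h.mem hc
    rwa [sub_add_cancel] at this
  refine ⟨hf, ?_⟩
  rw [P.val_of_mem hf, P.ev_eq_iff]
  exact h.choose_spec

theorem phi_val {P : X.Pt} {c d c' d' : k} {h : d ^ 2 = c ^ 6 + 1} {h' : d' ^ 2 = c' ^ 6 + 1}
    (h0 : Surf.Val P (G.pt 0) (.aff c d h)) (h1 : Surf.Val P (G.pt 1) (.aff c' d' h'))
    (D₁ D₂ : Derivation ℤ k k) :
    G.maps.Phi D₁ D₂ (Submodule.Quotient.mk (Finsupp.single P 1)) = w2 D₁ D₂ c d c' d' := by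
  obtain ⟨a1, a2⟩ := h0
  obtain ⟨b1, b2⟩ := h1
  obtain ⟨m0, e0⟩ := val_of_van (X := X) (f := G.x 0) a1
  obtain ⟨-, f0⟩ := val_of_van (X := X) (f := G.y 0) a2
  obtain ⟨m1, e1⟩ := val_of_van (X := X) (f := G.x 1) b1
  obtain ⟨-, f1⟩ := val_of_van (X := X) (f := G.y 1) b2
  rw [Surf.Mk.Phi_single]
  have t0 : ∀ (D : k → k) (j : ℕ), P.fP D j (G.x 0) (G.y 0) = c ^ j * D c / d := by
    intro D j
    unfold Surf.Pt.fP
    rw [if_pos m0, e0, f0]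
  have t1 : ∀ (D : k → k) (j : ℕ), P.fP D j (G.x 1) (G.y 1) = c' ^ j * D c' / d' := by
    intro D j
    unfold Surf.Pt.fP
    rw [if_pos m1, e1, f1]
  have t2 : P.phi D₁ D₂ G.maps.x G.maps.y =
      P.fP D₁ 0 (G.x 0) (G.y 0) * P.fP D₂ 1 (G.x 1) (G.y 1) -
        P.fP D₂ 0 (G.x 0) (G.y 0) * P.fP D₁ 1 (G.x 1) (G.y 1) := rfl
  rw [t2, t0, t0, t1, t1]
  unfold w2
  push_cast
  ring

theorem phi_fib0 (hX : X.Smooth) {c d c' d' : k} {h : d ^ 2 = c ^ 6 + 1}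
    {h' : d' ^ 2 = c' ^ 6 + 1} (D₁ D₂ : Derivation ℤ k k) :
    G.maps.Phi D₁ D₂ (X.prod (X.fib (G.pt 0) (.aff c d h)) (X.fib (G.pt 1) (.aff c' d' h'))) =
      X.deg (X.prod (X.fib (G.pt 0) (.aff c d h)) (X.fib (G.pt 1) (.aff c' d' h'))) •
        w2 D₁ D₂ c d c' d' :=
  Surf.phi_prod hX (G.maps.Phi D₁ D₂) (G.pair0 hX) _ _ _ fun _ h0 h1 => phi_val h0 h1 D₁ D₂

theorem phi_fib2 (hX : X.Smooth) {c d c' d' : k} {h : d ^ 2 = c ^ 6 + 1}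
    {h' : d' ^ 2 = c' ^ 6 + 1} (D₁ D₂ : Derivation ℤ k k) :
    G.maps.Phi D₁ D₂ (X.prod (X.fib (G.pt 2) (.aff c d h)) (X.fib (G.pt 1) (.aff c' d' h'))) =
      X.deg (X.prod (X.fib (G.pt 2) (.aff c d h)) (X.fib (G.pt 1) (.aff c' d' h'))) •
        w2 D₁ D₂ (G.ζ⁻¹ * c) (-d) c' d' := by
  have hz : G.ζ ≠ 0 := by
    intro h0
    have := G.hζ
    rw [h0] at this
    simp at this
  have hz3 : G.ζ ^ 3 = 1 := by linear_combination (G.ζ - 1) * G.hζ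
  have hz6 : (G.ζ⁻¹) ^ 6 = 1 := by
    rw [inv_pow, show G.ζ ^ 6 = 1 by linear_combination (G.ζ ^ 3 + 1) * hz3, inv_one]
  have h0 : (-d) ^ 2 = (G.ζ⁻¹ * c) ^ 6 + 1 := by
    rw [neg_sq, mul_pow, hz6, one_mul, h]
  have e : (BPt.aff c d h : BPt k) = (BPt.aff (G.ζ⁻¹ * c) (-d) h0).alp G.ζ G.hζ := by
    unfold BPt.alp
    congr 1
    · rw [mul_inv_cancel_left₀ hz]
    · rw [neg_neg]
  have e2 : X.fib (G.pt 2) (.aff c d h) = X.fib (G.pt 0) (BPt.aff (G.ζ⁻¹ * c) (-d) h0) := by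
    rw [e, G.pt_two, Surf.fib_alp]
  rw [e2]
  exact phi_fib0 hX D₁ D₂

end Geo

end HB
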