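import Pool.Agent.HB.F.DegZ
import Pool.Agent.HB.F.PhiPt

/-!
# HB-F-PhiZ: the 0-cycle `Zd 0 . Zd 1 + Zd 2 . Zd 1` is not rationally equivalent to zero

PLAN.  `D₁ xp = 1`, `D₁ xq = 0`, `D₂ xp = 0`, `D₂ xq = 1` (`Z : ZPair k`, `HB/D/Defs.lean`), `D_i ζ = 0` (apply
`D_i` to `ζ² + ζ + 1 = 0`: `(2 ζ + 1) D ζ = 0` and `2 ζ + 1 ≠ 0`).
* `w2_zeta`: `w2 (ζ⁻¹ c) (-d) c' d' = - ζ⁻¹ * w2 c d c' d'` (Leibniz, `D ζ⁻¹ = 0`).
* `w2` of the four pairs `(p,p), (p,q), (q,p), (q,q)`: `0`, `xq/(yp yq)`, `-xp/(yp yq)`, `0`.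
* `N > 0` with all `deg (prod (fib (pt 0) b) (fib (pt 1) b')) = N` (`deg_prod_const hX (G.pair0 hX)`); the same
  `N` for `(pt 2, pt 1)`: `fib (pt 2) (b.alp) = fib (pt 0) b` (`pt_two`, `fib_alp`).
* `Phi (prod (Zd 0) (Zd 1)) = N (xp - xq)/(yp yq)` by `prod_Zd`, `phi_fib0` (map_add, ...), and
  `Phi (prod (Zd 2) (Zd 1)) = - ζ⁻¹ N (xp - xq)/(yp yq)` by `phi_fib2`.  The sum is
  `N (1 - ζ⁻¹) (xp - xq)/(yp yq) ≠ 0` (`ζ ≠ 1` as `3 ≠ 0`; `Z.ne`; `N ≠ 0` in `k`, char `0`;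
  `q • a = (q : k) * a` is `Rat.smul_def` / `Algebra.smul_def`).
* `final`: `chern hX hR`; `deg ((2 * 5) c₂ - (5 - 1) c₁²) = deg (2 (..)) = 0` (`deg_Zd0`, `deg_Zd2`);
  if `25 c₂ = 10 c₁²` then `10 c₂ = 4 c₁²`, so `2 • (..) = 0` and `Phi (..) = 0`, contradiction to `phi_Zd`.
-/

set_option autoImplicit false
set_option linter.unusedSectionVars false

open IsLocalRing

namespace HB

variable {k K : Type} [Field k] [Field K] [Algebra k K] [CharZero k] [IsAlgClosed k] [CharZero K]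

namespace Geo

variable {X : Surf k K} {G : Geo X} {Z : ZPair k}

private theorem der_zeta {ζ : k} (hζ : ζ ^ 2 + ζ + 1 = 0) (D : Derivation ℤ k k) :
    D ζ = 0 ∧ D ζ⁻¹ = 0 := by
  have h1 : (2 * ζ + 1) * D ζ = 0 := by
    have h := congrArg D hζ
    rw [map_add, map_add, Derivation.map_one_eq_zero, map_zero, pow_two, Derivation.leibniz,
      smul_eq_mul] at h
    linear_combination h
  have h2 : (2 * ζ + 1) ≠ 0 := by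
    intro h
    have h3 : (3 : k) = 0 := by linear_combination (4 : k) * hζ - (2 * ζ + 1) * h
    exact three_ne_zero h3
  have h3 : D ζ = 0 := (mul_eq_zero.1 h1).resolve_left h2
  refine ⟨h3, ?_⟩
  rw [Derivation.leibniz_inv, h3, smul_zero]

private theorem w2_zeta {ζ : k} (hζ : ζ ^ 2 + ζ + 1 = 0) (D₁ D₂ : Derivation ℤ k k)
    (c d c' d' : k) : w2 D₁ D₂ (ζ⁻¹ * c) (-d) c' d' = - ζ⁻¹ * w2 D₁ D₂ c d c' d' := by
  unfold w2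
  rw [Derivation.leibniz, Derivation.leibniz, (der_zeta hζ D₁).2, (der_zeta hζ D₂).2,
    smul_zero, add_zero, add_zero, smul_eq_mul, smul_eq_mul, div_neg, div_neg]
  ring

theorem phi_Zd (hX : X.Smooth) (D₁ D₂ : Derivation ℤ k k) (h1 : D₁ Z.xp = 1) (h2 : D₁ Z.xq = 0)
    (h3 : D₂ Z.xp = 0) (h4 : D₂ Z.xq = 1) :
    G.maps.Phi D₁ D₂ (X.prod (G.Zd Z 0) (G.Zd Z 1) + X.prod (G.Zd Z 2) (G.Zd Z 1)) ≠ 0 := by
  obtain ⟨N, hN, hN0⟩ := Surf.deg_prod_const hX (G.pair0 hX)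
  obtain ⟨N', hN', hN2⟩ := Surf.deg_prod_const hX (G.pair2 hX)
  have e : N' = N := by
    rw [← hN2 (Z.p.alp G.ζ G.hζ) Z.p, G.pt_two, Surf.fib_alp, hN0]
  subst e
  have hz0 : G.ζ ≠ 0 := by
    intro h0
    have := G.hζ
    rw [h0] at this
    norm_num at this
  have hz1 : G.ζ ≠ 1 := by
    intro h0
    have := G.hζ
    rw [h0] at this
    norm_num at this
  have f0 : ∀ (c d c' d' : k) (h : d ^ 2 = c ^ 6 + 1) (h' : d' ^ 2 = c' ^ 6 + 1),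
      G.maps.Phi D₁ D₂ (X.prod (X.fib (G.pt 0) (.aff c d h)) (X.fib (G.pt 1) (.aff c' d' h'))) =
        (N' : k) * w2 D₁ D₂ c d c' d' := by
    intro c d c' d' h h'
    rw [phi_fib0 hX, hN0, Rat.smul_def]
  have f2 : ∀ (c d c' d' : k) (h : d ^ 2 = c ^ 6 + 1) (h' : d' ^ 2 = c' ^ 6 + 1),
      G.maps.Phi D₁ D₂ (X.prod (X.fib (G.pt 2) (.aff c d h)) (X.fib (G.pt 1) (.aff c' d' h'))) =
        (N' : k) * (- G.ζ⁻¹ * w2 D₁ D₂ c d c' d') := by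
    intro c d c' d' h h'
    rw [phi_fib2 hX, hN2, Rat.smul_def, w2_zeta G.hζ]
  have hp : Z.p = .aff Z.xp Z.yp Z.hp := rfl
  have hq : Z.q = .aff Z.xq Z.yq Z.hq := rfl
  rw [map_add, prod_Zd hX, prod_Zd hX, map_add, map_sub, map_sub, map_add, map_sub, map_sub, hp, hq,
    f0, f0, f0, f0, f2, f2, f2, f2]
  have hyp := Z.yp0
  have hyq := Z.yq0
  have hw : w2 D₁ D₂ Z.xp Z.yp Z.xp Z.yp - w2 D₁ D₂ Z.xp Z.yp Z.xq Z.yq -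
      w2 D₁ D₂ Z.xq Z.yq Z.xp Z.yp + w2 D₁ D₂ Z.xq Z.yq Z.xq Z.yq =
      (Z.xp - Z.xq) / (Z.yp * Z.yq) := by
    unfold w2
    rw [h1, h2, h3, h4]
    field_simp
    ring
  have key : (N' : k) * w2 D₁ D₂ Z.xp Z.yp Z.xp Z.yp - (N' : k) * w2 D₁ D₂ Z.xp Z.yp Z.xq Z.yq -
      (N' : k) * w2 D₁ D₂ Z.xq Z.yq Z.xp Z.yp + (N' : k) * w2 D₁ D₂ Z.xq Z.yq Z.xq Z.yq +
      ((N' : k) * (- G.ζ⁻¹ * w2 D₁ D₂ Z.xp Z.yp Z.xp Z.yp) -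
      (N' : k) * (- G.ζ⁻¹ * w2 D₁ D₂ Z.xp Z.yp Z.xq Z.yq) -
      (N' : k) * (- G.ζ⁻¹ * w2 D₁ D₂ Z.xq Z.yq Z.xp Z.yp) +
      (N' : k) * (- G.ζ⁻¹ * w2 D₁ D₂ Z.xq Z.yq Z.xq Z.yq)) =
      (N' : k) * (1 - G.ζ⁻¹) * ((Z.xp - Z.xq) / (Z.yp * Z.yq)) := by
    rw [← hw]
    ring
  rw [key]
  refine mul_ne_zero (mul_ne_zero ?_ ?_) (div_ne_zero (sub_ne_zero.2 Z.ne) (mul_ne_zero hyp hyq))
  · rw [Ne, Rat.cast_eq_zero]
    exact hN.ne'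
  · rw [sub_ne_zero]
    intro h
    exact hz1 (inv_eq_one.1 h.symm)

theorem final (hX : X.Smooth) {ρ : Fin 5 → K} (hR : RFive G Z ρ) (D₁ D₂ : Derivation ℤ k k)
    (h1 : D₁ Z.xp = 1) (h2 : D₁ Z.xq = 0) (h3 : D₂ Z.xp = 0) (h4 : D₂ Z.xq = 1) (c₁ : X.Div)
    (c₂ : X.CH0) (hc₁ : c₁ = ∑ i, G.flagD Z i)
    (hc₂ : c₂ = ∑ i, ∑ j, if i < j then X.prod (G.flagD Z i) (G.flagD Z j) else 0) :
    X.deg ((2 * (5 : ℕ) : ℚ) • c₂ - ((5 : ℕ) - 1 : ℚ) • X.prod c₁ c₁) = 0 ∧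
      ((5 : ℕ) ^ 2 : ℚ) • c₂ ≠ ((Nat.choose 5 2 : ℕ) : ℚ) • X.prod c₁ c₁ := by
  have hch := chern hX hR
  rw [← hc₁, ← hc₂] at hch
  have e1 : (2 * (5 : ℕ) : ℚ) = 10 := by norm_num
  have e2 : ((5 : ℕ) - 1 : ℚ) = 4 := by norm_num
  have e3 : ((5 : ℕ) ^ 2 : ℚ) = 25 := by norm_num
  have e4 : ((Nat.choose 5 2 : ℕ) : ℚ) = 10 := by
    have : Nat.choose 5 2 = 10 := by decide
    rw [this]
    norm_num
  rw [e1, e2, e3, e4, hch]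
  constructor
  · rw [Surf.deg_smul hX, Surf.deg_add hX, deg_Zd0 hX, deg_Zd2 hX]
    norm_num
  · intro h
    have h5 : (10 : ℚ) • c₂ = (4 : ℚ) • X.prod c₁ c₁ := by
      have h6 := congrArg (fun z => (2 / 5 : ℚ) • z) h
      simp only [smul_smul] at h6
      norm_num at h6
      exact h6
    rw [h5, sub_self] at hch
    have h7 := congrArg (G.maps.Phi D₁ D₂) hch
    rw [map_zero, map_smul] at h7
    have h8 := (smul_eq_zero.1 h7.symm).resolve_left (by norm_num)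
    exact phi_Zd hX D₁ D₂ h1 h2 h3 h4 h8

end Geo

end HB
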