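import Pool.Agent.HB.F.Van

/-!
# Project HB, part F: API for the restriction `C.res` of functions to a curve and for the orders
in the local rings `C.loc P`
-/

set_option autoImplicit false

open IsLocalRing

namespace HB

variable {k L : Type} [Field k] [Field L] [Algebra k L]

namespace Surf

variable {S : Surf k L} {C : S.PD} {f g : L}

theorem res_of_mem (h : f ∈ C.1.toSubring) : C.res f = residue C.1.toSubring ⟨f, h⟩ := by
  unfold PD.res; rw [dif_pos h]

theorem res_one : C.res 1 = 1 := by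
  rw [res_of_mem C.1.toSubring.one_mem]
  exact map_one _

theorem res_mul (hf : f ∈ C.1.toSubring) (hg : g ∈ C.1.toSubring) :
    C.res (f * g) = C.res f * C.res g := by
  rw [res_of_mem hf, res_of_mem hg, res_of_mem (C.1.toSubring.mul_mem hf hg), ← map_mul]
  rfl

theorem res_add (hf : f ∈ C.1.toSubring) (hg : g ∈ C.1.toSubring) :
    C.res (f + g) = C.res f + C.res g := by
  rw [res_of_mem hf, res_of_mem hg, res_of_mem (C.1.toSubring.add_mem hf hg), ← map_add]
  rfl

theorem res_neg (hf : f ∈ C.1.toSubring) : C.res (-f) = - C.res f := by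
  rw [res_of_mem hf, res_of_mem (C.1.toSubring.neg_mem hf), ← map_neg]
  rfl

theorem res_sub (hf : f ∈ C.1.toSubring) (hg : g ∈ C.1.toSubring) :
    C.res (f - g) = C.res f - C.res g := by
  rw [sub_eq_add_neg, res_add hf (C.1.toSubring.neg_mem hg), res_neg hg, sub_eq_add_neg]

theorem res_eq_zero (hf : f ∈ C.1.toSubring) : C.res f = 0 ↔ Van C.1 f := by
  rw [res_of_mem hf, residue_eq_zero_iff]
  exact ⟨fun h => ⟨hf, h⟩, fun h => h.choose_spec⟩

theorem res_van (hf : Van C.1 f) : C.res f = 0 := (res_eq_zero hf.mem).2 hf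

/-- functions which agree modulo the maximal ideal have the same restriction -/
theorem res_eq_of_van (hf : f ∈ C.1.toSubring) (hg : g ∈ C.1.toSubring) (h : Van C.1 (f - g)) :
    C.res f = C.res g := by
  have := res_van h
  rw [res_sub hf hg] at this
  exact sub_eq_zero.1 this

theorem res_eq_neg_of_van (hf : f ∈ C.1.toSubring) (hg : g ∈ C.1.toSubring)
    (h : Van C.1 (f + g)) : C.res f = - C.res g := by
  have := res_van h
  rw [res_add hf hg] at this
  exact eq_neg_of_add_eq_zero_left this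

theorem res_inv (hf : f ∈ C.1.toSubring) (hf' : f⁻¹ ∈ C.1.toSubring) :
    C.res f⁻¹ = (C.res f)⁻¹ := by
  by_cases h0 : f = 0
  · subst h0
    have : C.res (0 : L) = 0 := res_van (van_zero _)
    rw [inv_zero, this, inv_zero]
  · have h1 := res_mul hf hf'
    rw [mul_inv_cancel₀ h0, res_one] at h1
    exact eq_inv_of_mul_eq_one_right h1.symm

theorem res_mem_loc {P : S.Pt} (hP : On P C) (hf : f ∈ P.1.toSubring) : C.res f ∈ C.loc P := by
  rw [res_of_mem (hP hf)]
  exact ⟨⟨f, hP hf⟩, hf, rfl⟩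

theorem mem_loc_iff {P : S.Pt} (x : C.kap) :
    x ∈ C.loc P ↔ ∃ f : L, f ∈ P.1.toSubring ∧ f ∈ C.1.toSubring ∧ C.res f = x := by
  constructor
  · rintro ⟨⟨f, h1⟩, h2, rfl⟩
    exact ⟨f, h2, h1, res_of_mem h1⟩
  · rintro ⟨f, h1, h2, rfl⟩
    rw [res_of_mem h2]
    exact ⟨⟨f, h2⟩, h1, rfl⟩

/-- a non-unit at `P` does not become a unit in the local ring of a curve through `P` -/
theorem res_inv_not_mem_loc {P : S.Pt} (hP : On P C) (hf : Van P.1 f) (h0 : C.res f ≠ 0) :
    (C.res f)⁻¹ ∉ C.loc P := by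
  intro h
  obtain ⟨g, hg, hg', hgf⟩ := (mem_loc_iff _).1 h
  have h1 : C.res (f * g - 1) = 0 := by
    rw [res_sub (C.1.toSubring.mul_mem (hP hf.mem) hg') C.1.toSubring.one_mem,
      res_mul (hP hf.mem) hg', hgf, res_one, mul_inv_cancel₀ h0, sub_self]
  have h2 : Van C.1 (f * g - 1) := (res_eq_zero (C.1.toSubring.sub_mem
    (C.1.toSubring.mul_mem (hP hf.mem) hg') C.1.toSubring.one_mem)).1 h1
  have h3 : Van P.1 (f * g - 1) := Van.ofOn hP h2 (P.1.toSubring.sub_mem
    (P.1.toSubring.mul_mem hf.mem hg) P.1.toSubring.one_mem)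
  have h4 := (hf.mul_right hg).sub h3
  rw [sub_sub_cancel] at h4
  exact not_van_one _ h4

namespace AFacts

variable (hA : AFacts S)

include hA

theorem mem_of_ord (h0 : f ≠ 0) (h : C.ord f = 0) : f ∈ C.1.toSubring :=
  (hA.mem_iff C f h0).2 h.ge

theorem inv_mem_of_ord (h0 : f ≠ 0) (h : C.ord f = 0) : f⁻¹ ∈ C.1.toSubring :=
  (hA.mem_iff C _ (inv_ne_zero h0)).2 (by rw [hA.ord_inv C h0, h]; simp)

theorem res_ne_zero_of_ord (h0 : f ≠ 0) (h : C.ord f = 0) : C.res f ≠ 0 := by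
  intro h1
  rw [res_eq_zero (hA.mem_of_ord h0 h), hA.van_iff C h0] at h1
  omega

theorem res_div (hf : f ≠ 0) (hg : g ≠ 0) (h1 : C.ord f = 0) (h2 : C.ord g = 0) :
    C.res (f / g) = C.res f / C.res g := by
  rw [div_eq_mul_inv, res_mul (hA.mem_of_ord hf h1) (hA.inv_mem_of_ord hg h2),
    res_inv (hA.mem_of_ord hg h2) (hA.inv_mem_of_ord hg h2), div_eq_mul_inv]

variable {P : S.Pt} (hP : On P C)

include hP

theorem loc_one : ordS (C.loc P) (1 : C.kap) = 0 := by
  have := hA.loc_mul C P hP 1 1 one_ne_zero one_ne_zero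
  rw [mul_one] at this
  linarith

theorem loc_neg_one : ordS (C.loc P) (-1 : C.kap) = 0 := by
  have := hA.loc_mul C P hP (-1) (-1) (by simp) (by simp)
  rw [neg_mul_neg, mul_one, hA.loc_one hP] at this
  linarith

theorem loc_neg (x : C.kap) : ordS (C.loc P) (-x) = ordS (C.loc P) x := by
  by_cases hx : x = 0
  · rw [hx, neg_zero]
  · rw [← neg_one_mul, hA.loc_mul C P hP _ _ (by simp) hx, hA.loc_neg_one hP, zero_add]

theorem loc_inv {x : C.kap} (hx : x ≠ 0) : ordS (C.loc P) x⁻¹ = - ordS (C.loc P) x := by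
  have := hA.loc_mul C P hP x x⁻¹ hx (inv_ne_zero hx)
  rw [mul_inv_cancel₀ hx, hA.loc_one hP] at this
  linarith

theorem loc_unit {x : C.kap} (h0 : x ≠ 0) (hx : x ∈ C.loc P) (hx' : x⁻¹ ∈ C.loc P) :
    ordS (C.loc P) x = 0 := by
  have h1 := hA.loc_nonneg C P hP x h0 hx
  have h2 := hA.loc_nonneg C P hP x⁻¹ (inv_ne_zero h0) hx'
  rw [hA.loc_inv hP h0] at h2
  omega

/-- a unit at `P` has order `0` on every curve through `P` -/
theorem loc_res_unit (h0 : f ≠ 0) (hf : f ∈ P.1.toSubring) (hf' : f⁻¹ ∈ P.1.toSubring) :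
    ordS (C.loc P) (C.res f) = 0 := by
  have h1 : C.ord f = 0 := hA.ord_eq_zero_of_unit C hP hf hf' h0
  apply hA.loc_unit hP (hA.res_ne_zero_of_ord h0 h1) (res_mem_loc hP hf)
  rw [← res_inv (hP hf) (hP hf')]
  exact res_mem_loc hP hf'

/-- the restriction of a non-unit at `P` which does not vanish on `C` has positive order -/
theorem loc_res_pos (hf : Van P.1 f) (h0 : C.res f ≠ 0) : 0 < ordS (C.loc P) (C.res f) :=
  hA.loc_pos C P hP _ h0 (res_mem_loc hP hf.mem) (res_inv_not_mem_loc hP hf h0)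

omit hP in
/-- two local equations of the same divisor differ by a unit -/
theorem isEq_unit {D : S.Div} {f f' : L} (h : S.IsEq D P f) (h' : S.IsEq D P f') :
    f / f' ∈ P.1.toSubring ∧ (f / f')⁻¹ ∈ P.1.toSubring := by
  obtain ⟨h1, h2⟩ := h
  obtain ⟨h3, h4⟩ := h'
  have h5 : ∀ C : S.PD, On P C → C.ord (f / f') = 0 := fun C hC => by
    rw [hA.ord_div C h1 h3, h2 C hC, h4 C hC, sub_self]
  have h6 : f / f' ≠ 0 := div_ne_zero h1 h3
  refine ⟨hA.regular P _ h6 fun C hC => (h5 C hC).ge, hA.regular P _ (inv_ne_zero h6)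
    fun C hC => ?_⟩
  rw [hA.ord_inv C h6, h5 C hC]; simp

end AFacts

end Surf

end HB
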