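import Pool.Agent.HB.F.Defs
import Pool.Agent.HB.Pl.LN
import Pool.Agent.HB.Pl.Center
import Pool.Agent.HB.Pl.KapB

/-!
# HB-F-SumPl: the degree of a cycle on a curve as a sum over the places

PLAN.  For `P` on `C`: `LN C.ff1 (C.loc P) (C.isCurveLoc P h)` (`HB/Pl`) gives the finite set `W_P` of
places dominating `C.loc P`, and `ordS (C.loc P) g = ∑ w ∈ W_P, ow w g = ∑ w ∈ W_P, m w =
∑ w ∈ W with Domi w (C.loc P), m w` (the `w ∈ W_P` not in `W` have `m w = 0` by `hm`).  Let `T` be the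
finite set of points `z.support ∪ {centres of the w ∈ W}` (`PD.exists_unique_center`); then
`deg0 z = ∑ P ∈ T, z P = ∑ P ∈ T, ∑ w ∈ W with (On P C ∧ Domi w (C.loc P)), m w = ∑ w ∈ W, m w` because every
`w ∈ W` has exactly one centre, and it is in `T` (`Finset.sum_comm`).
(`Surf.deg0 = Finsupp.lsum ..`, so `deg0 z = z.sum (fun _ a => a)`.)
-/

set_option autoImplicit false

open IsLocalRing

namespace HB

variable {k L : Type} [Field k] [Field L] [Algebra k L]

namespace Surf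

variable {S : Surf k L} [CharZero k] [IsAlgClosed k]

theorem sum_places (C : S.PD) (z : S.Z0) (m : ValuationSubring C.kap → ℤ)
    (W : Finset (ValuationSubring C.kap)) (hW : ∀ w ∈ W, Pl.IsPl k w)
    (hm : ∀ w, Pl.IsPl k w → m w ≠ 0 → w ∈ W)
    (hz : ∀ P : S.Pt, On P C → ∃ g : C.kap, g ≠ 0 ∧ z P = ordS (C.loc P) g ∧
      ∀ w, Pl.IsPl k w → Pl.Domi w (C.loc P) → Pl.ow w g = m w)
    (hz' : ∀ P : S.Pt, ¬ On P C → z P = 0) :
    S.deg0 z = ((∑ w ∈ W, m w : ℤ) : ℚ) := by
  classical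
  -- the centres
  have hex : ∀ w : ValuationSubring C.kap, w ∈ W → ∃ P : S.Pt, (On P C ∧ Pl.Domi w (C.loc P)) ∧
      ∀ Q : S.Pt, On Q C → Pl.Domi w (C.loc Q) → Q = P := by
    intro w hw
    obtain ⟨P, hP, hu⟩ := C.exists_unique_center w (hW w hw)
    exact ⟨P, hP, fun Q h1 h2 => hu Q ⟨h1, h2⟩⟩
  have hne : Nonempty S.Pt := ⟨C.exists_point.choose⟩
  choose! c hc hcu using hex
  set T : Finset S.Pt := z.support ∪ W.image c with hT
  have h2 : ((∑ w ∈ W, m w : ℤ) : ℚ) = ∑ P ∈ T, ((∑ w ∈ W with c w = P, m w : ℤ) : ℚ) := by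
    rw [← Int.cast_sum]
    congr 1
    refine (Finset.sum_fiberwise_of_maps_to (fun w hw => ?_) _).symm
    exact Finset.mem_union_right _ (Finset.mem_image_of_mem _ hw)
  have h3 : S.deg0 z = ∑ P ∈ T, z P := by
    have h4 : S.deg0 z = z.sum (fun _ a => a) := rfl
    rw [h4]
    exact Finsupp.sum_of_support_subset _ (Finset.subset_union_left) _ (fun _ _ => rfl)
  rw [h2, h3]
  refine Finset.sum_congr rfl fun P _ => ?_
  by_cases hP : On P C
  · obtain ⟨g, hg, hzg, hgm⟩ := hz P hP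
    obtain ⟨WP, -, hWP, hs⟩ := Pl.LN C.ff1 _ (C.isCurveLoc P hP)
    have h5 : ∑ w ∈ W with c w = P, m w = ∑ w ∈ WP, m w := by
      refine Finset.sum_subset_zero_on_sdiff ?_ ?_ (fun _ _ => rfl)
      · intro w hw
        obtain ⟨hw1, hw2⟩ := Finset.mem_filter.1 hw
        rw [hWP]
        refine ⟨hW w hw1, ?_⟩
        rw [← hw2]
        exact (hc w hw1).2
      · intro w hw
        obtain ⟨hw1, hw2⟩ := Finset.mem_sdiff.1 hw
        rw [hWP] at hw1
        by_contra h6
        apply hw2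
        have h7 := hm w hw1.1 h6
        rw [Finset.mem_filter]
        exact ⟨h7, (hcu w h7 P hP hw1.2).symm⟩
    rw [h5, hzg, hs g hg]
    congr 1
    refine Finset.sum_congr rfl fun w hw => ?_
    rw [hWP] at hw
    exact hgm w hw.1 hw.2
  · have h5 : (Finset.filter (fun w => c w = P) W) = ∅ := by
      rw [Finset.filter_eq_empty_iff]
      rintro w hw rfl
      exact hP (hc w hw).1
    rw [h5, hz' P hP]
    simp

end Surf

end HB
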