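import Pool.Agent.HB.F.Res

/-!
# HB-F-Val: values at closed points of a morphism to the curve `B : y² = x⁶ + 1`

`BPt L` (see `HB/Curve.lean`): `aff x y h` and `inf e h` (`e² = 1`), `xh = 1/x`, `yh = y/x³` (junk `0`
if `x = 0`), for `inf e`: `xh = 0`, `yh = e`, `x = y = 0` (junk).

PLAN.
* `val_exists`: `p = inf e h`: `e² = 1` in `L` gives `e = 1` or `e = -1`, value `inf (±1)`.
  `p = aff x y h`, `x ∈ O_P`: `y² = x⁶ + 1 ∈ O_P` has nonnegative order along every `C` through `P`
  (`hA.mem_iff`, `hA.ord_pow`), hence so has `y` (if `y ≠ 0`) and `y ∈ O_P` by `hA.regular`.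
  Take the values `c, d` of `x, y` (`hA.value`).  `d² = c⁶ + 1`: the difference of
  `y² - x⁶ - 1 = 0` and `algebraMap (d² - c⁶ - 1)` is in the maximal ideal
  (`y² - d² = (y - d)(y + d)`, `x⁶ - c⁶ = (x - c)(...)`), so `hA.algebraMap_van` applies.
  `x ∉ O_P`: then `x⁻¹ ∈ O_P` (`hp`), it is in the maximal ideal (otherwise `x ∈ O_P`,
  `van_or_inv_mem`), `u := y / x³` satisfies `u² = 1 + (1/x)⁶`, so as before `u ∈ O_P`; its value
  `e` satisfies `e² = 1`.
* `val_unique`: two affine values or two infinite values: subtract (`Van.sub`) and use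
  `hA.algebraMap_van`.  An affine and an infinite value `aff c d`, `inf e` of `p = aff x y h`:
  `x ∈ O_P` (`Van (x - c)`); `x ≠ 0` (else `yh = 0` and `Van (0 - e)`, `e ≠ 0`), and `Van x⁻¹`
  contradicts `x ∈ O_P` (`Van.inv_not_mem`).  `p = inf e' h`: `Van (0 - c)`, `Van (0 - d)` give
  `c = d = 0`, contradiction to `d² = c⁶ + 1`.
-/

set_option autoImplicit false

open IsLocalRing

namespace HB

variable {k L : Type} [Field k] [Field L] [Algebra k L]

namespace Surf

variable {S : Surf k L}

private theorem vl_pow (hA : AFacts S) (P : S.Pt) {f : L} {n : ℕ} (hn : 0 < n)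
    (h : f ^ n ∈ P.1.toSubring) : f ∈ P.1.toSubring := by
  by_cases h0 : f = 0
  · rw [h0]
    exact P.1.toSubring.zero_mem
  · refine hA.regular P f h0 fun C hC => ?_
    have h1 := (hA.mem_iff C _ (pow_ne_zero n h0)).1 (hC h)
    rw [hA.ord_pow C h0] at h1
    have hn' : (0 : ℤ) < n := by exact_mod_cast hn
    by_contra h2
    push Not at h2
    have h3 := mul_neg_of_pos_of_neg hn' h2
    omega

private theorem vl_mem (hA : AFacts S) {P : S.Pt} {f : L} {c : k}
    (h : Van P.1 (f - algebraMap k L c)) : f ∈ P.1.toSubring := by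
  have h1 := P.1.toSubring.add_mem h.mem (hA.algMemP P c)
  rwa [sub_add_cancel] at h1

private theorem vl_eq (hA : AFacts S) {P : S.Pt} {a b : L} {c d : k} (h : a ^ 2 = b ^ 6 + 1)
    (hb : Van P.1 (b - algebraMap k L c)) (ha : Van P.1 (a - algebraMap k L d)) :
    d ^ 2 = c ^ 6 + 1 := by
  have ha' := vl_mem hA ha
  have hb' := vl_mem hA hb
  have hc' := hA.algMemP P c
  have hd' := hA.algMemP P d
  have h1 : Van P.1 ((a - algebraMap k L d) * (a + algebraMap k L d)) :=
    ha.mul_right (P.1.toSubring.add_mem ha' hd')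
  have h2 : Van P.1 ((b - algebraMap k L c) * (b ^ 5 + b ^ 4 * algebraMap k L c +
      b ^ 3 * algebraMap k L c ^ 2 + b ^ 2 * algebraMap k L c ^ 3 + b * algebraMap k L c ^ 4 +
      algebraMap k L c ^ 5)) := by
    refine hb.mul_right ?_
    exact add_mem (add_mem (add_mem (add_mem (add_mem (pow_mem hb' 5)
      (mul_mem (pow_mem hb' 4) hc')) (mul_mem (pow_mem hb' 3) (pow_mem hc' 2)))
      (mul_mem (pow_mem hb' 2) (pow_mem hc' 3))) (mul_mem hb' (pow_mem hc' 4))) (pow_mem hc' 5)
  have h3 : Van P.1 (algebraMap k L (d ^ 2 - c ^ 6 - 1)) := by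
    have h4 := h2.sub h1
    have h5 : (b - algebraMap k L c) * (b ^ 5 + b ^ 4 * algebraMap k L c +
      b ^ 3 * algebraMap k L c ^ 2 + b ^ 2 * algebraMap k L c ^ 3 + b * algebraMap k L c ^ 4 +
      algebraMap k L c ^ 5) - (a - algebraMap k L d) * (a + algebraMap k L d) =
        algebraMap k L (d ^ 2 - c ^ 6 - 1) := by
      rw [map_sub, map_sub, map_pow, map_pow, map_one]
      linear_combination -h
    rwa [h5] at h4
  have h6 := (hA.algebraMap_van P).1 h3
  linear_combination h6

private theorem vl_uniq (hA : AFacts S) {P : S.Pt} {f : L} {c c' : k}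
    (h : Van P.1 (f - algebraMap k L c)) (h' : Van P.1 (f - algebraMap k L c')) : c = c' := by
  have h1 := h'.sub h
  have h2 : f - algebraMap k L c' - (f - algebraMap k L c) = algebraMap k L (c - c') := by
    rw [map_sub]
    ring
  rw [h2] at h1
  exact sub_eq_zero.1 ((hA.algebraMap_van P).1 h1)

private theorem vl_zero (hA : AFacts S) {P : S.Pt} {c : k}
    (h : Van P.1 ((0 : L) - algebraMap k L c)) : c = 0 := by
  have h1 : Van P.1 ((0 : L) - algebraMap k L 0) := by
    rw [map_zero, sub_zero]
    exact van_zero _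
  exact vl_uniq hA h h1

private theorem vl_aff (hA : AFacts S) {P : S.Pt} {x y : L} (h : y ^ 2 = x ^ 6 + 1)
    (hx : x ∈ P.1.toSubring) : ∃ b : BPt k, Val P (.aff x y h) b := by
  have hy : y ∈ P.1.toSubring := by
    apply vl_pow hA P (n := 2) (by norm_num)
    rw [h]
    exact add_mem (pow_mem hx 6) P.1.toSubring.one_mem
  obtain ⟨c, hc⟩ := hA.value P x hx
  obtain ⟨d, hd⟩ := hA.value P y hy
  exact ⟨.aff c d (vl_eq hA h hc hd), hc, hd⟩

theorem val_exists (hA : AFacts S) {p : BPt L} (hp : S.Mor p) (P : S.Pt) :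
    ∃ b : BPt k, Val P p b := by
  match p, hp with
  | .inf e h, _ =>
    have h1 : (e - 1) * (e + 1) = 0 := by linear_combination h
    rcases mul_eq_zero.1 h1 with h2 | h2
    · refine ⟨.inf 1 (one_pow 2), van_zero _, ?_⟩
      change Van P.1 (e - algebraMap k L 1)
      rw [map_one, h2]
      exact van_zero _
    · refine ⟨.inf (-1) (by ring), van_zero _, ?_⟩
      change Van P.1 (e - algebraMap k L (-1))
      rw [map_neg, map_one, sub_neg_eq_add, h2]
      exact van_zero _
  | .aff x y h, hp =>
    rcases hp P with hx | hx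
    · exact vl_aff hA h hx
    · change x⁻¹ ∈ P.1.toSubring at hx
      by_cases hx0 : x = 0
      · refine vl_aff hA h ?_
        rw [hx0]
        exact P.1.toSubring.zero_mem
      · rcases van_or_inv_mem hx with h1 | h1
        · have h2 : (y / x ^ 3) ^ 2 = x⁻¹ ^ 6 + 1 := by
            field_simp
            linear_combination h
          have h3 : y / x ^ 3 ∈ P.1.toSubring := by
            apply vl_pow hA P (n := 2) (by norm_num)
            rw [h2]
            exact add_mem (pow_mem hx 6) P.1.toSubring.one_mem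
          obtain ⟨e, he⟩ := hA.value P _ h3
          have h4 : Van P.1 (x⁻¹ - algebraMap k L 0) := by
            rw [map_zero, sub_zero]
            exact h1
          have h5 := vl_eq hA h2 h4 he
          exact ⟨.inf e (by rw [h5]; ring), h1, he⟩
        · rw [inv_inv] at h1
          exact vl_aff hA h h1

private theorem vl_aff_inf (hA : AFacts S) {P : S.Pt} {p : BPt L} {c d e : k}
    {h : d ^ 2 = c ^ 6 + 1} {h' : e ^ 2 = 1} (h1 : Val P p (.aff c d h))
    (h2 : Val P p (.inf e h')) : False := by
  match p, h1, h2 with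
  | .inf e' he, h1, _ =>
    have h3 : c = 0 := vl_zero hA h1.1
    have h4 : d = 0 := vl_zero hA h1.2
    rw [h3, h4] at h
    norm_num at h
  | .aff x y hxy, h1, h2 =>
    have hx : x ∈ P.1.toSubring := vl_mem hA h1.1
    by_cases hx0 : x = 0
    · have h3 : Van P.1 (y / x ^ 3 - algebraMap k L e) := h2.2
      rw [hx0, zero_pow (by norm_num), div_zero] at h3
      have h4 := vl_zero hA h3
      rw [h4] at h'
      norm_num at h'
    · have h3 : Van P.1 x⁻¹ := h2.1
      have h4 := h3.inv_not_mem (inv_ne_zero hx0)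
      rw [inv_inv] at h4
      exact h4 hx

theorem val_unique (hA : AFacts S) {P : S.Pt} {p : BPt L} {b b' : BPt k} (h : Val P p b)
    (h' : Val P p b') : b = b' := by
  match b, b', h, h' with
  | .aff c d e, .aff c' d' e', h, h' =>
    have h1 : c = c' := vl_uniq hA h.1 h'.1
    have h2 : d = d' := vl_uniq hA h.2 h'.2
    subst h1
    subst h2
    rfl
  | .inf c e, .inf c' e', h, h' =>
    have h1 : c = c' := vl_uniq hA h.2 h'.2
    subst h1
    rfl
  | .aff c d e, .inf c' e', h, h' => exact (vl_aff_inf hA h h').elim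
  | .inf c' e', .aff c d e, h, h' => exact (vl_aff_inf hA h' h).elim

theorem val_map (hA : AFacts S) (P : S.Pt) (b : BPt k) : Val P (b.map L) b := by
  match b with
  | .aff c d h =>
    constructor
    · change Van P.1 (algebraMap k L c - algebraMap k L c)
      rw [sub_self]
      exact van_zero _
    · change Van P.1 (algebraMap k L d - algebraMap k L d)
      rw [sub_self]
      exact van_zero _
  | .inf e h =>
    refine ⟨van_zero _, ?_⟩
    change Van P.1 (algebraMap k L e - algebraMap k L e)
    rw [sub_self]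
    exact van_zero _

theorem val_map_iff (hA : AFacts S) (P : S.Pt) (b b' : BPt k) : Val P (b.map L) b' ↔ b' = b := by
  constructor
  · intro h
    exact val_unique hA h (val_map hA P b)
  · rintro rfl
    exact val_map hA P b'

theorem mor_map (hA : AFacts S) (b : BPt k) : S.Mor (b.map L) := by
  intro P
  left
  match b with
  | .aff c d h => exact hA.algMemP P c
  | .inf e h => exact P.1.toSubring.zero_mem

theorem mor_iot {p : BPt L} (hp : S.Mor p) : S.Mor p.iot := by
  intro P
  have h := hp P
  match p, h with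
  | .aff x y _, h => exact h
  | .inf e _, h => exact h

theorem val_iot {P : S.Pt} {p : BPt L} {b : BPt k} (h : Val P p b) : Val P p.iot b.iot := by
  match p, b, h with
  | .aff x y _, .aff c d _, h =>
    refine ⟨h.1, ?_⟩
    change Van P.1 (-y - algebraMap k L (-d))
    have h1 : -y - algebraMap k L (-d) = -(y - algebraMap k L d) := by
      rw [map_neg]
      ring
    rw [h1]
    exact Van.neg h.2
  | .aff x y _, .inf e _, h =>
    refine ⟨h.1, ?_⟩
    change Van P.1 (-y / x ^ 3 - algebraMap k L (-e))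
    have h1 : -y / x ^ 3 - algebraMap k L (-e) = -(y / x ^ 3 - algebraMap k L e) := by
      rw [map_neg]
      ring
    rw [h1]
    exact Van.neg h.2
  | .inf e' _, .aff c d _, h =>
    refine ⟨h.1, ?_⟩
    change Van P.1 ((0 : L) - algebraMap k L (-d))
    have h1 : (0 : L) - algebraMap k L (-d) = -((0 : L) - algebraMap k L d) := by
      rw [map_neg]
      ring
    rw [h1]
    exact Van.neg h.2
  | .inf e' _, .inf e _, h =>
    refine ⟨h.1, ?_⟩
    change Van P.1 (-e' - algebraMap k L (-e))
    have h1 : -e' - algebraMap k L (-e) = -(e' - algebraMap k L e) := by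
      rw [map_neg]
      ring
    rw [h1]
    exact Van.neg h.2

/-- a point with an affine value is affine with regular coordinates -/
theorem Val.aff_mem (hA : AFacts S) {P : S.Pt} {p : BPt L} {c d : k} {h : d ^ 2 = c ^ 6 + 1}
    (hv : Val P p (.aff c d h)) :
    ∃ (x y : L) (h' : y ^ 2 = x ^ 6 + 1), p = .aff x y h' ∧ x ∈ P.1.toSubring ∧
      y ∈ P.1.toSubring := by
  match p, hv with
  | .inf e' he, hv =>
    exfalso
    have h3 : c = 0 := vl_zero hA hv.1
    have h4 : d = 0 := vl_zero hA hv.2
    rw [h3, h4] at h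
    norm_num at h
  | .aff x y hxy, hv => exact ⟨x, y, hxy, rfl, vl_mem hA hv.1, vl_mem hA hv.2⟩

/-- a point with an infinite value: `xh`, `yh` are regular and satisfy the equation; if `p` is
affine then `x ≠ 0` -/
theorem Val.inf_mem (hA : AFacts S) {P : S.Pt} {p : BPt L} {e : k} {h : e ^ 2 = 1}
    (hv : Val P p (.inf e h)) :
    p.xh ∈ P.1.toSubring ∧ p.yh ∈ P.1.toSubring ∧ p.yh ^ 2 = p.xh ^ 6 + 1 ∧
      ∀ (x y : L) (h' : y ^ 2 = x ^ 6 + 1), p = .aff x y h' → x ≠ 0 := by
  have h1 : p.xh ∈ P.1.toSubring := hv.1.mem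
  have h2 : p.yh ∈ P.1.toSubring := vl_mem hA hv.2
  refine ⟨h1, h2, ?_⟩
  match p, hv with
  | .inf e' he, hv =>
    refine ⟨?_, fun x y h' hp => by cases hp⟩
    change e' ^ 2 = (0 : L) ^ 6 + 1
    rw [he]
    ring
  | .aff x y hxy, hv =>
    have hx0 : x ≠ 0 := by
      intro hx0
      have h3 : Van P.1 (y / x ^ 3 - algebraMap k L e) := hv.2
      rw [hx0, zero_pow (by norm_num), div_zero] at h3
      have h4 := vl_zero hA h3
      rw [h4] at h
      norm_num at h
    constructor
    · change (y / x ^ 3) ^ 2 = x⁻¹ ^ 6 + 1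
      field_simp
      linear_combination hxy
    · intro x' y' h' hp
      cases hp
      exact hx0

end Surf

end HB
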